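import Pool.Agent.Lib_helper40.SN.Mk

/-! One core with all its possible roots. -/

namespace Pool.Agent.Lib_helper40.SN

open Equiv

set_option linter.unusedSectionVars false

section

variable {K : Type} [Fintype K] [DecidableEq K]

/-- relabelling that moves the root dart to `r` -/
def tauF (r : CD K) (y : CD K) : CD K :=
  (swap none r.1 y.1, if y.1 = none then (y.2 == r.2) else y.2)

theorem tau_flip (r y : CD K) : tauF r (flipP K y) = flipP K (tauF r y) := by
  obtain ⟨e, b⟩ := y
  obtain ⟨e', b'⟩ := r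
  simp only [tauF, flipP_apply]
  by_cases h : e = none
  · simp only [h, if_true, Prod.mk.injEq, true_and]
    cases b <;> cases b' <;> rfl
  · simp only [h, if_false]

theorem tau_inj (r : CD K) : Function.Injective (tauF r) := by
  rintro ⟨e, b⟩ ⟨e', b'⟩ h
  simp only [tauF, Prod.mk.injEq] at h
  obtain ⟨h1, h2⟩ := h
  have h3 : e = e' := (swap none r.1).injective h1
  subst h3
  by_cases he : e = none
  · simp only [he, if_true] at h2
    have : b = b' := by
      revert h2; cases b <;> cases b' <;> cases r.2 <;> simp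
    rw [this]
  · simp only [he, if_false] at h2
    rw [h2]

/-- the relabelling as a permutation -/
noncomputable def tau (r : CD K) : Perm (CD K) :=
  Equiv.ofBijective (tauF r) (Finite.injective_iff_bijective.1 (tau_inj r))

theorem tau_apply (r y : CD K) : tau r y = tauF r y := rfl

theorem tau_root (r : CD K) : tau r (none, true) = r := by
  rw [tau_apply]
  obtain ⟨e', b'⟩ := r
  simp only [tauF, swap_apply_left, if_true, Prod.mk.injEq, true_and]
  cases b' <;> rfl

theorem flipP_flipP (y : CD K) : flipP K (flipP K y) = y := by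
  obtain ⟨e, b⟩ := y; simp [flipP_apply]

theorem permCongr_flip (r : CD K) : (tau r).symm.permCongr (flipP K) = flipP K := by
  apply Equiv.ext
  intro y
  rw [Equiv.permCongr_apply, Equiv.symm_symm, Equiv.symm_apply_eq]
  have := tau_flip r y
  exact this.symm

/-- the same core with another root -/
noncomputable def reroot (H : Core K) (r : CD K) : Core K where
  V := H.V
  ρ := (tau r).symm.permCongr H.ρ
  card := H.card
  sona := by
    have := isSona_permCongr (tau r).symm H.sona
    rwa [permCongr_flip] at this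
  cut3 := by
    intro U hne hun hU
    have hρ : ∀ y, (tau r).symm.permCongr H.ρ ((tau r).symm y) = (tau r).symm (H.ρ y) := by
      intro y
      rw [Equiv.permCongr_apply, Equiv.symm_symm, Equiv.apply_symm_apply]
    have hfl : ∀ y, (tau r).symm (flipP K y) = flipP K ((tau r).symm y) := by
      intro y
      rw [Equiv.symm_apply_eq]
      have := tau_flip r ((tau r).symm y)
      rw [← tau_apply, ← tau_apply, Equiv.apply_symm_apply] at this
      exact this.symm
    obtain ⟨y₁, y₂, y₃, a1, a2, a3, b1, b2, b3, c12, c13, c23⟩ :=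
      H.cut3 ((tau r).symm ⁻¹' U) (by
        obtain ⟨u, hu⟩ := hne
        exact ⟨tau r u, by simpa using hu⟩) (by
        intro e
        refine hun (Set.eq_univ_of_forall (fun u => ?_))
        have : tau r u ∈ (tau r).symm ⁻¹' U := e ▸ Set.mem_univ _
        simpa using this) (by
        intro y hy
        have := hU _ hy
        rw [hρ] at this
        exact this)
    refine ⟨(tau r).symm y₁, (tau r).symm y₂, (tau r).symm y₃, a1, a2, a3, ?_, ?_, ?_,
      fun e => c12 ((tau r).symm.injective e), fun e => c13 ((tau r).symm.injective e),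
      fun e => c23 ((tau r).symm.injective e)⟩
    · rw [← hfl]; exact b1
    · rw [← hfl]; exact b2
    · rw [← hfl]; exact b3

theorem reroot_iso (H : Core K) (r : CD K) :
    GraphIso (reroot H r).ρ (flipP K) H.ρ (flipP K) (tau r) := by
  have h := graphIso_permCongr (tau r).symm H.ρ (flipP K)
  rw [permCongr_flip] at h
  have := graphIso_symm h
  rwa [Equiv.symm_symm] at this

/-- unrooted automorphisms -/
def GAut (H : Core K) (φ : CD K ≃ CD K) : Prop := GraphIso H.ρ (flipP K) H.ρ (flipP K) φ

/-- classes obtained by filling the core with any root -/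
def allSet (H : Core K) : Set NetC :=
  {q | ∃ (r : CD K) (M : K → NetC), q = Quotient.mk _ (fillNet (reroot H r) (fun k => (M k).out))}

theorem allSet_irr (H : Core K) : allSet H ⊆ {q | IrrC q} := by
  rintro _ ⟨r, M, rfl⟩
  refine ⟨_, rfl, _, rfl, ?_⟩
  exact irr_of_riso (mkNet_riso _ _ _) (irr_fill _ _)

end

/-- **Core inequality with all roots.** -/
theorem core_all_ineq {n : ℕ} (H : Core (Fin n)) {γ : Type} [Fintype γ]
    (c : {φ : CD (Fin n) ≃ CD (Fin n) // GAut H φ} → γ) (hc : Function.Injective c) (x : ENNReal) :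
    (Fintype.card (CD (Fin n)) : ENNReal) * (x ^ H.V * GA x ^ n) ≤
      Fintype.card γ * GS x (allSet H) := by
  classical
  set g : CD (Fin n) × (Fin n → NetC) → NetC :=
    fun p => Quotient.mk _ (fillNet (reroot H p.1) (fun k => (p.2 k).out)) with hg
  have hbase : ∀ q : NetC, ∃ p : CD (Fin n) × (Fin n → NetC), (∃ p', g p' = q) → g p = q := by
    intro q
    by_cases h : ∃ p', g p' = q
    · obtain ⟨p', h'⟩ := h
      exact ⟨p', fun _ => h'⟩
    · exact ⟨((none, true), fun _ => E0), fun k => absurd k h⟩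
  choose B hB using hbase
  have hφ : ∀ p : CD (Fin n) × (Fin n → NetC), ∃ φ : CD (Fin n) ≃ CD (Fin n),
      GraphIso (reroot H p.1).ρ (flipP (Fin n)) (reroot H (B (g p)).1).ρ (flipP (Fin n)) φ ∧
      φ (none, true) = (none, true) ∧
      ∀ k k' b', φ (some k, true) = (some k', b') →
        p.2 k = Quotient.mk _ (if b' then ((B (g p)).2 k').out else revNet ((B (g p)).2 k').out) := by
    intro p
    have h1 : g p = g (B (g p)) := (hB (g p) ⟨p, rfl⟩).symm
    exact decodeC h1
  choose φ hφ1 hφ2 hφ3 using hφ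
  -- the automorphism of the unrooted core
  set ψ : CD (Fin n) × (Fin n → NetC) → (CD (Fin n) ≃ CD (Fin n)) :=
    fun p => (tau p.1).symm.trans ((φ p).trans (tau (B (g p)).1)) with hψ
  have hψ1 : ∀ p, GAut H (ψ p) := fun p =>
    graphIso_trans (graphIso_symm (reroot_iso H p.1)) (graphIso_trans (hφ1 p) (reroot_iso H _))
  have hψ2 : ∀ p, ψ p p.1 = (B (g p)).1 := by
    intro p
    simp only [hψ, Equiv.trans_apply]
    have : (tau p.1).symm p.1 = (none, true) := by
      rw [Equiv.symm_apply_eq, tau_root]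
    rw [this, hφ2, tau_root]
  have h1 := GS_ge (x := x) (S := allSet H) g (fun p => c ⟨ψ p, hψ1 p⟩)
    (fun p => ⟨p.1, p.2, rfl⟩) (by
    intro p p' e ec
    have e2 : ψ p = ψ p' := congrArg Subtype.val (hc ec)
    have e3 : p.1 = p'.1 := by
      apply (ψ p).injective
      rw [hψ2, e2, hψ2, e]
    have e4 : φ p = φ p' := by
      apply Equiv.ext
      intro y
      have h2 := congrArg (fun f => f (tau p.1 y)) e2
      simp only [hψ, Equiv.trans_apply, Equiv.symm_apply_apply] at h2
      rw [e3, Equiv.symm_apply_apply, e] at h2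
      exact (tau _).injective h2
    refine Prod.ext e3 ?_
    funext k
    obtain ⟨k', b', hk⟩ := aut_some (hφ1 p).1 (hφ2 p) k
    rw [hφ3 p k k' b' hk, e]
    rw [e4] at hk
    exact (hφ3 p' k k' b' hk).symm)
  refine le_trans (le_of_eq ?_) h1
  have h2 : ∀ p : CD (Fin n) × (Fin n → NetC), x ^ size (g p) = x ^ H.V * x ^ (∑ k, size (p.2 k)) := by
    intro p
    rw [← pow_add]
    congr 1
    have h2 : size (g p) = H.V + ∑ k, (p.2 k).out.V := rfl
    rw [h2]
    congr 1
    refine Finset.sum_congr rfl (fun k _ => ?_)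
    rw [← size_mk, Quotient.out_eq]
  simp only [h2]
  rw [ENNReal.tsum_prod (f := fun (_ : CD (Fin n)) (M : Fin n → NetC) =>
    x ^ H.V * x ^ (∑ k, size (M k)))]
  simp only [ENNReal.tsum_mul_left, tsum_family]
  rw [tsum_fintype, Finset.sum_const, Finset.card_univ, nsmul_eq_mul]
  ring

/-! ### Disjointness -/

/-- number of pairs of parallel edges -/
noncomputable def dbl {n : ℕ} (H : Core (Fin n)) : ℕ :=
  Nat.card {p : CD (Fin n) × CD (Fin n) // p.1 ≠ p.2 ∧ H.ρ.SameCycle p.1 p.2 ∧
    H.ρ.SameCycle (flipP (Fin n) p.1) (flipP (Fin n) p.2)}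

theorem dbl_iso {n : ℕ} {H H' : Core (Fin n)} {φ : CD (Fin n) ≃ CD (Fin n)}
    (h : GraphIso H.ρ (flipP (Fin n)) H'.ρ (flipP (Fin n)) φ) : dbl H = dbl H' := by
  unfold dbl
  refine Nat.card_congr ((Equiv.prodCongr φ φ).subtypeEquiv ?_)
  rintro ⟨a, b⟩
  simp only [Equiv.prodCongr_apply, Prod.map_apply, ne_eq, EmbeddingLike.apply_eq_iff_eq]
  rw [h.2, h.2, h.1, h.1]

/-- `q` is a filling of a core with `n + 1` edges and invariant `D` -/
def FillOf (n D : ℕ) (q : NetC) : Prop :=
  ∃ (H : Core (Fin n)) (M : Fin n → NetC), dbl H = D ∧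
    q = Quotient.mk _ (fillNet H (fun k => (M k).out))

theorem fillOf_unique {n D n' D' : ℕ} {q : NetC} (h : FillOf n D q) (h' : FillOf n' D' q) :
    n = n' ∧ D = D' := by
  obtain ⟨H, M, rfl, rfl⟩ := h
  obtain ⟨H', M', rfl, h2⟩ := h'
  obtain ⟨φ, g1, g2, -⟩ := decodeC h2
  have hn : n = n' := by
    have := Fintype.card_congr φ
    rw [Fintype.card_prod, Fintype.card_prod, Fintype.card_option, Fintype.card_option,
      Fintype.card_fin, Fintype.card_fin, Fintype.card_bool] at this
    omega
  subst hn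
  exact ⟨rfl, dbl_iso g1⟩

theorem coreSet_fillOf {n : ℕ} (H : Core (Fin n)) : coreSet H ⊆ {q | FillOf n (dbl H) q} := by
  rintro _ ⟨M, rfl⟩
  exact ⟨H, M, rfl, rfl⟩

theorem allSet_fillOf {n : ℕ} (H : Core (Fin n)) : allSet H ⊆ {q | FillOf n (dbl H) q} := by
  rintro _ ⟨r, M, rfl⟩
  exact ⟨reroot H r, M, dbl_iso (reroot_iso H r), rfl⟩

theorem GS_sum {ι : Type} [Fintype ι] {x : ENNReal} (S : ι → Set NetC) {U : Set NetC}
    (hdis : ∀ i j q, q ∈ S i → q ∈ S j → i = j) (hU : ∀ i, S i ⊆ U) :
    ∑ i, GS x (S i) ≤ GS x U := by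
  classical
  have key : ∀ T : Finset ι, ∑ i ∈ T, GS x (S i) ≤ GS x {q | ∃ i ∈ T, q ∈ S i} := by
    intro T
    induction T using Finset.induction_on with
    | empty => simp
    | insert i T hi ih =>
      rw [Finset.sum_insert hi]
      refine le_trans (add_le_add le_rfl ih) (GS_add ?_ ?_ ?_)
      · rintro q h1 ⟨j, hj, h2⟩
        exact hi (hdis i j q h1 h2 ▸ hj)
      · intro q hq
        exact ⟨i, Finset.mem_insert_self _ _, hq⟩
      · rintro q ⟨j, hj, h2⟩
        exact ⟨j, Finset.mem_insert_of_mem hj, h2⟩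
  refine (key Finset.univ).trans (GS_mono ?_)
  rintro q ⟨i, -, hq⟩
  exact hU i hq

end Pool.Agent.Lib_helper40.SN
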