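import Mathlib

/-! Growth of nearly supermultiplicative sequences. -/

namespace Pool.Agent.Lib_helper40.SN

open Filter Topology

section

variable {f : ℕ → ℝ} {M : ℝ}
  (h1 : ∀ n : ℕ, 1 ≤ n → 0 ≤ f n)
  (h2 : ∀ a b : ℕ, 1 ≤ a → 1 ≤ b → f a + f b ≤ Real.log (4 * ((a : ℝ) + b)) + f (a + b))
  (h3 : ∀ n : ℕ, f n ≤ n * M)

include h2

/-- balanced splitting -/
theorem multiples {a : ℕ} (ha : 1 ≤ a) : ∀ q : ℕ, 1 ≤ q →
    q * (f a - Real.log (18 * a)) + Real.log (18 * a * q) ≤ f (q * a) := by
  have ha0 : (0 : ℝ) < a := by exact_mod_cast ha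
  intro q
  induction q using Nat.strong_induction_on with
  | _ q ih =>
    intro hq
    by_cases hq1 : q = 1
    · subst hq1
      simp
    obtain ⟨m, m', hm, hmm, hqm⟩ : ∃ m m' : ℕ, 1 ≤ m ∧ (m' = m ∨ m' = m + 1) ∧ q = m + m' := by
      refine ⟨q / 2, q - q / 2, by omega, by omega, by omega⟩
    have hm' : 1 ≤ m' := by omega
    have i1 := ih m (by omega) hm
    have i2 := ih m' (by omega) hm'
    have i3 := h2 (m * a) (m' * a) (Nat.mul_pos hm ha) (Nat.mul_pos hm' ha)
    have e : m * a + m' * a = q * a := by rw [hqm]; ring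
    rw [e] at i3
    have hm0 : (1 : ℝ) ≤ m := by exact_mod_cast hm
    have hm0' : (1 : ℝ) ≤ m' := by exact_mod_cast hm'
    have hqr : (q : ℝ) = m + m' := by exact_mod_cast hqm
    have hlog : Real.log (18 * a * q) + Real.log (4 * (((m * a : ℕ) : ℝ) + ((m' * a : ℕ) : ℝ)))
        ≤ Real.log (18 * a * m) + Real.log (18 * a * m') := by
      rw [← Real.log_mul (by positivity) (by positivity),
        ← Real.log_mul (by positivity) (by positivity)]
      refine Real.log_le_log (by positivity) ?_
      push_cast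
      rw [hqr]
      have key : 4 * ((m : ℝ) + m') * (m + m') ≤ 18 * (m * m') := by
        rcases hmm with h | h
        · have : (m' : ℝ) = m := by exact_mod_cast h
          rw [this]; nlinarith
        · have : (m' : ℝ) = m + 1 := by exact_mod_cast h
          rw [this]; nlinarith
      nlinarith [mul_le_mul_of_nonneg_left key (show (0 : ℝ) ≤ 18 * a * a by positivity)]
    rw [hqr] at hlog ⊢
    nlinarith [i1, i2, i3, hlog]

/-- doubling -/
theorem doubling {a : ℕ} (ha : 1 ≤ a) : ∀ j : ℕ,
    2 ^ j * (f a - Real.log (16 * a)) + Real.log (16 * a * 2 ^ j) ≤ f (2 ^ j * a) := by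
  have ha0 : (0 : ℝ) < a := by exact_mod_cast ha
  intro j
  induction j with
  | zero => simp
  | succ j ih =>
    have i3 := h2 (2 ^ j * a) (2 ^ j * a) (Nat.mul_pos (by positivity) ha)
      (Nat.mul_pos (by positivity) ha)
    have e : 2 ^ j * a + 2 ^ j * a = 2 ^ (j + 1) * a := by ring
    rw [e] at i3
    have hlog : Real.log (16 * a * 2 ^ (j + 1)) + Real.log (4 * (((2 ^ j * a : ℕ) : ℝ) + ((2 ^ j * a : ℕ) : ℝ)))
        = 2 * Real.log (16 * a * 2 ^ j) := by
      rw [← Real.log_mul (by positivity) (by positivity), two_mul,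
        ← Real.log_mul (by positivity) (by positivity)]
      congr 1
      push_cast
      ring
    rw [pow_succ] at hlog ⊢
    nlinarith [ih, i3, hlog]

include h1 in
theorem lower {a : ℕ} (ha : 1 ≤ a) {n : ℕ} (hn : a ≤ n) :
    (n / a : ℕ) * (f a - Real.log (18 * a)) ≤ f n := by
  have ha0 : (0 : ℝ) < a := by exact_mod_cast ha
  set q := n / a with hq
  have hq1 : 1 ≤ q := (Nat.one_le_div_iff (by omega)).2 hn
  have hm := multiples h2 ha q hq1
  have hdiv : a * q + n % a = n := Nat.div_add_mod n a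
  have hmod : n % a < a := Nat.mod_lt _ (by omega)
  have hq0 : (1 : ℝ) ≤ q := by exact_mod_cast hq1
  by_cases hb : n % a = 0
  · have : n = q * a := by rw [hb] at hdiv; rw [← hdiv]; ring
    rw [this]
    have h0 : 0 ≤ Real.log (18 * a * q) := Real.log_nonneg (by
      have : (1 : ℝ) ≤ a := by exact_mod_cast ha
      nlinarith)
    linarith
  · have i3 := h2 (q * a) (n % a) (Nat.mul_pos hq1 ha) (by omega)
    have e : q * a + n % a = n := by rw [mul_comm q a]; exact hdiv
    rw [e] at i3
    have i4 := h1 (n % a) (by omega)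
    have hlog : Real.log (4 * (((q * a : ℕ) : ℝ) + ((n % a : ℕ) : ℝ))) ≤ Real.log (18 * a * q) := by
      refine Real.log_le_log (by positivity) ?_
      have h5 : ((n % a : ℕ) : ℝ) ≤ a := by exact_mod_cast le_of_lt hmod
      push_cast
      nlinarith
    linarith

include h1 h3

/-- **Fekete-type lemma.** -/
theorem fekete : ∃ L : ℝ, Tendsto (fun n : ℕ => f n / n) atTop (𝓝 L) ∧
    ∀ n : ℕ, 1 ≤ n → f n ≤ Real.log (16 * n) + n * L := by
  set c : ℕ → ℝ := fun n => (f (n + 1) - Real.log (18 * ((n + 1 : ℕ) : ℝ))) / ((n + 1 : ℕ) : ℝ) with hc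
  have hbdd : BddAbove (Set.range c) := by
    refine ⟨M, ?_⟩
    rintro _ ⟨n, rfl⟩
    simp only [hc]
    rw [div_le_iff₀ (by positivity)]
    have := h3 (n + 1)
    have h0 : 0 ≤ Real.log (18 * ((n + 1 : ℕ) : ℝ)) := Real.log_nonneg (by
      have : (1 : ℝ) ≤ ((n + 1 : ℕ) : ℝ) := by exact_mod_cast Nat.succ_le_succ (Nat.zero_le n)
      nlinarith)
    nlinarith
  set L := ⨆ n, c n with hL
  have hlog0 : Tendsto (fun n : ℕ => Real.log (18 * (n : ℝ)) / n) atTop (𝓝 0) := by
    have t1 : Tendsto (fun n : ℕ => Real.log (n : ℝ) / n) atTop (𝓝 0) := by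
      have := (Real.isLittleO_log_id_atTop).tendsto_div_nhds_zero
      exact this.comp tendsto_natCast_atTop_atTop
    have t2 : Tendsto (fun n : ℕ => Real.log 18 / (n : ℝ)) atTop (𝓝 0) :=
      tendsto_const_div_atTop_nhds_zero_nat _
    have t3 := t2.add t1
    rw [add_zero] at t3
    refine t3.congr' ?_
    filter_upwards [eventually_ge_atTop 1] with n hn
    have : (0 : ℝ) < n := by exact_mod_cast hn
    rw [Real.log_mul (by norm_num) (ne_of_gt this), add_div]
  have hlim : Tendsto (fun n : ℕ => f n / n) atTop (𝓝 L) := by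
    rw [tendsto_order]
    constructor
    · intro l hl
      obtain ⟨k, hk⟩ := exists_lt_of_lt_ciSup hl
      set a := k + 1 with ha
      set d := f a - Real.log (18 * ((a : ℕ) : ℝ)) with hd
      have hda : l < d / (a : ℝ) := hk
      have ha0 : (0 : ℝ) < (a : ℝ) := by positivity
      have t1 : Tendsto (fun n : ℕ => d / (a : ℝ) - |d| / (n : ℝ)) atTop (𝓝 (d / (a : ℝ) - 0)) :=
        tendsto_const_nhds.sub (tendsto_const_div_atTop_nhds_zero_nat _)
      rw [sub_zero] at t1
      have t2 := (tendsto_order.1 t1).1 l hda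
      filter_upwards [t2, eventually_ge_atTop a] with n hn1 hn2
      refine lt_of_lt_of_le hn1 ?_
      have hn0 : (0 : ℝ) < n := by
        have : 0 < n := by omega
        exact_mod_cast this
      have hlow := lower h1 h2 (a := a) (by omega) hn2
      rw [le_div_iff₀ hn0]
      refine le_trans ?_ hlow
      rw [sub_mul, div_mul_cancel₀ _ (ne_of_gt hn0)]
      have hq1 : (((n / a : ℕ)) : ℝ) * a ≤ n := by exact_mod_cast Nat.div_mul_le_self n a
      have hq2 : (n : ℝ) ≤ (((n / a : ℕ)) : ℝ) * a + a := by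
        have h5 : a * (n / a) + n % a = n := Nat.div_add_mod n a
        have h6 : n % a < a := Nat.mod_lt _ (by omega)
        have : n ≤ (n / a) * a + a := by rw [mul_comm (n / a) a]; omega
        exact_mod_cast this
      have h7 : d / a * n ≤ ((n / a : ℕ) : ℝ) * d + |d| := by
        rw [div_mul_eq_mul_div, div_le_iff₀ ha0]
        rcases le_total 0 d with hd0 | hd0
        · rw [abs_of_nonneg hd0]; nlinarith
        · rw [abs_of_nonpos hd0]; nlinarith
      linarith
    · intro u hu
      have t1 : Tendsto (fun n : ℕ => L + Real.log (18 * (n : ℝ)) / n) atTop (𝓝 (L + 0)) :=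
        tendsto_const_nhds.add hlog0
      rw [add_zero] at t1
      have t2 := (tendsto_order.1 t1).2 u hu
      filter_upwards [t2, eventually_ge_atTop 1] with n hn1 hn2
      refine lt_of_le_of_lt ?_ hn1
      have hn0 : (0 : ℝ) < n := by exact_mod_cast hn2
      have h5 := le_ciSup hbdd (n - 1)
      simp only [hc] at h5
      rw [Nat.sub_add_cancel hn2] at h5
      rw [sub_div] at h5
      linarith
  refine ⟨L, hlim, fun n hn => ?_⟩
  have hn0 : (0 : ℝ) < n := by exact_mod_cast hn
  have hsub : Tendsto (fun j : ℕ => 2 ^ j * n) atTop atTop :=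
    tendsto_atTop_mono (fun j => Nat.le_mul_of_pos_right _ hn)
      (tendsto_pow_atTop_atTop_of_one_lt (by norm_num))
  have t1 := hlim.comp hsub
  have h5 : (f n - Real.log (16 * n)) / n ≤ L := by
    refine ge_of_tendsto t1 (Eventually.of_forall (fun j => ?_))
    have hd := doubling h2 hn j
    have hlog : 0 ≤ Real.log (16 * n * 2 ^ j) := Real.log_nonneg (by
      have a1 : (1 : ℝ) ≤ n := by exact_mod_cast hn
      have a2 : (1 : ℝ) ≤ 2 ^ j := one_le_pow₀ (by norm_num)
      nlinarith)
    simp only [Function.comp]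
    push_cast
    rw [div_le_div_iff₀ hn0 (by positivity)]
    have : 2 ^ j * (f n - Real.log (16 * n)) ≤ f (2 ^ j * n) := by linarith
    nlinarith
  rw [div_le_iff₀ hn0] at h5
  linarith

end

end Pool.Agent.Lib_helper40.SN
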