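import Pool.Agent.Lib_helper40.SN.All

/-! A certificate for an upper bound of the number of automorphisms of a core. -/

namespace Pool.Agent.Lib_helper40.SN

open Equiv

set_option linter.unusedSectionVars false

/-- triples of vertices that look like `u` -/
def Cand {V : ℕ} (mt : Fin V → Fin V → ℕ) (κ : Fin V → ℕ) (u p : Fin V × Fin V × Fin V) : Bool :=
  decide (κ p.1 = κ u.1) && decide (κ p.2.1 = κ u.2.1) && decide (κ p.2.2 = κ u.2.2) &&
  decide (mt p.1 p.2.1 = mt u.1 u.2.1) && decide (mt p.1 p.2.2 = mt u.1 u.2.2) &&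
  decide (mt p.2.1 p.2.2 = mt u.2.1 u.2.2)

/-- vertex invariants -/
def kap1 {V : ℕ} (mt : Fin V → Fin V → ℕ) (i : Fin V) : ℕ := ∑ j, mt i j * mt i j

def kap2 {V : ℕ} (mt : Fin V → Fin V → ℕ) (i : Fin V) : ℕ :=
  100 * kap1 mt i + ∑ j, mt i j * kap1 mt j

section

variable {n V : ℕ} {H : Core (Fin n)} {v : CD (Fin n) → Fin V}

theorem exists_pi (hv : ∀ y z, H.ρ.SameCycle y z ↔ v y = v z) (hsurj : ∀ i, ∃ y, v y = i)
    {φ : CD (Fin n) ≃ CD (Fin n)} (h : GAut H φ) :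
    ∃ π : Fin V → Fin V, Function.Injective π ∧ ∀ y, v (φ y) = π (v y) := by
  choose s hs using hsurj
  have key := aut_v hv hv h
  refine ⟨fun i => v (φ (s i)), ?_, ?_⟩
  · intro i j hij
    have := (key (s i) (s j)).2 hij
    rwa [hs, hs] at this
  · intro y
    exact (key y (s (v y))).1 (hs _).symm

theorem mt_inv (mt : Fin V → Fin V → ℕ)
    (hm : ∀ i j, mt i j = (Finset.univ.filter
      (fun y : CD (Fin n) => v y = i ∧ v (flipP (Fin n) y) = j)).card)
    {φ : CD (Fin n) ≃ CD (Fin n)} (h : GAut H φ) {π : Fin V → Fin V}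
    (hπ : Function.Injective π) (hφ : ∀ y, v (φ y) = π (v y)) (i j : Fin V) :
    mt (π i) (π j) = mt i j := by
  rw [hm, hm]
  symm
  refine Finset.card_bij (fun y _ => φ y) ?_ (fun a _ b _ e => φ.injective e) ?_
  · intro y hy
    simp only [Finset.mem_filter, Finset.mem_univ, true_and] at hy ⊢
    rw [hφ, hy.1, ← h.1, hφ, hy.2]
    exact ⟨rfl, rfl⟩
  · intro z hz
    simp only [Finset.mem_filter, Finset.mem_univ, true_and] at hz
    obtain ⟨y, rfl⟩ := φ.surjective z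
    rw [hφ, ← h.1, hφ] at hz
    exact ⟨y, by simpa using ⟨hπ hz.1, hπ hz.2⟩, rfl⟩

theorem kap1_inv {mt : Fin V → Fin V → ℕ} {π : Fin V → Fin V} (hπ : Function.Injective π)
    (h : ∀ i j, mt (π i) (π j) = mt i j) (i : Fin V) : kap1 mt (π i) = kap1 mt i := by
  unfold kap1
  rw [← (Equiv.ofBijective π (Finite.injective_iff_bijective.1 hπ)).sum_comp]
  exact Finset.sum_congr rfl (fun j _ => by rw [Equiv.ofBijective_apply, h])

theorem kap2_inv {mt : Fin V → Fin V → ℕ} {π : Fin V → Fin V} (hπ : Function.Injective π)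
    (h : ∀ i j, mt (π i) (π j) = mt i j) (i : Fin V) : kap2 mt (π i) = kap2 mt i := by
  unfold kap2
  rw [kap1_inv hπ h,
    ← (Equiv.ofBijective π (Finite.injective_iff_bijective.1 hπ)).sum_comp]
  congr 1
  exact Finset.sum_congr rfl (fun j _ => by rw [Equiv.ofBijective_apply, h, kap1_inv hπ h])

/-- **Certificate.** -/
theorem aut_bound {k : ℕ} (hv : ∀ y z, H.ρ.SameCycle y z ↔ v y = v z)
    (hsurj : ∀ i, ∃ y, v y = i) (mt : Fin V → Fin V → ℕ)
    (hm : ∀ i j, mt i j = (Finset.univ.filter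
      (fun y : CD (Fin n) => v y = i ∧ v (flipP (Fin n) y) = j)).card)
    (κ : Fin V → ℕ) (hκ : ∀ i, κ i = kap2 mt i)
    (u : Fin V × Fin V × Fin V)
    (hdet : ∀ π : Fin V → Fin V, Function.Injective π → (∀ i j, mt (π i) (π j) = mt i j) →
      π u.1 = u.1 → π u.2.1 = u.2.1 → π u.2.2 = u.2.2 → ∀ i, π i = i)
    (bit : CD (Fin n) → Bool)
    (hbit : ∀ y z, v y = v z → v (flipP (Fin n) y) = v (flipP (Fin n) z) → bit y = bit z → y = z)
    (Y : Fin k → CD (Fin n))
    (hY : ∀ y z, y ≠ z → v y = v z → v (flipP (Fin n) y) = v (flipP (Fin n) z) →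
      ∃ i, Y i = y ∨ Y i = z ∨ Y i = flipP (Fin n) y ∨ Y i = flipP (Fin n) z) :
    ∃ c : {φ : CD (Fin n) ≃ CD (Fin n) // GAut H φ} →
      {p : Fin V × Fin V × Fin V // Cand mt κ u p = true} × (Fin k → Bool),
      Function.Injective c := by
  have hpi : ∀ φ : {φ : CD (Fin n) ≃ CD (Fin n) // GAut H φ}, ∃ π : Fin V → Fin V,
      Function.Injective π ∧ ∀ y, v (φ.1 y) = π (v y) := fun φ => exists_pi hv hsurj φ.2
  choose π hπ hφ using hpi
  have hmt := fun φ : {φ : CD (Fin n) ≃ CD (Fin n) // GAut H φ} =>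
    mt_inv mt hm φ.2 (hπ φ) (hφ φ)
  have hcand : ∀ φ, Cand mt κ u (π φ u.1, π φ u.2.1, π φ u.2.2) = true := by
    intro φ
    unfold Cand
    simp only [hκ, kap2_inv (hπ φ) (hmt φ), hmt φ, decide_true, Bool.and_self]
  refine ⟨fun φ => (⟨_, hcand φ⟩, fun i => bit (φ.1 (Y i))), ?_⟩
  intro φ ψ e
  simp only [Prod.mk.injEq, Subtype.mk.injEq] at e
  obtain ⟨⟨e1, e2, e3⟩, e4⟩ := e
  -- the composite
  have hχ : GAut H (φ.1.trans ψ.1.symm) := graphIso_trans φ.2 (graphIso_symm ψ.2)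
  obtain ⟨σ, hσ1, hσ2⟩ := exists_pi hv hsurj hχ
  have hσm := mt_inv mt hm hχ hσ1 hσ2
  have hfix : ∀ i, π φ i = π ψ i → σ i = i := by
    intro i hi
    obtain ⟨y, hy⟩ := hsurj i
    have h1 := hσ2 y
    rw [hy] at h1
    rw [← h1]
    have h2 : v (ψ.1 ((φ.1.trans ψ.1.symm) y)) = v (ψ.1 y) := by
      rw [Equiv.trans_apply, Equiv.apply_symm_apply, hφ φ, hφ ψ, hy, hi]
    have h3 := (aut_v hv hv ψ.2 ((φ.1.trans ψ.1.symm) y) y).2 h2
    rw [h3, hy]
  have hid := hdet σ hσ1 hσm (hfix _ e1) (hfix _ e2) (hfix _ e3)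
  have hvχ : ∀ y, v ((φ.1.trans ψ.1.symm) y) = v y := fun y => by rw [hσ2, hid]
  have hflχ : ∀ y, (φ.1.trans ψ.1.symm) (flipP (Fin n) y)
      = flipP (Fin n) ((φ.1.trans ψ.1.symm) y) := hχ.1
  have hYfix : ∀ i, (φ.1.trans ψ.1.symm) (Y i) = Y i := by
    intro i
    have h1 := congrFun e4 i
    have hpar : ∀ y, v (φ.1 y) = v (ψ.1 y) := by
      intro y
      have h2 := (aut_v hv hv ψ.2 ((φ.1.trans ψ.1.symm) y) y).1 (hvχ y)
      rwa [Equiv.trans_apply, Equiv.apply_symm_apply] at h2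
    have h3 : φ.1 (Y i) = ψ.1 (Y i) := by
      refine hbit _ _ (hpar _) ?_ h1
      rw [← φ.2.1, ← ψ.2.1]
      exact hpar _
    rw [Equiv.trans_apply, h3, Equiv.symm_apply_apply]
  have hall : ∀ y, (φ.1.trans ψ.1.symm) y = y := by
    intro y
    by_contra hne
    obtain ⟨i, hi⟩ := hY y ((φ.1.trans ψ.1.symm) y) (fun k => hne k.symm) (hvχ y).symm
      (by rw [← hflχ]; exact (hvχ _).symm)
    have h5 := hYfix i
    rcases hi with hi | hi | hi | hi
    · rw [hi] at h5; exact hne h5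
    · rw [hi] at h5
      exact hne ((φ.1.trans ψ.1.symm).injective h5)
    · rw [hi, hflχ] at h5
      exact hne ((flipP (Fin n)).injective h5)
    · rw [hi, hflχ] at h5
      have := (flipP (Fin n)).injective h5
      exact hne ((φ.1.trans ψ.1.symm).injective this)
  apply Subtype.ext
  apply Equiv.ext
  intro y
  have := hall y
  rw [Equiv.trans_apply, Equiv.symm_apply_eq] at this
  exact this

/-- the number of pairs of parallel edges from the vertex labelling -/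
theorem dbl_eq {H : Core (Fin n)} (hv : ∀ y z, H.ρ.SameCycle y z ↔ v y = v z) {D : ℕ}
    (hD : (Finset.univ.filter (fun p : CD (Fin n) × CD (Fin n) =>
      p.1 ≠ p.2 ∧ v p.1 = v p.2 ∧ v (flipP (Fin n) p.1) = v (flipP (Fin n) p.2))).card = D) :
    dbl H = D := by
  unfold dbl
  rw [← hD, Nat.card_eq_fintype_card, Fintype.card_subtype]
  congr 1
  ext p
  simp only [Finset.mem_filter, Finset.mem_univ, true_and, hv]

end

end Pool.Agent.Lib_helper40.SN
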