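import Pool.Agent.Lib_helper40.SN.Count

/-! There is at least one rooted sona map of every size. -/

namespace Pool.Agent.Lib_helper40.SN

open Equiv

/-- rotation of the figure eight -/
def eightRot : Perm (Fin (4 * 1)) := finRotate 4

/-- edges of the figure eight -/
def eightEdge : Perm (Fin (4 * 1)) := swap (0 : Fin 4) 1 * swap (2 : Fin 4) 3

theorem eight : IsRooted 1 eightRot eightEdge (1 : Fin 4) := by
  have hprod : eightRot * eightEdge = 1 * swap (0 : Fin 4) 2 := by decide
  have h02 : ¬ (1 : Perm (Fin (4 * 1))).SameCycle (0 : Fin 4) (2 : Fin 4) := by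
    intro h
    have := Perm.sameCycle_one.1 h
    exact absurd this (by decide)
  refine ⟨⟨by decide, by decide, by decide, by decide, ?_, ?_⟩, ?_⟩
  · rw [hprod]
    have := cyc_merge h02
    rw [cyc_one, Nat.card_eq_fintype_card, Fintype.card_fin] at this
    omega
  · intro S hS h1 h2
    have key : ∀ d : Fin 4, d ∈ S → (0 : Fin 4) ∈ S ∧ (1 : Fin 4) ∈ S ∧ (2 : Fin 4) ∈ S ∧ (3 : Fin 4) ∈ S := by
      intro d hd
      have a1 : (0 : Fin 4) ∈ S → (2 : Fin 4) ∈ S := fun h => h1 _ h
      have a2 : (2 : Fin 4) ∈ S → (0 : Fin 4) ∈ S := fun h => h1 _ h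
      have a3 : (1 : Fin 4) ∈ S → (3 : Fin 4) ∈ S := fun h => h1 _ h
      have a4 : (3 : Fin 4) ∈ S → (1 : Fin 4) ∈ S := fun h => h1 _ h
      have b1 : (0 : Fin 4) ∈ S → (1 : Fin 4) ∈ S := fun h => h2 _ h
      have b2 : (1 : Fin 4) ∈ S → (0 : Fin 4) ∈ S := fun h => h2 _ h
      have b3 : (2 : Fin 4) ∈ S → (3 : Fin 4) ∈ S := fun h => h2 _ h
      have b4 : (3 : Fin 4) ∈ S → (2 : Fin 4) ∈ S := fun h => h2 _ h
      have h0 : (0 : Fin 4) ∈ S := by
        fin_cases d
        · exact hd
        · exact b2 hd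
        · exact a2 hd
        · exact a2 (b4 hd)
      exact ⟨h0, b1 h0, a1 h0, a3 (b1 h0)⟩
    obtain ⟨d, hd⟩ := hS
    have hk := key d hd
    ext z
    simp only [Set.mem_univ, iff_true]
    have : ∀ z : Fin 4, z ∈ S := by
      intro z
      fin_cases z
      · exact hk.1
      · exact hk.2.1
      · exact hk.2.2.1
      · exact hk.2.2.2
    exact this z
  · rw [hprod]
    intro h
    rcases of_mul_swap h with h' | ⟨h', -⟩
    · have := Perm.sameCycle_one.1 h'
      exact absurd this (by decide)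
    · rcases h' with h' | h'
      · have := Perm.sameCycle_one.1 h'
        exact absurd this (by decide)
      · have := Perm.sameCycle_one.1 h'
        exact absurd this (by decide)

theorem rc_pos : ∀ V : ℕ, 0 < rc (V + 1)
  | 0 => by
    unfold rc
    have : Nonempty (Quotient (rootedSetoid (0 + 1))) :=
      ⟨Quotient.mk _ ⟨((eightRot, eightEdge), (1 : Fin 4)), eight⟩⟩
    exact Nat.card_pos
  | V + 1 => by
    have h := rc_mul_le (V + 1) 1
    have h1 := rc_pos V
    have h2 := rc_pos 0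
    have h3 : 0 < rc (V + 1) * rc 1 := Nat.mul_pos h1 h2
    have h4 : 0 < 4 * (V + 1 + 1) * rc (V + 1 + 1) := lt_of_lt_of_le h3 h
    exact Nat.pos_of_mul_pos_left h4

end Pool.Agent.Lib_helper40.SN
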