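import Pool.Agent.Lib_helper40.SN.Vec

/-! Core c3a -/

namespace Pool.Agent.Lib_helper40.SN

open Equiv

set_option linter.unusedSectionVars false
set_option maxRecDepth 100000

/-! ### Core c3a: 3 vertices, at most 48 automorphisms -/

/-- rotation -/
def c3aF : CD (Fin 5) → CD (Fin 5)
  | (none, true) => (some 3, true)
  | (none, false) => (some 2, true)
  | (some 0, true) => (some 2, false)
  | (some 0, false) => (some 3, false)
  | (some 1, true) => (some 4, true)
  | (some 1, false) => (none, false)
  | (some 2, true) => (some 4, false)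
  | (some 2, false) => (none, true)
  | (some 3, true) => (some 0, true)
  | (some 3, false) => (some 1, true)
  | (some 4, true) => (some 0, false)
  | (some 4, false) => (some 1, false)

/-- inverse rotation -/
def c3aG : CD (Fin 5) → CD (Fin 5)
  | (none, true) => (some 2, false)
  | (none, false) => (some 1, false)
  | (some 0, true) => (some 3, true)
  | (some 0, false) => (some 4, true)
  | (some 1, true) => (some 3, false)
  | (some 1, false) => (some 4, false)
  | (some 2, true) => (none, false)
  | (some 2, false) => (some 0, true)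
  | (some 3, true) => (none, true)
  | (some 3, false) => (some 0, false)
  | (some 4, true) => (some 1, true)
  | (some 4, false) => (some 2, true)

/-- vertex of a dart -/
def c3aV : CD (Fin 5) → Fin 3
  | (none, true) => 0
  | (none, false) => 2
  | (some 0, true) => 0
  | (some 0, false) => 1
  | (some 1, true) => 1
  | (some 1, false) => 2
  | (some 2, true) => 2
  | (some 2, false) => 0
  | (some 3, true) => 0
  | (some 3, false) => 1
  | (some 4, true) => 1
  | (some 4, false) => 2

/-- label separating parallel edges -/
def c3aB : CD (Fin 5) → Bool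
  | (none, true) => false
  | (none, false) => false
  | (some 0, true) => false
  | (some 0, false) => false
  | (some 1, true) => false
  | (some 1, false) => false
  | (some 2, true) => true
  | (some 2, false) => true
  | (some 3, true) => true
  | (some 3, false) => true
  | (some 4, true) => true
  | (some 4, false) => true

def c3aP : Perm (CD (Fin 5)) := ⟨c3aF, c3aG, by decide, by decide⟩

def c3aL : List (CD (Fin 5) × CD (Fin 5)) :=
  [((none, true), (some 2, true)),
    ((none, false), (some 3, true)),
    ((none, false), (some 1, true)),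
    ((some 0, true), (some 3, false)),
    ((some 0, false), (some 2, false)),
    ((some 0, false), (some 4, false)),
    ((some 1, false), (some 4, true))]

def c3aC : List (CD (Fin 5)) :=
  [(none, true),
    (some 0, true),
    (some 0, false),
    (some 1, true),
    (some 1, false),
    (some 2, true),
    (some 2, false),
    (some 3, true),
    (some 3, false),
    (some 4, true),
    (some 4, false),
    (none, false)]

/-- number of edges between two vertices -/
def c3aM (i j : Fin 3) : ℕ :=
  (([[0, 2, 2], [2, 0, 2], [2, 2, 0]] : List (List ℕ)).getD i []).getD j 0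

def c3aK (i : Fin 3) : ℕ := ([832, 832, 832] : List ℕ).getD i 0

def c3aY (i : Fin 3) : CD (Fin 5) := ([(none, true), (some 0, true), (some 1, true)] : List (CD (Fin 5))).getD i (none, true)

theorem c3a_cut : ∀ a0 a1 a2 : Bool, (a0 || a1 || a2) = true → (a0 && a1 && a2) = false →
    2 < (Finset.univ.filter (fun y : CD (Fin 5) => vec3 a0 a1 a2 (c3aV y) = true ∧
      vec3 a0 a1 a2 (c3aV (flipP (Fin 5) y)) = false)).card := by decide

def c3aCore : Core (Fin 5) :=
  mkCore (V := 3) c3aP c3aV (by decide) (by decide) (by decide) (by decide) (by decide)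
    c3aL (by decide) (by decide) c3aC (by decide) (by decide) (by
      intro w h1 h2
      obtain ⟨h3, h4⟩ := bool3 w h1 h2
      have := c3a_cut _ _ _ h3 h4
      rwa [← vec3_eq w] at this)

theorem c3a_hv (y z : CD (Fin 5)) : c3aCore.ρ.SameCycle y z ↔ c3aV y = c3aV z :=
  sameCycle_iff_v (H := c3aCore) (v := c3aV) (by decide) (by decide) y z

theorem c3a_u2 : ∀ x : Fin 3, c3aM x 0 = c3aM 2 0 → c3aM x 1 = c3aM 2 1 → x ≠ 0 → x ≠ 1 → c3aK x = c3aK 2 → x = 2 := by decide

theorem c3a_det (π : Fin 3 → Fin 3) (hi : Function.Injective π)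
    (hm : ∀ i j, c3aM (π i) (π j) = c3aM i j) (f0 : π 0 = 0) (f1 : π 1 = 1) : ∀ i, π i = i := by
  have hk : ∀ i, c3aK (π i) = c3aK i := by
    intro i
    have h1 : ∀ i, c3aK i = kap2 c3aM i := by decide
    rw [h1, h1, kap2_inv hi hm]
  have f2 : π 2 = 2 := c3a_u2 _ (by rw [← hm 2 0, f0]) (by rw [← hm 2 1, f1]) (fun e => absurd (hi (e.trans f0.symm)) (by decide)) (fun e => absurd (hi (e.trans f1.symm)) (by decide)) (hk 2)
  intro i
  fin_cases i
  · exact f0
  · exact f1
  · exact f2

theorem c3a_bound (x : ENNReal) :
    (12 : ENNReal) * (x ^ 3 * GA x ^ 5) ≤ 48 * GS x (allSet c3aCore) := by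
  obtain ⟨c, hc⟩ := aut_bound (H := c3aCore) (v := c3aV) (k := 3) c3a_hv (by decide) c3aM (by decide)
    c3aK (by decide) (0, 0, 1) (fun π hi hm g0 g1 g2 => c3a_det π hi hm g0 g2)
    c3aB (by decide) c3aY (by decide)
  have h := core_all_ineq c3aCore c hc x
  have h1 : Fintype.card ({p : Fin 3 × Fin 3 × Fin 3 // Cand c3aM c3aK (0, 0, 1) p = true} ×
      (Fin 3 → Bool)) = 48 := by
    rw [Fintype.card_prod, Fintype.card_fun, Fintype.card_bool, Fintype.card_fin,
      Fintype.card_subtype]
    have : (Finset.univ.filter (fun p : Fin 3 × Fin 3 × Fin 3 =>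
      Cand c3aM c3aK (0, 0, 1) p = true)).card = 6 := by decide
    norm_num [this]
  have h2 : Fintype.card (CD (Fin 5)) = 12 := by
    rw [Fintype.card_prod, Fintype.card_option, Fintype.card_fin, Fintype.card_bool]
  rw [h1, h2] at h
  exact_mod_cast h

theorem c3a_dbl : dbl c3aCore = 12 := dbl_eq c3a_hv (by decide)

end Pool.Agent.Lib_helper40.SN
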