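import Pool.Agent.Lib_helper40.SN.Vec

/-! Core c4a -/

namespace Pool.Agent.Lib_helper40.SN

open Equiv

set_option linter.unusedSectionVars false
set_option maxRecDepth 100000

/-! ### Core c4a: 4 vertices, at most 32 automorphisms -/

/-- rotation -/
def c4aF : CD (Fin 7) → CD (Fin 7)
  | (none, true) => (some 3, true)
  | (none, false) => (some 4, true)
  | (some 0, true) => (some 2, false)
  | (some 0, false) => (some 6, true)
  | (some 1, true) => (some 5, false)
  | (some 1, false) => (some 4, false)
  | (some 2, true) => (some 5, true)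
  | (some 2, false) => (none, true)
  | (some 3, true) => (some 0, true)
  | (some 3, false) => (none, false)
  | (some 4, true) => (some 6, false)
  | (some 4, false) => (some 2, true)
  | (some 5, true) => (some 1, false)
  | (some 5, false) => (some 0, false)
  | (some 6, true) => (some 1, true)
  | (some 6, false) => (some 3, false)

/-- inverse rotation -/
def c4aG : CD (Fin 7) → CD (Fin 7)
  | (none, true) => (some 2, false)
  | (none, false) => (some 3, false)
  | (some 0, true) => (some 3, true)
  | (some 0, false) => (some 5, false)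
  | (some 1, true) => (some 6, true)
  | (some 1, false) => (some 5, true)
  | (some 2, true) => (some 4, false)
  | (some 2, false) => (some 0, true)
  | (some 3, true) => (none, true)
  | (some 3, false) => (some 6, false)
  | (some 4, true) => (none, false)
  | (some 4, false) => (some 1, false)
  | (some 5, true) => (some 2, true)
  | (some 5, false) => (some 1, true)
  | (some 6, true) => (some 0, false)
  | (some 6, false) => (some 4, true)

/-- vertex of a dart -/
def c4aV : CD (Fin 7) → Fin 4
  | (none, true) => 0
  | (none, false) => 3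
  | (some 0, true) => 0
  | (some 0, false) => 1
  | (some 1, true) => 1
  | (some 1, false) => 2
  | (some 2, true) => 2
  | (some 2, false) => 0
  | (some 3, true) => 0
  | (some 3, false) => 3
  | (some 4, true) => 3
  | (some 4, false) => 2
  | (some 5, true) => 2
  | (some 5, false) => 1
  | (some 6, true) => 1
  | (some 6, false) => 3

/-- label separating parallel edges -/
def c4aB : CD (Fin 7) → Bool
  | (none, true) => false
  | (none, false) => false
  | (some 0, true) => false
  | (some 0, false) => false
  | (some 1, true) => false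
  | (some 1, false) => false
  | (some 2, true) => false
  | (some 2, false) => false
  | (some 3, true) => true
  | (some 3, false) => true
  | (some 4, true) => false
  | (some 4, false) => false
  | (some 5, true) => true
  | (some 5, false) => true
  | (some 6, true) => false
  | (some 6, false) => false

def c4aP : Perm (CD (Fin 7)) := ⟨c4aF, c4aG, by decide, by decide⟩

def c4aL : List (CD (Fin 7) × CD (Fin 7)) :=
  [((none, true), (some 4, true)),
    ((none, true), (some 2, true)),
    ((none, false), (some 3, true)),
    ((some 0, true), (some 6, true)),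
    ((some 0, true), (some 3, false)),
    ((some 0, false), (some 2, false)),
    ((some 0, false), (some 5, true)),
    ((some 1, true), (some 4, false)),
    ((some 1, true), (some 6, false)),
    ((some 1, false), (some 5, false))]

def c4aC : List (CD (Fin 7)) :=
  [(none, true),
    (some 0, true),
    (some 0, false),
    (some 1, true),
    (some 1, false),
    (some 2, true),
    (some 2, false),
    (some 3, true),
    (some 3, false),
    (some 4, true),
    (some 4, false),
    (some 5, true),
    (some 5, false),
    (some 6, true),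
    (some 6, false),
    (none, false)]

/-- number of edges between two vertices -/
def c4aM (i j : Fin 4) : ℕ :=
  (([[0, 1, 1, 2], [1, 0, 2, 1], [1, 2, 0, 1], [2, 1, 1, 0]] : List (List ℕ)).getD i []).getD j 0

def c4aK (i : Fin 4) : ℕ := ([624, 624, 624, 624] : List ℕ).getD i 0

def c4aY (i : Fin 2) : CD (Fin 7) := ([(none, true), (some 1, true)] : List (CD (Fin 7))).getD i (none, true)

theorem c4a_cut : ∀ a0 a1 a2 a3 : Bool, (a0 || a1 || a2 || a3) = true → (a0 && a1 && a2 && a3) = false →
    2 < (Finset.univ.filter (fun y : CD (Fin 7) => vec4 a0 a1 a2 a3 (c4aV y) = true ∧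
      vec4 a0 a1 a2 a3 (c4aV (flipP (Fin 7) y)) = false)).card := by decide

def c4aCore : Core (Fin 7) :=
  mkCore (V := 4) c4aP c4aV (by decide) (by decide) (by decide) (by decide) (by decide)
    c4aL (by decide) (by decide) c4aC (by decide) (by decide) (by
      intro w h1 h2
      obtain ⟨h3, h4⟩ := bool4 w h1 h2
      have := c4a_cut _ _ _ _ h3 h4
      rwa [← vec4_eq w] at this)

theorem c4a_hv (y z : CD (Fin 7)) : c4aCore.ρ.SameCycle y z ↔ c4aV y = c4aV z :=
  sameCycle_iff_v (H := c4aCore) (v := c4aV) (by decide) (by decide) y z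

theorem c4a_u2 : ∀ x : Fin 4, c4aM x 0 = c4aM 2 0 → c4aM x 1 = c4aM 2 1 → x ≠ 0 → x ≠ 1 → c4aK x = c4aK 2 → x = 2 := by decide

theorem c4a_u3 : ∀ x : Fin 4, c4aM x 0 = c4aM 3 0 → c4aM x 1 = c4aM 3 1 → c4aM x 2 = c4aM 3 2 → x ≠ 0 → x ≠ 1 → x ≠ 2 → c4aK x = c4aK 3 → x = 3 := by decide

theorem c4a_det (π : Fin 4 → Fin 4) (hi : Function.Injective π)
    (hm : ∀ i j, c4aM (π i) (π j) = c4aM i j) (f0 : π 0 = 0) (f1 : π 1 = 1) : ∀ i, π i = i := by
  have hk : ∀ i, c4aK (π i) = c4aK i := by
    intro i
    have h1 : ∀ i, c4aK i = kap2 c4aM i := by decide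
    rw [h1, h1, kap2_inv hi hm]
  have f2 : π 2 = 2 := c4a_u2 _ (by rw [← hm 2 0, f0]) (by rw [← hm 2 1, f1]) (fun e => absurd (hi (e.trans f0.symm)) (by decide)) (fun e => absurd (hi (e.trans f1.symm)) (by decide)) (hk 2)
  have f3 : π 3 = 3 := c4a_u3 _ (by rw [← hm 3 0, f0]) (by rw [← hm 3 1, f1]) (by rw [← hm 3 2, f2]) (fun e => absurd (hi (e.trans f0.symm)) (by decide)) (fun e => absurd (hi (e.trans f1.symm)) (by decide)) (fun e => absurd (hi (e.trans f2.symm)) (by decide)) (hk 3)
  intro i
  fin_cases i
  · exact f0
  · exact f1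
  · exact f2
  · exact f3

theorem c4a_bound (x : ENNReal) :
    (16 : ENNReal) * (x ^ 4 * GA x ^ 7) ≤ 32 * GS x (allSet c4aCore) := by
  obtain ⟨c, hc⟩ := aut_bound (H := c4aCore) (v := c4aV) (k := 2) c4a_hv (by decide) c4aM (by decide)
    c4aK (by decide) (0, 0, 1) (fun π hi hm g0 g1 g2 => c4a_det π hi hm g0 g2)
    c4aB (by decide) c4aY (by decide)
  have h := core_all_ineq c4aCore c hc x
  have h1 : Fintype.card ({p : Fin 4 × Fin 4 × Fin 4 // Cand c4aM c4aK (0, 0, 1) p = true} ×
      (Fin 2 → Bool)) = 32 := by
    rw [Fintype.card_prod, Fintype.card_fun, Fintype.card_bool, Fintype.card_fin,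
      Fintype.card_subtype]
    have : (Finset.univ.filter (fun p : Fin 4 × Fin 4 × Fin 4 =>
      Cand c4aM c4aK (0, 0, 1) p = true)).card = 8 := by decide
    norm_num [this]
  have h2 : Fintype.card (CD (Fin 7)) = 16 := by
    rw [Fintype.card_prod, Fintype.card_option, Fintype.card_fin, Fintype.card_bool]
  rw [h1, h2] at h
  exact_mod_cast h

theorem c4a_dbl : dbl c4aCore = 8 := dbl_eq c4a_hv (by decide)

end Pool.Agent.Lib_helper40.SN
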