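import Pool.Agent.Lib_helper40.SN.Vec

/-! Core c5a -/

namespace Pool.Agent.Lib_helper40.SN

open Equiv

set_option linter.unusedSectionVars false
set_option maxRecDepth 100000

/-! ### Core c5a: 5 vertices, at most 320 automorphisms -/

/-- rotation -/
def c5aF : CD (Fin 9) → CD (Fin 9)
  | (none, true) => (some 5, true)
  | (none, false) => (some 4, true)
  | (some 0, true) => (some 4, false)
  | (some 0, false) => (some 5, false)
  | (some 1, true) => (some 6, true)
  | (some 1, false) => (some 7, true)
  | (some 2, true) => (some 6, false)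
  | (some 2, false) => (some 7, false)
  | (some 3, true) => (some 8, true)
  | (some 3, false) => (none, false)
  | (some 4, true) => (some 8, false)
  | (some 4, false) => (none, true)
  | (some 5, true) => (some 0, true)
  | (some 5, false) => (some 1, true)
  | (some 6, true) => (some 0, false)
  | (some 6, false) => (some 1, false)
  | (some 7, true) => (some 2, true)
  | (some 7, false) => (some 3, true)
  | (some 8, true) => (some 2, false)
  | (some 8, false) => (some 3, false)

/-- inverse rotation -/
def c5aG : CD (Fin 9) → CD (Fin 9)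
  | (none, true) => (some 4, false)
  | (none, false) => (some 3, false)
  | (some 0, true) => (some 5, true)
  | (some 0, false) => (some 6, true)
  | (some 1, true) => (some 5, false)
  | (some 1, false) => (some 6, false)
  | (some 2, true) => (some 7, true)
  | (some 2, false) => (some 8, true)
  | (some 3, true) => (some 7, false)
  | (some 3, false) => (some 8, false)
  | (some 4, true) => (none, false)
  | (some 4, false) => (some 0, true)
  | (some 5, true) => (none, true)
  | (some 5, false) => (some 0, false)
  | (some 6, true) => (some 1, true)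
  | (some 6, false) => (some 2, true)
  | (some 7, true) => (some 1, false)
  | (some 7, false) => (some 2, false)
  | (some 8, true) => (some 3, true)
  | (some 8, false) => (some 4, true)

/-- vertex of a dart -/
def c5aV : CD (Fin 9) → Fin 5
  | (none, true) => 0
  | (none, false) => 4
  | (some 0, true) => 0
  | (some 0, false) => 1
  | (some 1, true) => 1
  | (some 1, false) => 2
  | (some 2, true) => 2
  | (some 2, false) => 3
  | (some 3, true) => 3
  | (some 3, false) => 4
  | (some 4, true) => 4
  | (some 4, false) => 0
  | (some 5, true) => 0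
  | (some 5, false) => 1
  | (some 6, true) => 1
  | (some 6, false) => 2
  | (some 7, true) => 2
  | (some 7, false) => 3
  | (some 8, true) => 3
  | (some 8, false) => 4

/-- label separating parallel edges -/
def c5aB : CD (Fin 9) → Bool
  | (none, true) => false
  | (none, false) => false
  | (some 0, true) => false
  | (some 0, false) => false
  | (some 1, true) => false
  | (some 1, false) => false
  | (some 2, true) => false
  | (some 2, false) => false
  | (some 3, true) => false
  | (some 3, false) => false
  | (some 4, true) => true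
  | (some 4, false) => true
  | (some 5, true) => true
  | (some 5, false) => true
  | (some 6, true) => true
  | (some 6, false) => true
  | (some 7, true) => true
  | (some 7, false) => true
  | (some 8, true) => true
  | (some 8, false) => true

def c5aP : Perm (CD (Fin 9)) := ⟨c5aF, c5aG, by decide, by decide⟩

def c5aL : List (CD (Fin 9) × CD (Fin 9)) :=
  [((none, true), (some 4, true)),
    ((none, false), (some 5, true)),
    ((none, false), (some 1, true)),
    ((none, false), (some 7, true)),
    ((none, false), (some 3, true)),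
    ((some 0, true), (some 5, false)),
    ((some 0, false), (some 4, false)),
    ((some 0, false), (some 8, false)),
    ((some 0, false), (some 2, false)),
    ((some 0, false), (some 6, false)),
    ((some 1, false), (some 6, true)),
    ((some 2, true), (some 7, false)),
    ((some 3, false), (some 8, true))]

def c5aC : List (CD (Fin 9)) :=
  [(none, true),
    (some 0, true),
    (some 0, false),
    (some 1, true),
    (some 1, false),
    (some 2, true),
    (some 2, false),
    (some 3, true),
    (some 3, false),
    (some 4, true),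
    (some 4, false),
    (some 5, true),
    (some 5, false),
    (some 6, true),
    (some 6, false),
    (some 7, true),
    (some 7, false),
    (some 8, true),
    (some 8, false),
    (none, false)]

/-- number of edges between two vertices -/
def c5aM (i j : Fin 5) : ℕ :=
  (([[0, 2, 0, 0, 2], [2, 0, 2, 0, 0], [0, 2, 0, 2, 0], [0, 0, 2, 0, 2], [2, 0, 0, 2, 0]] : List (List ℕ)).getD i []).getD j 0

def c5aK (i : Fin 5) : ℕ := ([832, 832, 832, 832, 832] : List ℕ).getD i 0

def c5aY (i : Fin 5) : CD (Fin 9) := ([(none, true), (some 0, true), (some 1, true), (some 2, true), (some 3, true)] : List (CD (Fin 9))).getD i (none, true)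

theorem c5a_cut : ∀ a0 a1 a2 a3 a4 : Bool, (a0 || a1 || a2 || a3 || a4) = true → (a0 && a1 && a2 && a3 && a4) = false →
    2 < (Finset.univ.filter (fun y : CD (Fin 9) => vec5 a0 a1 a2 a3 a4 (c5aV y) = true ∧
      vec5 a0 a1 a2 a3 a4 (c5aV (flipP (Fin 9) y)) = false)).card := by decide

def c5aCore : Core (Fin 9) :=
  mkCore (V := 5) c5aP c5aV (by decide) (by decide) (by decide) (by decide) (by decide)
    c5aL (by decide) (by decide) c5aC (by decide) (by decide) (by
      intro w h1 h2
      obtain ⟨h3, h4⟩ := bool5 w h1 h2
      have := c5a_cut _ _ _ _ _ h3 h4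
      rwa [← vec5_eq w] at this)

theorem c5a_hv (y z : CD (Fin 9)) : c5aCore.ρ.SameCycle y z ↔ c5aV y = c5aV z :=
  sameCycle_iff_v (H := c5aCore) (v := c5aV) (by decide) (by decide) y z

theorem c5a_u2 : ∀ x : Fin 5, c5aM x 0 = c5aM 2 0 → c5aM x 1 = c5aM 2 1 → c5aM x 3 = c5aM 2 3 → x ≠ 0 → x ≠ 1 → x ≠ 3 → c5aK x = c5aK 2 → x = 2 := by decide

theorem c5a_u4 : ∀ x : Fin 5, c5aM x 0 = c5aM 4 0 → c5aM x 1 = c5aM 4 1 → c5aM x 3 = c5aM 4 3 → c5aM x 2 = c5aM 4 2 → x ≠ 0 → x ≠ 1 → x ≠ 3 → x ≠ 2 → c5aK x = c5aK 4 → x = 4 := by decide

theorem c5a_det (π : Fin 5 → Fin 5) (hi : Function.Injective π)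
    (hm : ∀ i j, c5aM (π i) (π j) = c5aM i j) (f0 : π 0 = 0) (f1 : π 1 = 1) (f3 : π 3 = 3) : ∀ i, π i = i := by
  have hk : ∀ i, c5aK (π i) = c5aK i := by
    intro i
    have h1 : ∀ i, c5aK i = kap2 c5aM i := by decide
    rw [h1, h1, kap2_inv hi hm]
  have f2 : π 2 = 2 := c5a_u2 _ (by rw [← hm 2 0, f0]) (by rw [← hm 2 1, f1]) (by rw [← hm 2 3, f3]) (fun e => absurd (hi (e.trans f0.symm)) (by decide)) (fun e => absurd (hi (e.trans f1.symm)) (by decide)) (fun e => absurd (hi (e.trans f3.symm)) (by decide)) (hk 2)
  have f4 : π 4 = 4 := c5a_u4 _ (by rw [← hm 4 0, f0]) (by rw [← hm 4 1, f1]) (by rw [← hm 4 3, f3]) (by rw [← hm 4 2, f2]) (fun e => absurd (hi (e.trans f0.symm)) (by decide)) (fun e => absurd (hi (e.trans f1.symm)) (by decide)) (fun e => absurd (hi (e.trans f3.symm)) (by decide)) (fun e => absurd (hi (e.trans f2.symm)) (by decide)) (hk 4)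
  intro i
  fin_cases i
  · exact f0
  · exact f1
  · exact f2
  · exact f3
  · exact f4

theorem c5a_bound (x : ENNReal) :
    (20 : ENNReal) * (x ^ 5 * GA x ^ 9) ≤ 320 * GS x (allSet c5aCore) := by
  obtain ⟨c, hc⟩ := aut_bound (H := c5aCore) (v := c5aV) (k := 5) c5a_hv (by decide) c5aM (by decide)
    c5aK (by decide) (0, 1, 3) (fun π hi hm g0 g1 g2 => c5a_det π hi hm g0 g1 g2)
    c5aB (by decide) c5aY (by decide)
  have h := core_all_ineq c5aCore c hc x
  have h1 : Fintype.card ({p : Fin 5 × Fin 5 × Fin 5 // Cand c5aM c5aK (0, 1, 3) p = true} ×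
      (Fin 5 → Bool)) = 320 := by
    rw [Fintype.card_prod, Fintype.card_fun, Fintype.card_bool, Fintype.card_fin,
      Fintype.card_subtype]
    have : (Finset.univ.filter (fun p : Fin 5 × Fin 5 × Fin 5 =>
      Cand c5aM c5aK (0, 1, 3) p = true)).card = 10 := by decide
    norm_num [this]
  have h2 : Fintype.card (CD (Fin 9)) = 20 := by
    rw [Fintype.card_prod, Fintype.card_option, Fintype.card_fin, Fintype.card_bool]
  rw [h1, h2] at h
  exact_mod_cast h

theorem c5a_dbl : dbl c5aCore = 20 := dbl_eq c5a_hv (by decide)

end Pool.Agent.Lib_helper40.SN
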