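import Pool.Agent.Lib_helper40.SN.Vec

/-! Core c5b -/

namespace Pool.Agent.Lib_helper40.SN

open Equiv

set_option linter.unusedSectionVars false
set_option maxRecDepth 100000

/-! ### Core c5b: 5 vertices, at most 32 automorphisms -/

/-- rotation -/
def c5bF : CD (Fin 9) → CD (Fin 9)
  | (none, true) => (some 2, false)
  | (none, false) => (some 3, false)
  | (some 0, true) => (some 3, true)
  | (some 0, false) => (some 6, true)
  | (some 1, true) => (some 5, false)
  | (some 1, false) => (some 6, false)
  | (some 2, true) => (some 7, true)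
  | (some 2, false) => (some 0, true)
  | (some 3, true) => (none, true)
  | (some 3, false) => (some 8, false)
  | (some 4, true) => (none, false)
  | (some 4, false) => (some 8, true)
  | (some 5, true) => (some 7, false)
  | (some 5, false) => (some 0, false)
  | (some 6, true) => (some 1, true)
  | (some 6, false) => (some 2, true)
  | (some 7, true) => (some 1, false)
  | (some 7, false) => (some 4, false)
  | (some 8, true) => (some 5, true)
  | (some 8, false) => (some 4, true)

/-- inverse rotation -/
def c5bG : CD (Fin 9) → CD (Fin 9)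
  | (none, true) => (some 3, true)
  | (none, false) => (some 4, true)
  | (some 0, true) => (some 2, false)
  | (some 0, false) => (some 5, false)
  | (some 1, true) => (some 6, true)
  | (some 1, false) => (some 7, true)
  | (some 2, true) => (some 6, false)
  | (some 2, false) => (none, true)
  | (some 3, true) => (some 0, true)
  | (some 3, false) => (none, false)
  | (some 4, true) => (some 8, false)
  | (some 4, false) => (some 7, false)
  | (some 5, true) => (some 8, true)
  | (some 5, false) => (some 1, true)
  | (some 6, true) => (some 0, false)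
  | (some 6, false) => (some 1, false)
  | (some 7, true) => (some 2, true)
  | (some 7, false) => (some 5, true)
  | (some 8, true) => (some 4, false)
  | (some 8, false) => (some 3, false)

/-- vertex of a dart -/
def c5bV : CD (Fin 9) → Fin 5
  | (none, true) => 0
  | (none, false) => 3
  | (some 0, true) => 0
  | (some 0, false) => 1
  | (some 1, true) => 1
  | (some 1, false) => 2
  | (some 2, true) => 2
  | (some 2, false) => 0
  | (some 3, true) => 0
  | (some 3, false) => 3
  | (some 4, true) => 3
  | (some 4, false) => 4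
  | (some 5, true) => 4
  | (some 5, false) => 1
  | (some 6, true) => 1
  | (some 6, false) => 2
  | (some 7, true) => 2
  | (some 7, false) => 4
  | (some 8, true) => 4
  | (some 8, false) => 3

/-- label separating parallel edges -/
def c5bB : CD (Fin 9) → Bool
  | (none, true) => false
  | (none, false) => false
  | (some 0, true) => false
  | (some 0, false) => false
  | (some 1, true) => false
  | (some 1, false) => false
  | (some 2, true) => false
  | (some 2, false) => false
  | (some 3, true) => true
  | (some 3, false) => true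
  | (some 4, true) => false
  | (some 4, false) => false
  | (some 5, true) => false
  | (some 5, false) => false
  | (some 6, true) => true
  | (some 6, false) => true
  | (some 7, true) => false
  | (some 7, false) => false
  | (some 8, true) => true
  | (some 8, false) => true

def c5bP : Perm (CD (Fin 9)) := ⟨c5bF, c5bG, by decide, by decide⟩

def c5bL : List (CD (Fin 9) × CD (Fin 9)) :=
  [((none, true), (some 3, false)),
    ((none, false), (some 2, false)),
    ((none, false), (some 7, true)),
    ((none, false), (some 4, false)),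
    ((some 0, true), (some 6, true)),
    ((some 0, true), (some 2, true)),
    ((some 0, false), (some 3, true)),
    ((some 0, false), (some 8, false)),
    ((some 0, false), (some 5, true)),
    ((some 1, true), (some 6, false)),
    ((some 1, false), (some 5, false)),
    ((some 1, false), (some 7, false)),
    ((some 4, true), (some 8, true))]

def c5bC : List (CD (Fin 9)) :=
  [(none, true),
    (some 0, true),
    (some 0, false),
    (some 1, true),
    (some 1, false),
    (some 2, true),
    (some 2, false),
    (some 3, true),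
    (some 3, false),
    (some 4, true),
    (some 4, false),
    (some 5, true),
    (some 5, false),
    (some 6, true),
    (some 6, false),
    (some 7, true),
    (some 7, false),
    (some 8, true),
    (some 8, false),
    (none, false)]

/-- number of edges between two vertices -/
def c5bM (i j : Fin 5) : ℕ :=
  (([[0, 1, 1, 2, 0], [1, 0, 2, 0, 1], [1, 2, 0, 0, 1], [2, 0, 0, 0, 2], [0, 1, 1, 2, 0]] : List (List ℕ)).getD i []).getD j 0

def c5bK (i : Fin 5) : ℕ := ([628, 624, 624, 824, 628] : List ℕ).getD i 0

def c5bY (i : Fin 3) : CD (Fin 9) := ([(none, true), (some 1, true), (some 4, true)] : List (CD (Fin 9))).getD i (none, true)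

theorem c5b_cut : ∀ a0 a1 a2 a3 a4 : Bool, (a0 || a1 || a2 || a3 || a4) = true → (a0 && a1 && a2 && a3 && a4) = false →
    2 < (Finset.univ.filter (fun y : CD (Fin 9) => vec5 a0 a1 a2 a3 a4 (c5bV y) = true ∧
      vec5 a0 a1 a2 a3 a4 (c5bV (flipP (Fin 9) y)) = false)).card := by decide

def c5bCore : Core (Fin 9) :=
  mkCore (V := 5) c5bP c5bV (by decide) (by decide) (by decide) (by decide) (by decide)
    c5bL (by decide) (by decide) c5bC (by decide) (by decide) (by
      intro w h1 h2
      obtain ⟨h3, h4⟩ := bool5 w h1 h2
      have := c5b_cut _ _ _ _ _ h3 h4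
      rwa [← vec5_eq w] at this)

theorem c5b_hv (y z : CD (Fin 9)) : c5bCore.ρ.SameCycle y z ↔ c5bV y = c5bV z :=
  sameCycle_iff_v (H := c5bCore) (v := c5bV) (by decide) (by decide) y z

theorem c5b_u2 : ∀ x : Fin 5, c5bM x 0 = c5bM 2 0 → c5bM x 1 = c5bM 2 1 → x ≠ 0 → x ≠ 1 → c5bK x = c5bK 2 → x = 2 := by decide

theorem c5b_u3 : ∀ x : Fin 5, c5bM x 0 = c5bM 3 0 → c5bM x 1 = c5bM 3 1 → c5bM x 2 = c5bM 3 2 → x ≠ 0 → x ≠ 1 → x ≠ 2 → c5bK x = c5bK 3 → x = 3 := by decide

theorem c5b_u4 : ∀ x : Fin 5, c5bM x 0 = c5bM 4 0 → c5bM x 1 = c5bM 4 1 → c5bM x 2 = c5bM 4 2 → c5bM x 3 = c5bM 4 3 → x ≠ 0 → x ≠ 1 → x ≠ 2 → x ≠ 3 → c5bK x = c5bK 4 → x = 4 := by decide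

theorem c5b_det (π : Fin 5 → Fin 5) (hi : Function.Injective π)
    (hm : ∀ i j, c5bM (π i) (π j) = c5bM i j) (f0 : π 0 = 0) (f1 : π 1 = 1) : ∀ i, π i = i := by
  have hk : ∀ i, c5bK (π i) = c5bK i := by
    intro i
    have h1 : ∀ i, c5bK i = kap2 c5bM i := by decide
    rw [h1, h1, kap2_inv hi hm]
  have f2 : π 2 = 2 := c5b_u2 _ (by rw [← hm 2 0, f0]) (by rw [← hm 2 1, f1]) (fun e => absurd (hi (e.trans f0.symm)) (by decide)) (fun e => absurd (hi (e.trans f1.symm)) (by decide)) (hk 2)
  have f3 : π 3 = 3 := c5b_u3 _ (by rw [← hm 3 0, f0]) (by rw [← hm 3 1, f1]) (by rw [← hm 3 2, f2]) (fun e => absurd (hi (e.trans f0.symm)) (by decide)) (fun e => absurd (hi (e.trans f1.symm)) (by decide)) (fun e => absurd (hi (e.trans f2.symm)) (by decide)) (hk 3)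
  have f4 : π 4 = 4 := c5b_u4 _ (by rw [← hm 4 0, f0]) (by rw [← hm 4 1, f1]) (by rw [← hm 4 2, f2]) (by rw [← hm 4 3, f3]) (fun e => absurd (hi (e.trans f0.symm)) (by decide)) (fun e => absurd (hi (e.trans f1.symm)) (by decide)) (fun e => absurd (hi (e.trans f2.symm)) (by decide)) (fun e => absurd (hi (e.trans f3.symm)) (by decide)) (hk 4)
  intro i
  fin_cases i
  · exact f0
  · exact f1
  · exact f2
  · exact f3
  · exact f4

theorem c5b_bound (x : ENNReal) :
    (20 : ENNReal) * (x ^ 5 * GA x ^ 9) ≤ 32 * GS x (allSet c5bCore) := by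
  obtain ⟨c, hc⟩ := aut_bound (H := c5bCore) (v := c5bV) (k := 3) c5b_hv (by decide) c5bM (by decide)
    c5bK (by decide) (0, 1, 1) (fun π hi hm g0 g1 g2 => c5b_det π hi hm g0 g1)
    c5bB (by decide) c5bY (by decide)
  have h := core_all_ineq c5bCore c hc x
  have h1 : Fintype.card ({p : Fin 5 × Fin 5 × Fin 5 // Cand c5bM c5bK (0, 1, 1) p = true} ×
      (Fin 3 → Bool)) = 32 := by
    rw [Fintype.card_prod, Fintype.card_fun, Fintype.card_bool, Fintype.card_fin,
      Fintype.card_subtype]
    have : (Finset.univ.filter (fun p : Fin 5 × Fin 5 × Fin 5 =>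
      Cand c5bM c5bK (0, 1, 1) p = true)).card = 4 := by decide
    norm_num [this]
  have h2 : Fintype.card (CD (Fin 9)) = 20 := by
    rw [Fintype.card_prod, Fintype.card_option, Fintype.card_fin, Fintype.card_bool]
  rw [h1, h2] at h
  exact_mod_cast h

theorem c5b_dbl : dbl c5bCore = 12 := dbl_eq c5b_hv (by decide)

end Pool.Agent.Lib_helper40.SN
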