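import Pool.Agent.Lib_helper40.SN.Vec

/-! Core c6a -/

namespace Pool.Agent.Lib_helper40.SN

open Equiv

set_option linter.unusedSectionVars false
set_option maxRecDepth 100000

/-! ### Core c6a: 6 vertices, at most 64 automorphisms -/

/-- rotation -/
def c6aF : CD (Fin 11) → CD (Fin 11)
  | (none, true) => (some 3, true)
  | (none, false) => (some 4, true)
  | (some 0, true) => (some 2, false)
  | (some 0, false) => (some 8, true)
  | (some 1, true) => (some 7, false)
  | (some 1, false) => (some 6, false)
  | (some 2, true) => (some 7, true)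
  | (some 2, false) => (none, true)
  | (some 3, true) => (some 0, true)
  | (some 3, false) => (none, false)
  | (some 4, true) => (some 10, false)
  | (some 4, false) => (some 9, false)
  | (some 5, true) => (some 10, true)
  | (some 5, false) => (some 9, true)
  | (some 6, true) => (some 8, false)
  | (some 6, false) => (some 2, true)
  | (some 7, true) => (some 1, false)
  | (some 7, false) => (some 0, false)
  | (some 8, true) => (some 1, true)
  | (some 8, false) => (some 5, false)
  | (some 9, true) => (some 6, true)
  | (some 9, false) => (some 5, true)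
  | (some 10, true) => (some 4, false)
  | (some 10, false) => (some 3, false)

/-- inverse rotation -/
def c6aG : CD (Fin 11) → CD (Fin 11)
  | (none, true) => (some 2, false)
  | (none, false) => (some 3, false)
  | (some 0, true) => (some 3, true)
  | (some 0, false) => (some 7, false)
  | (some 1, true) => (some 8, true)
  | (some 1, false) => (some 7, true)
  | (some 2, true) => (some 6, false)
  | (some 2, false) => (some 0, true)
  | (some 3, true) => (none, true)
  | (some 3, false) => (some 10, false)
  | (some 4, true) => (none, false)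
  | (some 4, false) => (some 10, true)
  | (some 5, true) => (some 9, false)
  | (some 5, false) => (some 8, false)
  | (some 6, true) => (some 9, true)
  | (some 6, false) => (some 1, false)
  | (some 7, true) => (some 2, true)
  | (some 7, false) => (some 1, true)
  | (some 8, true) => (some 0, false)
  | (some 8, false) => (some 6, true)
  | (some 9, true) => (some 5, false)
  | (some 9, false) => (some 4, false)
  | (some 10, true) => (some 5, true)
  | (some 10, false) => (some 4, true)

/-- vertex of a dart -/
def c6aV : CD (Fin 11) → Fin 6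
  | (none, true) => 0
  | (none, false) => 3
  | (some 0, true) => 0
  | (some 0, false) => 1
  | (some 1, true) => 1
  | (some 1, false) => 2
  | (some 2, true) => 2
  | (some 2, false) => 0
  | (some 3, true) => 0
  | (some 3, false) => 3
  | (some 4, true) => 3
  | (some 4, false) => 4
  | (some 5, true) => 4
  | (some 5, false) => 5
  | (some 6, true) => 5
  | (some 6, false) => 2
  | (some 7, true) => 2
  | (some 7, false) => 1
  | (some 8, true) => 1
  | (some 8, false) => 5
  | (some 9, true) => 5
  | (some 9, false) => 4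
  | (some 10, true) => 4
  | (some 10, false) => 3

/-- label separating parallel edges -/
def c6aB : CD (Fin 11) → Bool
  | (none, true) => false
  | (none, false) => false
  | (some 0, true) => false
  | (some 0, false) => false
  | (some 1, true) => false
  | (some 1, false) => false
  | (some 2, true) => false
  | (some 2, false) => false
  | (some 3, true) => true
  | (some 3, false) => true
  | (some 4, true) => false
  | (some 4, false) => false
  | (some 5, true) => false
  | (some 5, false) => false
  | (some 6, true) => false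
  | (some 6, false) => false
  | (some 7, true) => true
  | (some 7, false) => true
  | (some 8, true) => false
  | (some 8, false) => false
  | (some 9, true) => true
  | (some 9, false) => true
  | (some 10, true) => true
  | (some 10, false) => true

def c6aP : Perm (CD (Fin 11)) := ⟨c6aF, c6aG, by decide, by decide⟩

def c6aL : List (CD (Fin 11) × CD (Fin 11)) :=
  [((none, true), (some 4, true)),
    ((none, true), (some 9, false)),
    ((none, true), (some 6, true)),
    ((none, true), (some 2, true)),
    ((none, false), (some 3, true)),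
    ((some 0, true), (some 8, true)),
    ((some 0, true), (some 5, false)),
    ((some 0, true), (some 10, true)),
    ((some 0, true), (some 3, false)),
    ((some 0, false), (some 2, false)),
    ((some 0, false), (some 7, true)),
    ((some 1, true), (some 6, false)),
    ((some 1, true), (some 8, false)),
    ((some 1, false), (some 7, false)),
    ((some 4, false), (some 10, false)),
    ((some 5, true), (some 9, true))]

def c6aC : List (CD (Fin 11)) :=
  [(none, true),
    (some 0, true),
    (some 0, false),
    (some 1, true),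
    (some 1, false),
    (some 2, true),
    (some 2, false),
    (some 3, true),
    (some 3, false),
    (some 4, true),
    (some 4, false),
    (some 5, true),
    (some 5, false),
    (some 6, true),
    (some 6, false),
    (some 7, true),
    (some 7, false),
    (some 8, true),
    (some 8, false),
    (some 9, true),
    (some 9, false),
    (some 10, true),
    (some 10, false),
    (none, false)]

/-- number of edges between two vertices -/
def c6aM (i j : Fin 6) : ℕ :=
  (([[0, 1, 1, 2, 0, 0], [1, 0, 2, 0, 0, 1], [1, 2, 0, 0, 0, 1], [2, 0, 0, 0, 2, 0], [0, 0, 0, 2, 0, 2], [0, 1, 1, 0, 2, 0]] : List (List ℕ)).getD i []).getD j 0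

def c6aK (i : Fin 6) : ℕ := ([628, 624, 624, 828, 828, 628] : List ℕ).getD i 0

def c6aY (i : Fin 4) : CD (Fin 11) := ([(none, true), (some 1, true), (some 4, true), (some 5, true)] : List (CD (Fin 11))).getD i (none, true)

theorem c6a_cut : ∀ a0 a1 a2 a3 a4 a5 : Bool, (a0 || a1 || a2 || a3 || a4 || a5) = true → (a0 && a1 && a2 && a3 && a4 && a5) = false →
    2 < (Finset.univ.filter (fun y : CD (Fin 11) => vec6 a0 a1 a2 a3 a4 a5 (c6aV y) = true ∧
      vec6 a0 a1 a2 a3 a4 a5 (c6aV (flipP (Fin 11) y)) = false)).card := by decide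

def c6aCore : Core (Fin 11) :=
  mkCore (V := 6) c6aP c6aV (by decide) (by decide) (by decide) (by decide) (by decide)
    c6aL (by decide) (by decide) c6aC (by decide) (by decide) (by
      intro w h1 h2
      obtain ⟨h3, h4⟩ := bool6 w h1 h2
      have := c6a_cut _ _ _ _ _ _ h3 h4
      rwa [← vec6_eq w] at this)

theorem c6a_hv (y z : CD (Fin 11)) : c6aCore.ρ.SameCycle y z ↔ c6aV y = c6aV z :=
  sameCycle_iff_v (H := c6aCore) (v := c6aV) (by decide) (by decide) y z

theorem c6a_u2 : ∀ x : Fin 6, c6aM x 0 = c6aM 2 0 → c6aM x 1 = c6aM 2 1 → x ≠ 0 → x ≠ 1 → c6aK x = c6aK 2 → x = 2 := by decide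

theorem c6a_u3 : ∀ x : Fin 6, c6aM x 0 = c6aM 3 0 → c6aM x 1 = c6aM 3 1 → c6aM x 2 = c6aM 3 2 → x ≠ 0 → x ≠ 1 → x ≠ 2 → c6aK x = c6aK 3 → x = 3 := by decide

theorem c6a_u4 : ∀ x : Fin 6, c6aM x 0 = c6aM 4 0 → c6aM x 1 = c6aM 4 1 → c6aM x 2 = c6aM 4 2 → c6aM x 3 = c6aM 4 3 → x ≠ 0 → x ≠ 1 → x ≠ 2 → x ≠ 3 → c6aK x = c6aK 4 → x = 4 := by decide

theorem c6a_u5 : ∀ x : Fin 6, c6aM x 0 = c6aM 5 0 → c6aM x 1 = c6aM 5 1 → c6aM x 2 = c6aM 5 2 → c6aM x 3 = c6aM 5 3 → c6aM x 4 = c6aM 5 4 → x ≠ 0 → x ≠ 1 → x ≠ 2 → x ≠ 3 → x ≠ 4 → c6aK x = c6aK 5 → x = 5 := by decide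

theorem c6a_det (π : Fin 6 → Fin 6) (hi : Function.Injective π)
    (hm : ∀ i j, c6aM (π i) (π j) = c6aM i j) (f0 : π 0 = 0) (f1 : π 1 = 1) : ∀ i, π i = i := by
  have hk : ∀ i, c6aK (π i) = c6aK i := by
    intro i
    have h1 : ∀ i, c6aK i = kap2 c6aM i := by decide
    rw [h1, h1, kap2_inv hi hm]
  have f2 : π 2 = 2 := c6a_u2 _ (by rw [← hm 2 0, f0]) (by rw [← hm 2 1, f1]) (fun e => absurd (hi (e.trans f0.symm)) (by decide)) (fun e => absurd (hi (e.trans f1.symm)) (by decide)) (hk 2)
  have f3 : π 3 = 3 := c6a_u3 _ (by rw [← hm 3 0, f0]) (by rw [← hm 3 1, f1]) (by rw [← hm 3 2, f2]) (fun e => absurd (hi (e.trans f0.symm)) (by decide)) (fun e => absurd (hi (e.trans f1.symm)) (by decide)) (fun e => absurd (hi (e.trans f2.symm)) (by decide)) (hk 3)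
  have f4 : π 4 = 4 := c6a_u4 _ (by rw [← hm 4 0, f0]) (by rw [← hm 4 1, f1]) (by rw [← hm 4 2, f2]) (by rw [← hm 4 3, f3]) (fun e => absurd (hi (e.trans f0.symm)) (by decide)) (fun e => absurd (hi (e.trans f1.symm)) (by decide)) (fun e => absurd (hi (e.trans f2.symm)) (by decide)) (fun e => absurd (hi (e.trans f3.symm)) (by decide)) (hk 4)
  have f5 : π 5 = 5 := c6a_u5 _ (by rw [← hm 5 0, f0]) (by rw [← hm 5 1, f1]) (by rw [← hm 5 2, f2]) (by rw [← hm 5 3, f3]) (by rw [← hm 5 4, f4]) (fun e => absurd (hi (e.trans f0.symm)) (by decide)) (fun e => absurd (hi (e.trans f1.symm)) (by decide)) (fun e => absurd (hi (e.trans f2.symm)) (by decide)) (fun e => absurd (hi (e.trans f3.symm)) (by decide)) (fun e => absurd (hi (e.trans f4.symm)) (by decide)) (hk 5)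
  intro i
  fin_cases i
  · exact f0
  · exact f1
  · exact f2
  · exact f3
  · exact f4
  · exact f5

theorem c6a_bound (x : ENNReal) :
    (24 : ENNReal) * (x ^ 6 * GA x ^ 11) ≤ 64 * GS x (allSet c6aCore) := by
  obtain ⟨c, hc⟩ := aut_bound (H := c6aCore) (v := c6aV) (k := 4) c6a_hv (by decide) c6aM (by decide)
    c6aK (by decide) (0, 1, 1) (fun π hi hm g0 g1 g2 => c6a_det π hi hm g0 g1)
    c6aB (by decide) c6aY (by decide)
  have h := core_all_ineq c6aCore c hc x
  have h1 : Fintype.card ({p : Fin 6 × Fin 6 × Fin 6 // Cand c6aM c6aK (0, 1, 1) p = true} ×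
      (Fin 4 → Bool)) = 64 := by
    rw [Fintype.card_prod, Fintype.card_fun, Fintype.card_bool, Fintype.card_fin,
      Fintype.card_subtype]
    have : (Finset.univ.filter (fun p : Fin 6 × Fin 6 × Fin 6 =>
      Cand c6aM c6aK (0, 1, 1) p = true)).card = 4 := by decide
    norm_num [this]
  have h2 : Fintype.card (CD (Fin 11)) = 24 := by
    rw [Fintype.card_prod, Fintype.card_option, Fintype.card_fin, Fintype.card_bool]
  rw [h1, h2] at h
  exact_mod_cast h

theorem c6a_dbl : dbl c6aCore = 16 := dbl_eq c6a_hv (by decide)

end Pool.Agent.Lib_helper40.SN
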