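import Pool.Agent.Lib_helper40.SN.Vec

/-! Core c6b -/

namespace Pool.Agent.Lib_helper40.SN

open Equiv

set_option linter.unusedSectionVars false
set_option maxRecDepth 100000

/-! ### Core c6b: 6 vertices, at most 16 automorphisms -/

/-- rotation -/
def c6bF : CD (Fin 11) → CD (Fin 11)
  | (none, true) => (some 3, true)
  | (none, false) => (some 6, true)
  | (some 0, true) => (some 2, false)
  | (some 0, false) => (some 8, true)
  | (some 1, true) => (some 7, false)
  | (some 1, false) => (some 6, false)
  | (some 2, true) => (some 7, true)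
  | (some 2, false) => (none, true)
  | (some 3, true) => (some 0, true)
  | (some 3, false) => (some 9, true)
  | (some 4, true) => (some 8, false)
  | (some 4, false) => (some 9, false)
  | (some 5, true) => (some 10, true)
  | (some 5, false) => (none, false)
  | (some 6, true) => (some 10, false)
  | (some 6, false) => (some 2, true)
  | (some 7, true) => (some 1, false)
  | (some 7, false) => (some 0, false)
  | (some 8, true) => (some 1, true)
  | (some 8, false) => (some 3, false)
  | (some 9, true) => (some 4, true)
  | (some 9, false) => (some 5, true)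
  | (some 10, true) => (some 4, false)
  | (some 10, false) => (some 5, false)

/-- inverse rotation -/
def c6bG : CD (Fin 11) → CD (Fin 11)
  | (none, true) => (some 2, false)
  | (none, false) => (some 5, false)
  | (some 0, true) => (some 3, true)
  | (some 0, false) => (some 7, false)
  | (some 1, true) => (some 8, true)
  | (some 1, false) => (some 7, true)
  | (some 2, true) => (some 6, false)
  | (some 2, false) => (some 0, true)
  | (some 3, true) => (none, true)
  | (some 3, false) => (some 8, false)
  | (some 4, true) => (some 9, true)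
  | (some 4, false) => (some 10, true)
  | (some 5, true) => (some 9, false)
  | (some 5, false) => (some 10, false)
  | (some 6, true) => (none, false)
  | (some 6, false) => (some 1, false)
  | (some 7, true) => (some 2, true)
  | (some 7, false) => (some 1, true)
  | (some 8, true) => (some 0, false)
  | (some 8, false) => (some 4, true)
  | (some 9, true) => (some 3, false)
  | (some 9, false) => (some 4, false)
  | (some 10, true) => (some 5, true)
  | (some 10, false) => (some 6, true)

/-- vertex of a dart -/
def c6bV : CD (Fin 11) → Fin 6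
  | (none, true) => 0
  | (none, false) => 5
  | (some 0, true) => 0
  | (some 0, false) => 1
  | (some 1, true) => 1
  | (some 1, false) => 2
  | (some 2, true) => 2
  | (some 2, false) => 0
  | (some 3, true) => 0
  | (some 3, false) => 3
  | (some 4, true) => 3
  | (some 4, false) => 4
  | (some 5, true) => 4
  | (some 5, false) => 5
  | (some 6, true) => 5
  | (some 6, false) => 2
  | (some 7, true) => 2
  | (some 7, false) => 1
  | (some 8, true) => 1
  | (some 8, false) => 3
  | (some 9, true) => 3
  | (some 9, false) => 4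
  | (some 10, true) => 4
  | (some 10, false) => 5

/-- label separating parallel edges -/
def c6bB : CD (Fin 11) → Bool
  | (none, true) => false
  | (none, false) => false
  | (some 0, true) => false
  | (some 0, false) => false
  | (some 1, true) => false
  | (some 1, false) => false
  | (some 2, true) => false
  | (some 2, false) => false
  | (some 3, true) => false
  | (some 3, false) => false
  | (some 4, true) => false
  | (some 4, false) => false
  | (some 5, true) => false
  | (some 5, false) => false
  | (some 6, true) => false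
  | (some 6, false) => false
  | (some 7, true) => true
  | (some 7, false) => true
  | (some 8, true) => false
  | (some 8, false) => false
  | (some 9, true) => true
  | (some 9, false) => true
  | (some 10, true) => true
  | (some 10, false) => true

def c6bP : Perm (CD (Fin 11)) := ⟨c6bF, c6bG, by decide, by decide⟩

def c6bL : List (CD (Fin 11) × CD (Fin 11)) :=
  [((none, true), (some 6, true)),
    ((none, true), (some 2, true)),
    ((none, false), (some 3, true)),
    ((none, false), (some 9, true)),
    ((none, false), (some 5, true)),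
    ((some 0, true), (some 8, true)),
    ((some 0, true), (some 3, false)),
    ((some 0, false), (some 2, false)),
    ((some 0, false), (some 7, true)),
    ((some 1, true), (some 6, false)),
    ((some 1, true), (some 10, false)),
    ((some 1, true), (some 4, false)),
    ((some 1, true), (some 8, false)),
    ((some 1, false), (some 7, false)),
    ((some 4, true), (some 9, false)),
    ((some 5, false), (some 10, true))]

def c6bC : List (CD (Fin 11)) :=
  [(none, true),
    (some 0, true),
    (some 0, false),
    (some 1, true),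
    (some 1, false),
    (some 2, true),
    (some 2, false),
    (some 3, true),
    (some 3, false),
    (some 4, true),
    (some 4, false),
    (some 5, true),
    (some 5, false),
    (some 6, true),
    (some 6, false),
    (some 7, true),
    (some 7, false),
    (some 8, true),
    (some 8, false),
    (some 9, true),
    (some 9, false),
    (some 10, true),
    (some 10, false),
    (none, false)]

/-- number of edges between two vertices -/
def c6bM (i j : Fin 6) : ℕ :=
  (([[0, 1, 1, 1, 0, 1], [1, 0, 2, 1, 0, 0], [1, 2, 0, 0, 0, 1], [1, 1, 0, 0, 2, 0], [0, 0, 0, 2, 0, 2], [1, 0, 1, 0, 2, 0]] : List (List ℕ)).getD i []).getD j 0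

def c6bK (i : Fin 6) : ℕ := ([424, 622, 622, 626, 824, 626] : List ℕ).getD i 0

def c6bY (i : Fin 3) : CD (Fin 11) := ([(some 1, true), (some 4, true), (some 5, true)] : List (CD (Fin 11))).getD i (none, true)

theorem c6b_cut : ∀ a0 a1 a2 a3 a4 a5 : Bool, (a0 || a1 || a2 || a3 || a4 || a5) = true → (a0 && a1 && a2 && a3 && a4 && a5) = false →
    2 < (Finset.univ.filter (fun y : CD (Fin 11) => vec6 a0 a1 a2 a3 a4 a5 (c6bV y) = true ∧
      vec6 a0 a1 a2 a3 a4 a5 (c6bV (flipP (Fin 11) y)) = false)).card := by decide

def c6bCore : Core (Fin 11) :=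
  mkCore (V := 6) c6bP c6bV (by decide) (by decide) (by decide) (by decide) (by decide)
    c6bL (by decide) (by decide) c6bC (by decide) (by decide) (by
      intro w h1 h2
      obtain ⟨h3, h4⟩ := bool6 w h1 h2
      have := c6b_cut _ _ _ _ _ _ h3 h4
      rwa [← vec6_eq w] at this)

theorem c6b_hv (y z : CD (Fin 11)) : c6bCore.ρ.SameCycle y z ↔ c6bV y = c6bV z :=
  sameCycle_iff_v (H := c6bCore) (v := c6bV) (by decide) (by decide) y z

theorem c6b_u2 : ∀ x : Fin 6, c6bM x 0 = c6bM 2 0 → c6bM x 1 = c6bM 2 1 → x ≠ 0 → x ≠ 1 → c6bK x = c6bK 2 → x = 2 := by decide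

theorem c6b_u3 : ∀ x : Fin 6, c6bM x 0 = c6bM 3 0 → c6bM x 1 = c6bM 3 1 → c6bM x 2 = c6bM 3 2 → x ≠ 0 → x ≠ 1 → x ≠ 2 → c6bK x = c6bK 3 → x = 3 := by decide

theorem c6b_u4 : ∀ x : Fin 6, c6bM x 0 = c6bM 4 0 → c6bM x 1 = c6bM 4 1 → c6bM x 2 = c6bM 4 2 → c6bM x 3 = c6bM 4 3 → x ≠ 0 → x ≠ 1 → x ≠ 2 → x ≠ 3 → c6bK x = c6bK 4 → x = 4 := by decide

theorem c6b_u5 : ∀ x : Fin 6, c6bM x 0 = c6bM 5 0 → c6bM x 1 = c6bM 5 1 → c6bM x 2 = c6bM 5 2 → c6bM x 3 = c6bM 5 3 → c6bM x 4 = c6bM 5 4 → x ≠ 0 → x ≠ 1 → x ≠ 2 → x ≠ 3 → x ≠ 4 → c6bK x = c6bK 5 → x = 5 := by decide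

theorem c6b_det (π : Fin 6 → Fin 6) (hi : Function.Injective π)
    (hm : ∀ i j, c6bM (π i) (π j) = c6bM i j) (f0 : π 0 = 0) (f1 : π 1 = 1) : ∀ i, π i = i := by
  have hk : ∀ i, c6bK (π i) = c6bK i := by
    intro i
    have h1 : ∀ i, c6bK i = kap2 c6bM i := by decide
    rw [h1, h1, kap2_inv hi hm]
  have f2 : π 2 = 2 := c6b_u2 _ (by rw [← hm 2 0, f0]) (by rw [← hm 2 1, f1]) (fun e => absurd (hi (e.trans f0.symm)) (by decide)) (fun e => absurd (hi (e.trans f1.symm)) (by decide)) (hk 2)
  have f3 : π 3 = 3 := c6b_u3 _ (by rw [← hm 3 0, f0]) (by rw [← hm 3 1, f1]) (by rw [← hm 3 2, f2]) (fun e => absurd (hi (e.trans f0.symm)) (by decide)) (fun e => absurd (hi (e.trans f1.symm)) (by decide)) (fun e => absurd (hi (e.trans f2.symm)) (by decide)) (hk 3)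
  have f4 : π 4 = 4 := c6b_u4 _ (by rw [← hm 4 0, f0]) (by rw [← hm 4 1, f1]) (by rw [← hm 4 2, f2]) (by rw [← hm 4 3, f3]) (fun e => absurd (hi (e.trans f0.symm)) (by decide)) (fun e => absurd (hi (e.trans f1.symm)) (by decide)) (fun e => absurd (hi (e.trans f2.symm)) (by decide)) (fun e => absurd (hi (e.trans f3.symm)) (by decide)) (hk 4)
  have f5 : π 5 = 5 := c6b_u5 _ (by rw [← hm 5 0, f0]) (by rw [← hm 5 1, f1]) (by rw [← hm 5 2, f2]) (by rw [← hm 5 3, f3]) (by rw [← hm 5 4, f4]) (fun e => absurd (hi (e.trans f0.symm)) (by decide)) (fun e => absurd (hi (e.trans f1.symm)) (by decide)) (fun e => absurd (hi (e.trans f2.symm)) (by decide)) (fun e => absurd (hi (e.trans f3.symm)) (by decide)) (fun e => absurd (hi (e.trans f4.symm)) (by decide)) (hk 5)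
  intro i
  fin_cases i
  · exact f0
  · exact f1
  · exact f2
  · exact f3
  · exact f4
  · exact f5

theorem c6b_bound (x : ENNReal) :
    (24 : ENNReal) * (x ^ 6 * GA x ^ 11) ≤ 16 * GS x (allSet c6bCore) := by
  obtain ⟨c, hc⟩ := aut_bound (H := c6bCore) (v := c6bV) (k := 3) c6b_hv (by decide) c6bM (by decide)
    c6bK (by decide) (0, 0, 1) (fun π hi hm g0 g1 g2 => c6b_det π hi hm g0 g2)
    c6bB (by decide) c6bY (by decide)
  have h := core_all_ineq c6bCore c hc x
  have h1 : Fintype.card ({p : Fin 6 × Fin 6 × Fin 6 // Cand c6bM c6bK (0, 0, 1) p = true} ×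
      (Fin 3 → Bool)) = 16 := by
    rw [Fintype.card_prod, Fintype.card_fun, Fintype.card_bool, Fintype.card_fin,
      Fintype.card_subtype]
    have : (Finset.univ.filter (fun p : Fin 6 × Fin 6 × Fin 6 =>
      Cand c6bM c6bK (0, 0, 1) p = true)).card = 2 := by decide
    norm_num [this]
  have h2 : Fintype.card (CD (Fin 11)) = 24 := by
    rw [Fintype.card_prod, Fintype.card_option, Fintype.card_fin, Fintype.card_bool]
  rw [h1, h2] at h
  exact_mod_cast h

theorem c6b_dbl : dbl c6bCore = 12 := dbl_eq c6b_hv (by decide)

end Pool.Agent.Lib_helper40.SN
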