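import Pool.Agent.Lib_helper40.SN.Vec

/-! Core c6c -/

namespace Pool.Agent.Lib_helper40.SN

open Equiv

set_option linter.unusedSectionVars false
set_option maxRecDepth 100000

/-! ### Core c6c: 6 vertices, at most 8 automorphisms -/

/-- rotation -/
def c6cF : CD (Fin 11) → CD (Fin 11)
  | (none, true) => (some 2, false)
  | (none, false) => (some 8, true)
  | (some 0, true) => (some 3, true)
  | (some 0, false) => (some 6, true)
  | (some 1, true) => (some 5, false)
  | (some 1, false) => (some 6, false)
  | (some 2, true) => (some 7, true)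
  | (some 2, false) => (some 0, true)
  | (some 3, true) => (none, true)
  | (some 3, false) => (some 9, true)
  | (some 4, true) => (some 8, false)
  | (some 4, false) => (some 9, false)
  | (some 5, true) => (some 10, true)
  | (some 5, false) => (some 0, false)
  | (some 6, true) => (some 1, true)
  | (some 6, false) => (some 2, true)
  | (some 7, true) => (some 1, false)
  | (some 7, false) => (none, false)
  | (some 8, true) => (some 10, false)
  | (some 8, false) => (some 3, false)
  | (some 9, true) => (some 4, true)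
  | (some 9, false) => (some 5, true)
  | (some 10, true) => (some 4, false)
  | (some 10, false) => (some 7, false)

/-- inverse rotation -/
def c6cG : CD (Fin 11) → CD (Fin 11)
  | (none, true) => (some 3, true)
  | (none, false) => (some 7, false)
  | (some 0, true) => (some 2, false)
  | (some 0, false) => (some 5, false)
  | (some 1, true) => (some 6, true)
  | (some 1, false) => (some 7, true)
  | (some 2, true) => (some 6, false)
  | (some 2, false) => (none, true)
  | (some 3, true) => (some 0, true)
  | (some 3, false) => (some 8, false)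
  | (some 4, true) => (some 9, true)
  | (some 4, false) => (some 10, true)
  | (some 5, true) => (some 9, false)
  | (some 5, false) => (some 1, true)
  | (some 6, true) => (some 0, false)
  | (some 6, false) => (some 1, false)
  | (some 7, true) => (some 2, true)
  | (some 7, false) => (some 10, false)
  | (some 8, true) => (none, false)
  | (some 8, false) => (some 4, true)
  | (some 9, true) => (some 3, false)
  | (some 9, false) => (some 4, false)
  | (some 10, true) => (some 5, true)
  | (some 10, false) => (some 8, true)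

/-- vertex of a dart -/
def c6cV : CD (Fin 11) → Fin 6
  | (none, true) => 0
  | (none, false) => 5
  | (some 0, true) => 0
  | (some 0, false) => 1
  | (some 1, true) => 1
  | (some 1, false) => 2
  | (some 2, true) => 2
  | (some 2, false) => 0
  | (some 3, true) => 0
  | (some 3, false) => 3
  | (some 4, true) => 3
  | (some 4, false) => 4
  | (some 5, true) => 4
  | (some 5, false) => 1
  | (some 6, true) => 1
  | (some 6, false) => 2
  | (some 7, true) => 2
  | (some 7, false) => 5
  | (some 8, true) => 5
  | (some 8, false) => 3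
  | (some 9, true) => 3
  | (some 9, false) => 4
  | (some 10, true) => 4
  | (some 10, false) => 5

/-- label separating parallel edges -/
def c6cB : CD (Fin 11) → Bool
  | (none, true) => false
  | (none, false) => false
  | (some 0, true) => false
  | (some 0, false) => false
  | (some 1, true) => false
  | (some 1, false) => false
  | (some 2, true) => false
  | (some 2, false) => false
  | (some 3, true) => false
  | (some 3, false) => false
  | (some 4, true) => false
  | (some 4, false) => false
  | (some 5, true) => false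
  | (some 5, false) => false
  | (some 6, true) => true
  | (some 6, false) => true
  | (some 7, true) => false
  | (some 7, false) => false
  | (some 8, true) => false
  | (some 8, false) => false
  | (some 9, true) => true
  | (some 9, false) => true
  | (some 10, true) => false
  | (some 10, false) => false

def c6cP : Perm (CD (Fin 11)) := ⟨c6cF, c6cG, by decide, by decide⟩

def c6cL : List (CD (Fin 11) × CD (Fin 11)) :=
  [((none, true), (some 8, true)),
    ((none, true), (some 3, false)),
    ((none, false), (some 2, false)),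
    ((none, false), (some 7, true)),
    ((some 0, true), (some 6, true)),
    ((some 0, true), (some 2, true)),
    ((some 0, false), (some 3, true)),
    ((some 0, false), (some 9, true)),
    ((some 0, false), (some 5, true)),
    ((some 1, true), (some 6, false)),
    ((some 1, false), (some 5, false)),
    ((some 1, false), (some 10, true)),
    ((some 1, false), (some 7, false)),
    ((some 4, true), (some 9, false)),
    ((some 4, false), (some 8, false)),
    ((some 4, false), (some 10, false))]

def c6cC : List (CD (Fin 11)) :=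
  [(none, true),
    (some 0, true),
    (some 0, false),
    (some 1, true),
    (some 1, false),
    (some 2, true),
    (some 2, false),
    (some 3, true),
    (some 3, false),
    (some 4, true),
    (some 4, false),
    (some 5, true),
    (some 5, false),
    (some 6, true),
    (some 6, false),
    (some 7, true),
    (some 7, false),
    (some 8, true),
    (some 8, false),
    (some 9, true),
    (some 9, false),
    (some 10, true),
    (some 10, false),
    (none, false)]

/-- number of edges between two vertices -/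
def c6cM (i j : Fin 6) : ℕ :=
  (([[0, 1, 1, 1, 0, 1], [1, 0, 2, 0, 1, 0], [1, 2, 0, 0, 0, 1], [1, 0, 0, 0, 2, 1], [0, 1, 0, 2, 0, 1], [1, 0, 1, 1, 1, 0]] : List (List ℕ)).getD i []).getD j 0

def c6cK (i : Fin 6) : ℕ := ([422, 622, 620, 620, 622, 422] : List ℕ).getD i 0

def c6cY (i : Fin 2) : CD (Fin 11) := ([(some 1, true), (some 4, true)] : List (CD (Fin 11))).getD i (none, true)

theorem c6c_cut : ∀ a0 a1 a2 a3 a4 a5 : Bool, (a0 || a1 || a2 || a3 || a4 || a5) = true → (a0 && a1 && a2 && a3 && a4 && a5) = false →
    2 < (Finset.univ.filter (fun y : CD (Fin 11) => vec6 a0 a1 a2 a3 a4 a5 (c6cV y) = true ∧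
      vec6 a0 a1 a2 a3 a4 a5 (c6cV (flipP (Fin 11) y)) = false)).card := by decide

def c6cCore : Core (Fin 11) :=
  mkCore (V := 6) c6cP c6cV (by decide) (by decide) (by decide) (by decide) (by decide)
    c6cL (by decide) (by decide) c6cC (by decide) (by decide) (by
      intro w h1 h2
      obtain ⟨h3, h4⟩ := bool6 w h1 h2
      have := c6c_cut _ _ _ _ _ _ h3 h4
      rwa [← vec6_eq w] at this)

theorem c6c_hv (y z : CD (Fin 11)) : c6cCore.ρ.SameCycle y z ↔ c6cV y = c6cV z :=
  sameCycle_iff_v (H := c6cCore) (v := c6cV) (by decide) (by decide) y z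

theorem c6c_u1 : ∀ x : Fin 6, c6cM x 0 = c6cM 1 0 → x ≠ 0 → c6cK x = c6cK 1 → x = 1 := by decide

theorem c6c_u2 : ∀ x : Fin 6, c6cM x 0 = c6cM 2 0 → c6cM x 1 = c6cM 2 1 → x ≠ 0 → x ≠ 1 → c6cK x = c6cK 2 → x = 2 := by decide

theorem c6c_u3 : ∀ x : Fin 6, c6cM x 0 = c6cM 3 0 → c6cM x 1 = c6cM 3 1 → c6cM x 2 = c6cM 3 2 → x ≠ 0 → x ≠ 1 → x ≠ 2 → c6cK x = c6cK 3 → x = 3 := by decide

theorem c6c_u4 : ∀ x : Fin 6, c6cM x 0 = c6cM 4 0 → c6cM x 1 = c6cM 4 1 → c6cM x 2 = c6cM 4 2 → c6cM x 3 = c6cM 4 3 → x ≠ 0 → x ≠ 1 → x ≠ 2 → x ≠ 3 → c6cK x = c6cK 4 → x = 4 := by decide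

theorem c6c_u5 : ∀ x : Fin 6, c6cM x 0 = c6cM 5 0 → c6cM x 1 = c6cM 5 1 → c6cM x 2 = c6cM 5 2 → c6cM x 3 = c6cM 5 3 → c6cM x 4 = c6cM 5 4 → x ≠ 0 → x ≠ 1 → x ≠ 2 → x ≠ 3 → x ≠ 4 → c6cK x = c6cK 5 → x = 5 := by decide

theorem c6c_det (π : Fin 6 → Fin 6) (hi : Function.Injective π)
    (hm : ∀ i j, c6cM (π i) (π j) = c6cM i j) (f0 : π 0 = 0) : ∀ i, π i = i := by
  have hk : ∀ i, c6cK (π i) = c6cK i := by
    intro i
    have h1 : ∀ i, c6cK i = kap2 c6cM i := by decide
    rw [h1, h1, kap2_inv hi hm]
  have f1 : π 1 = 1 := c6c_u1 _ (by rw [← hm 1 0, f0]) (fun e => absurd (hi (e.trans f0.symm)) (by decide)) (hk 1)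
  have f2 : π 2 = 2 := c6c_u2 _ (by rw [← hm 2 0, f0]) (by rw [← hm 2 1, f1]) (fun e => absurd (hi (e.trans f0.symm)) (by decide)) (fun e => absurd (hi (e.trans f1.symm)) (by decide)) (hk 2)
  have f3 : π 3 = 3 := c6c_u3 _ (by rw [← hm 3 0, f0]) (by rw [← hm 3 1, f1]) (by rw [← hm 3 2, f2]) (fun e => absurd (hi (e.trans f0.symm)) (by decide)) (fun e => absurd (hi (e.trans f1.symm)) (by decide)) (fun e => absurd (hi (e.trans f2.symm)) (by decide)) (hk 3)
  have f4 : π 4 = 4 := c6c_u4 _ (by rw [← hm 4 0, f0]) (by rw [← hm 4 1, f1]) (by rw [← hm 4 2, f2]) (by rw [← hm 4 3, f3]) (fun e => absurd (hi (e.trans f0.symm)) (by decide)) (fun e => absurd (hi (e.trans f1.symm)) (by decide)) (fun e => absurd (hi (e.trans f2.symm)) (by decide)) (fun e => absurd (hi (e.trans f3.symm)) (by decide)) (hk 4)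
  have f5 : π 5 = 5 := c6c_u5 _ (by rw [← hm 5 0, f0]) (by rw [← hm 5 1, f1]) (by rw [← hm 5 2, f2]) (by rw [← hm 5 3, f3]) (by rw [← hm 5 4, f4]) (fun e => absurd (hi (e.trans f0.symm)) (by decide)) (fun e => absurd (hi (e.trans f1.symm)) (by decide)) (fun e => absurd (hi (e.trans f2.symm)) (by decide)) (fun e => absurd (hi (e.trans f3.symm)) (by decide)) (fun e => absurd (hi (e.trans f4.symm)) (by decide)) (hk 5)
  intro i
  fin_cases i
  · exact f0
  · exact f1
  · exact f2
  · exact f3
  · exact f4
  · exact f5

theorem c6c_bound (x : ENNReal) :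
    (24 : ENNReal) * (x ^ 6 * GA x ^ 11) ≤ 8 * GS x (allSet c6cCore) := by
  obtain ⟨c, hc⟩ := aut_bound (H := c6cCore) (v := c6cV) (k := 2) c6c_hv (by decide) c6cM (by decide)
    c6cK (by decide) (0, 0, 0) (fun π hi hm g0 g1 g2 => c6c_det π hi hm g0)
    c6cB (by decide) c6cY (by decide)
  have h := core_all_ineq c6cCore c hc x
  have h1 : Fintype.card ({p : Fin 6 × Fin 6 × Fin 6 // Cand c6cM c6cK (0, 0, 0) p = true} ×
      (Fin 2 → Bool)) = 8 := by
    rw [Fintype.card_prod, Fintype.card_fun, Fintype.card_bool, Fintype.card_fin,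
      Fintype.card_subtype]
    have : (Finset.univ.filter (fun p : Fin 6 × Fin 6 × Fin 6 =>
      Cand c6cM c6cK (0, 0, 0) p = true)).card = 2 := by decide
    norm_num [this]
  have h2 : Fintype.card (CD (Fin 11)) = 24 := by
    rw [Fintype.card_prod, Fintype.card_option, Fintype.card_fin, Fintype.card_bool]
  rw [h1, h2] at h
  exact_mod_cast h

theorem c6c_dbl : dbl c6cCore = 8 := dbl_eq c6c_hv (by decide)

end Pool.Agent.Lib_helper40.SN
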