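import Pool.Agent.Lib_helper40.SN.Net

/-! Filling the edges of a core map with nets. -/

namespace Pool.Agent.Lib_helper40.SN

open Equiv

set_option linter.unusedSectionVars false

/-- darts of a core: the edges are `Option K` (`none` is the root edge), each with two darts -/
abbrev CD (K : Type) : Type := Option K × Bool

/-- the other dart of the edge -/
def flipP (K : Type) : Perm (CD K) :=
  Function.Involutive.toPerm (fun y => (y.1, !y.2)) (by intro y; simp)

theorem flipP_apply {K : Type} (e : Option K) (b : Bool) : flipP K (e, b) = (e, !b) := rfl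

/-- A core: a rooted sona map without nontrivial two-edge cuts. -/
structure Core (K : Type) [Fintype K] [DecidableEq K] where
  V : ℕ
  ρ : Perm (CD K)
  card : Fintype.card (CD K) = 4 * V
  sona : IsSona V ρ (flipP K)
  cut3 : ∀ U : Set (CD K), U.Nonempty → U ≠ Set.univ → (∀ y ∈ U, ρ y ∈ U) →
    ∃ y₁ y₂ y₃, y₁ ∈ U ∧ y₂ ∈ U ∧ y₃ ∈ U ∧ flipP K y₁ ∉ U ∧ flipP K y₂ ∉ U ∧ flipP K y₃ ∉ U ∧
      y₁ ≠ y₂ ∧ y₁ ≠ y₃ ∧ y₂ ≠ y₃

/-- the dart of the net at its side `b` -/
def att (m : Net) (b : Bool) : Option (Fin (4 * m.V)) :=
  m.root.map (fun d => if b then d else m.α d)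

theorem att_none {m : Net} (h : m.root = none) (b : Bool) : att m b = none := by
  unfold att; rw [h]; rfl

theorem att_some {m : Net} {d : Fin (4 * m.V)} (h : m.root = some d) :
    att m true = some d ∧ att m false = some (m.α d) := by
  unfold att; rw [h]; exact ⟨rfl, rfl⟩

theorem root_of_att {m : Net} {b : Bool} {z : Fin (4 * m.V)} (h : att m b = some z) :
    ∃ d, m.root = some d := by
  unfold att at h
  rw [Option.map_eq_some_iff] at h
  obtain ⟨d, hd, -⟩ := h
  exact ⟨d, hd⟩

theorem att_not {m : Net} {b : Bool} {z : Fin (4 * m.V)} (h : att m b = some z) :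
    att m (!b) = some (m.α z) := by
  obtain ⟨d, hd⟩ := root_of_att h
  have hs := Net.sona hd
  obtain ⟨h1, h2⟩ := att_some hd
  cases b with
  | true =>
    rw [h1] at h
    rw [← Option.some.inj h]
    exact h2
  | false =>
    rw [h2] at h
    rw [← Option.some.inj h, hs.inv]
    exact h1

theorem att_inj {m : Net} {b b' : Bool} {z : Fin (4 * m.V)} (h : att m b = some z)
    (h' : att m b' = some z) : b = b' := by
  obtain ⟨d, hd⟩ := root_of_att h
  have hs := Net.sona hd
  by_contra hne
  have : b' = !b := by cases b <;> cases b' <;> simp_all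
  rw [this, att_not h] at h'
  exact hs.nofix z (Option.some.inj h')

section Fill

variable {K : Type} [Fintype K] [DecidableEq K] (M : K → Net)

/-- darts of the filled core -/
abbrev FD : Type := CD K ⊕ (Σ k : K, Fin (4 * (M k).V))

/-- the attached dart if the slot is in use -/
def attS (S : Finset K) (k : K) (b : Bool) : Option (Fin (4 * (M k).V)) :=
  if k ∈ S then att (M k) b else none

/-- edges of the filled core where only the slots in `S` are connected -/
def edgeFun (S : Finset K) : FD M → FD M
  | Sum.inl (none, b) => Sum.inl (none, !b)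
  | Sum.inl (some k, b) =>
    match attS M S k b with
    | none => Sum.inl (some k, !b)
    | some z => Sum.inr ⟨k, z⟩
  | Sum.inr ⟨k, z⟩ =>
    if attS M S k true = some z then Sum.inl (some k, true)
    else if attS M S k false = some z then Sum.inl (some k, false)
    else Sum.inr ⟨k, (M k).α z⟩

variable {M} {S : Finset K}

theorem attS_cases (S : Finset K) (k : K) :
    (∀ b, attS M S k b = none) ∨ (k ∈ S ∧ ∀ b, attS M S k b = att (M k) b) := by
  by_cases h : k ∈ S
  · exact Or.inr ⟨h, fun b => if_pos h⟩
  · exact Or.inl (fun b => if_neg h)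

theorem attS_not {k : K} {b : Bool} {z : Fin (4 * (M k).V)} (h : attS M S k b = some z) :
    attS M S k (!b) = some ((M k).α z) := by
  rcases attS_cases (M := M) S k with h1 | ⟨-, h1⟩
  · rw [h1] at h; cases h
  · rw [h1] at h ⊢; exact att_not h

theorem attS_inj {k : K} {b b' : Bool} {z : Fin (4 * (M k).V)} (h : attS M S k b = some z)
    (h' : attS M S k b' = some z) : b = b' := by
  rcases attS_cases (M := M) S k with h1 | ⟨-, h1⟩
  · rw [h1] at h; cases h
  · rw [h1] at h h'; exact att_inj h h'

theorem attS_mem {k : K} {b : Bool} {z : Fin (4 * (M k).V)} (h : attS M S k b = some z) :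
    k ∈ S ∧ att (M k) b = some z := by
  rcases attS_cases (M := M) S k with h1 | ⟨h0, h1⟩
  · rw [h1] at h; cases h
  · rw [h1] at h; exact ⟨h0, h⟩

theorem ef_root (b : Bool) : edgeFun M S (Sum.inl (none, b)) = Sum.inl (none, !b) := rfl

theorem ef_empty {k : K} {b : Bool} (h : attS M S k b = none) :
    edgeFun M S (Sum.inl (some k, b)) = Sum.inl (some k, !b) := by
  simp only [edgeFun, h]

theorem ef_in {k : K} {b : Bool} {z : Fin (4 * (M k).V)} (h : attS M S k b = some z) :
    edgeFun M S (Sum.inl (some k, b)) = Sum.inr ⟨k, z⟩ := by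
  simp only [edgeFun, h]

theorem ef_out {k : K} {b : Bool} {z : Fin (4 * (M k).V)} (h : attS M S k b = some z) :
    edgeFun M S (Sum.inr ⟨k, z⟩) = Sum.inl (some k, b) := by
  cases b with
  | true => simp only [edgeFun, h, if_true]
  | false =>
    have : attS M S k true ≠ some z := fun h' => by cases attS_inj h h'
    simp only [edgeFun, if_neg this, h, if_true]

theorem ef_inner {k : K} {z : Fin (4 * (M k).V)} (h : ∀ b, attS M S k b ≠ some z) :
    edgeFun M S (Sum.inr ⟨k, z⟩) = Sum.inr ⟨k, (M k).α z⟩ := by
  simp only [edgeFun, if_neg (h true), if_neg (h false)]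

theorem net_inv {m : Net} (z : Fin (4 * m.V)) : m.α (m.α z) = z ∧ m.α z ≠ z := by
  rcases m.ok with ⟨h1, -⟩ | ⟨-, h1⟩
  · exact absurd z.2 (by omega)
  · exact ⟨h1.inv z, h1.nofix z⟩

theorem ef_invol : Function.Involutive (edgeFun M S) := by
  rintro (⟨_ | k, b⟩ | ⟨k, z⟩)
  · rw [ef_root, ef_root]; simp
  · rcases h : attS M S k b with _ | z
    · rw [ef_empty h]
      have : attS M S k (!b) = none := by
        rcases h' : attS M S k (!b) with _ | z
        · rfl
        · have := attS_not h'
          rw [Bool.not_not, h] at this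
          cases this
      rw [ef_empty this]; simp
    · rw [ef_in h, ef_out h]
  · by_cases h : ∃ b, attS M S k b = some z
    · obtain ⟨b, hb⟩ := h
      rw [ef_out hb, ef_in hb]
    · push Not at h
      have h' : ∀ b, attS M S k b ≠ some ((M k).α z) := by
        intro b hb
        have := attS_not hb
        rw [(net_inv z).1] at this
        exact h _ this
      rw [ef_inner h, ef_inner h', (net_inv z).1]

theorem ef_nofix (x : FD M) : edgeFun M S x ≠ x := by
  rcases x with ⟨_ | k, b⟩ | ⟨k, z⟩
  · rw [ef_root]; simp
  · rcases h : attS M S k b with _ | z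
    · rw [ef_empty h]; simp
    · rw [ef_in h]; simp
  · by_cases h : ∃ b, attS M S k b = some z
    · obtain ⟨b, hb⟩ := h
      rw [ef_out hb]; simp
    · push Not at h
      rw [ef_inner h]
      intro e
      have := Sum.inr.inj e
      simp only [Sigma.mk.injEq, heq_eq_eq, true_and] at this
      exact (net_inv z).2 this

variable (M) in
/-- the edge permutation -/
def edgeP (S : Finset K) : Perm (FD M) := ef_invol.toPerm (edgeFun M S)

theorem edgeP_apply (x : FD M) : edgeP M S x = edgeFun M S x := rfl

variable (M) in
/-- the rotation -/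
def rotG (H : Core K) : Perm (FD M) :=
  Perm.sumCongr H.ρ (Perm.sigmaCongrRight (fun k => (M k).σ))

theorem edgeP_empty : edgeP M ∅ = Perm.sumCongr (flipP K) (Perm.sigmaCongrRight (fun k => (M k).α)) := by
  apply Equiv.ext
  rintro (⟨_ | k, b⟩ | ⟨k, z⟩)
  · rfl
  · rw [edgeP_apply, ef_empty (by simp [attS])]; rfl
  · rw [edgeP_apply, ef_inner (by simp [attS])]; rfl

theorem edgeP_insert_none {k : K} (h : (M k).root = none) : edgeP M (insert k S) = edgeP M S := by
  have key : ∀ k' b, attS M (insert k S) k' b = attS M S k' b := by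
    intro k' b
    unfold attS
    by_cases h1 : k' = k
    · subst h1
      rw [att_none h]; simp
    · simp [h1]
  apply Equiv.ext
  rintro (⟨_ | k', b⟩ | ⟨k', z⟩)
  · rfl
  · simp only [edgeP_apply, edgeFun, key]
  · simp only [edgeP_apply, edgeFun, key]

theorem edgeP_insert_some [DecidableEq (FD M)] {k : K} (hk : k ∉ S) {d : Fin (4 * (M k).V)}
    (h : (M k).root = some d) :
    edgeP M (insert k S) = edgeP M S * swap (Sum.inl (some k, true)) (Sum.inr ⟨k, (M k).α d⟩) *
      swap (Sum.inl (some k, false)) (Sum.inr ⟨k, d⟩) := by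
  have hs := Net.sona h
  obtain ⟨ht, hf⟩ := att_some h
  have at1 : attS M (insert k S) k true = some d := by unfold attS; rw [if_pos (by simp)]; exact ht
  have at2 : attS M (insert k S) k false = some ((M k).α d) := by
    unfold attS; rw [if_pos (by simp)]; exact hf
  have at3 : ∀ b, attS M S k b = none := fun b => by unfold attS; rw [if_neg hk]
  have key : ∀ k' b, k' ≠ k → attS M (insert k S) k' b = attS M S k' b := by
    intro k' b h1
    unfold attS
    simp [h1]
  apply Equiv.ext
  intro x
  rw [Perm.mul_apply, Perm.mul_apply]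
  by_cases x1 : x = Sum.inl (some k, false)
  · subst x1
    have e1 : swap (Sum.inl (some k, true)) (Sum.inr ⟨k, (M k).α d⟩) (Sum.inr ⟨k, d⟩ : FD M)
        = Sum.inr ⟨k, d⟩ := by
      refine swap_apply_of_ne_of_ne (by simp) ?_
      intro e
      have := Sum.inr.inj e
      simp only [Sigma.mk.injEq, heq_eq_eq, true_and] at this
      exact hs.nofix d this.symm
    rw [swap_apply_left, e1, edgeP_apply, edgeP_apply, ef_in at2, ef_inner (by simp [at3])]
  · by_cases x2 : x = Sum.inr ⟨k, d⟩
    · subst x2
      have e1 : swap (Sum.inl (some k, true)) (Sum.inr ⟨k, (M k).α d⟩) (Sum.inl (some k, false) : FD M)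
          = Sum.inl (some k, false) := swap_apply_of_ne_of_ne (by simp) (by simp)
      rw [swap_apply_right, e1, edgeP_apply, edgeP_apply, ef_out at1, ef_empty (at3 _)]
      rfl
    · rw [swap_apply_of_ne_of_ne x1 x2]
      by_cases x3 : x = Sum.inl (some k, true)
      · subst x3
        rw [swap_apply_left, edgeP_apply, edgeP_apply, ef_in at1, ef_inner (by simp [at3]), hs.inv]
      · by_cases x4 : x = Sum.inr ⟨k, (M k).α d⟩
        · subst x4
          rw [swap_apply_right, edgeP_apply, edgeP_apply, ef_out at2, ef_empty (at3 _)]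
          rfl
        · rw [swap_apply_of_ne_of_ne x3 x4]
          rcases x with ⟨_ | k', b⟩ | ⟨k', z⟩
          · rfl
          · have hk' : k' ≠ k := by
              rintro rfl
              cases b with
              | true => exact x3 rfl
              | false => exact x1 rfl
            simp only [edgeP_apply, edgeFun, key _ _ hk']
          · by_cases hk' : k' = k
            · subst hk'
              have z1 : z ≠ d := fun e => x2 (by rw [e])
              have z2 : z ≠ (M k').α d := fun e => x4 (by rw [e])
              rw [edgeP_apply, edgeP_apply, ef_inner, ef_inner (by simp [at3])]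
              intro b hb
              cases b with
              | true => rw [at1] at hb; exact z1 (Option.some.inj hb).symm
              | false => rw [at2] at hb; exact z2 (Option.some.inj hb).symm
            · simp only [edgeP_apply, edgeFun, key _ _ hk']

end Fill

end Pool.Agent.Lib_helper40.SN
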