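import Pool.Agent.Lib_helper40.SN.Mk

/-! The core with one vertex (figure eight curve). -/

namespace Pool.Agent.Lib_helper40.SN

open Equiv

set_option linter.unusedSectionVars false

/-- rotation -/
def loF : CD (Fin 1) → CD (Fin 1)
  | (none, true) => (some 0, true)
  | (none, false) => (none, true)
  | (some 0, true) => (some 0, false)
  | (some 0, false) => (none, false)

/-- inverse rotation -/
def loG : CD (Fin 1) → CD (Fin 1)
  | (none, true) => (none, false)
  | (none, false) => (some 0, false)
  | (some 0, true) => (none, true)
  | (some 0, false) => (some 0, true)

/-- the vertex of a dart -/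
def loV : CD (Fin 1) → Fin 1
  | (none, true) => 0
  | (none, false) => 0
  | (some 0, true) => 0
  | (some 0, false) => 0

def loP : Perm (CD (Fin 1)) := ⟨loF, loG, by decide, by decide⟩

def loL : List (CD (Fin 1) × CD (Fin 1)) :=
  [((none, false), (some 0, true))]

def loC : List (CD (Fin 1)) :=
  [(none, true),
    (some 0, false),
    (some 0, true),
    (none, false)]

def loCore : Core (Fin 1) :=
  mkCore (V := 1) loP loV (by decide) (by decide) (by decide) (by decide) (by decide)
    loL (by decide) (by decide) loC (by decide) (by decide) (by
      intro w h1 h2
      exfalso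
      obtain ⟨i, hi⟩ := h1
      obtain ⟨j, hj⟩ := h2
      have : i = j := Subsingleton.elim _ _
      rw [this, hj] at hi
      cases hi)

end Pool.Agent.Lib_helper40.SN
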