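import Pool.Agent.Lib_helper40.SN.Sum

/-! Rooted classes and the counting inequalities. -/

namespace Pool.Agent.Lib_helper40.SN

open Equiv

set_option linter.unusedSectionVars false

section Transport

variable {D D' D'' : Type} [Finite D] [Finite D'] [Finite D'']

theorem permCongr_conj (E : D ≃ D') (f : Perm D) (d : D) : E (f d) = E.permCongr f (E d) := by
  rw [Equiv.permCongr_apply, Equiv.symm_apply_apply]

theorem graphIso_symm {σ₁ α₁ : Perm D} {σ₂ α₂ : Perm D'} {e : D ≃ D'}
    (h : GraphIso σ₁ α₁ σ₂ α₂ e) : GraphIso σ₂ α₂ σ₁ α₁ e.symm := by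
  obtain ⟨h1, h2⟩ := h
  refine ⟨fun d => ?_, fun d d' => ?_⟩
  · rw [Equiv.symm_apply_eq, h1, Equiv.apply_symm_apply]
  · have := h2 (e.symm d) (e.symm d')
    rw [Equiv.apply_symm_apply, Equiv.apply_symm_apply] at this
    exact this.symm

theorem graphIso_trans {σ₁ α₁ : Perm D} {σ₂ α₂ : Perm D'} {σ₃ α₃ : Perm D''} {e : D ≃ D'}
    {f : D' ≃ D''} (h : GraphIso σ₁ α₁ σ₂ α₂ e) (g : GraphIso σ₂ α₂ σ₃ α₃ f) :
    GraphIso σ₁ α₁ σ₃ α₃ (e.trans f) := by
  obtain ⟨h1, h2⟩ := h
  obtain ⟨g1, g2⟩ := g
  refine ⟨fun d => ?_, fun d d' => ?_⟩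
  · simp only [Equiv.trans_apply, h1, g1]
  · simp only [Equiv.trans_apply]
    exact (h2 d d').trans (g2 _ _)

theorem graphIso_permCongr (E : D ≃ D') (σ α : Perm D) :
    GraphIso σ α (E.permCongr σ) (E.permCongr α) E :=
  ⟨fun d => permCongr_conj E α d, fun d d' => sameCycle_conj E σ _ (permCongr_conj E σ) d d'⟩

theorem isSona_permCongr (E : D ≃ D') {V : ℕ} {σ α : Perm D} (h : IsSona V σ α) :
    IsSona V (E.permCongr σ) (E.permCongr α) := by
  refine ⟨fun d => ?_, fun d => ?_, fun d => ?_, fun d => ?_, ?_, fun S hS h1 h2 => ?_⟩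
  · simp [h.rot4]
  · simp only [Equiv.permCongr_apply, Equiv.symm_apply_apply]
    intro e
    exact h.rot2 (E.symm d) (by rw [Equiv.eq_symm_apply]; exact e)
  · simp [h.inv]
  · simp only [Equiv.permCongr_apply]
    intro e
    exact h.nofix (E.symm d) (by rw [Equiv.eq_symm_apply]; exact e)
  · rw [← h.planar]
    refine cyc_conj E (σ * α) _ (fun d => ?_)
    rw [Perm.mul_apply, Perm.mul_apply, ← permCongr_conj, ← permCongr_conj]
  · have := h.conn (E ⁻¹' S) ?_ ?_ ?_
    · ext z
      simp only [Set.mem_univ, iff_true]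
      have hz : E.symm z ∈ E ⁻¹' S := this ▸ Set.mem_univ _
      simpa using hz
    · obtain ⟨x, hx⟩ := hS
      exact ⟨E.symm x, by simpa using hx⟩
    · intro d hd
      have := h1 _ hd
      rw [← permCongr_conj, ← permCongr_conj] at this
      exact this
    · intro d hd
      have := h2 _ hd
      rw [← permCongr_conj] at this
      exact this

theorem isRooted_permCongr (E : D ≃ D') {V : ℕ} {σ α : Perm D} {d : D} (h : IsRooted V σ α d) :
    IsRooted V (E.permCongr σ) (E.permCongr α) (E d) := by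
  refine ⟨isSona_permCongr E h.1, fun hs => h.2 ?_⟩
  rw [← permCongr_conj] at hs
  refine (sameCycle_conj E (σ * α) _ (fun d => ?_) _ _).2 hs
  rw [Perm.mul_apply, Perm.mul_apply, ← permCongr_conj, ← permCongr_conj]

end Transport

/-- rooted sona maps on `Fin (4 V)` -/
def RootedMap (V : ℕ) : Type :=
  {m : (Perm (Fin (4 * V)) × Perm (Fin (4 * V))) × Fin (4 * V) // IsRooted V m.1.1 m.1.2 m.2}

/-- Rooted sona maps with isomorphic underlying rooted graphs. -/
def rootedSetoid (V : ℕ) : Setoid (RootedMap V) where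
  r m m' := ∃ e : Fin (4 * V) ≃ Fin (4 * V),
    GraphIso m.1.1.1 m.1.1.2 m'.1.1.1 m'.1.1.2 e ∧ e m.1.2 = m'.1.2
  iseqv :=
    { refl := fun m => ⟨Equiv.refl _, ⟨fun _ => rfl, fun _ _ => Iff.rfl⟩, rfl⟩
      symm := by
        rintro m m' ⟨e, h, hr⟩
        exact ⟨e.symm, graphIso_symm h, by rw [← hr, Equiv.symm_apply_apply]⟩
      trans := by
        rintro m m' m'' ⟨e, h, hr⟩ ⟨f, g, gr⟩
        exact ⟨e.trans f, graphIso_trans h g, by rw [Equiv.trans_apply, hr, gr]⟩ }

instance (V : ℕ) : Finite (SonaMap V) := by unfold SonaMap; infer_instance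

instance (V : ℕ) : Finite (RootedMap V) := by unfold RootedMap; infer_instance

/-- number of unrooted classes -/
noncomputable def uc (V : ℕ) : ℕ := Nat.card (Quotient (sonaSetoid V))

/-- number of rooted classes -/
noncomputable def rc (V : ℕ) : ℕ := Nat.card (Quotient (rootedSetoid V))

theorem sona_succ (V : ℕ) : sona (V + 2) = uc (V + 1) := rfl

/-- Every sona map has an edge whose two sides are different faces. -/
theorem exists_root {V : ℕ} {D : Type} [Finite D] {σ α : Perm D} (h : IsSona V σ α) :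
    ∃ d, IsRooted V σ α d := by
  by_contra hn
  have hall : ∀ d, (σ * α).SameCycle d (α d) := by
    intro d
    by_contra hd
    exact hn ⟨d, h, hd⟩
  have hall' : ∀ d, (σ * α).SameCycle d (σ d) := by
    intro d
    have h1 := hall (α d)
    rw [h.inv] at h1
    have h2 := sameCycle_apply (σ * α) (α d)
    rw [Perm.mul_apply, h.inv] at h2
    exact h1.symm.trans h2
  have hc := h.planar
  have : cyc (σ * α) ≤ 1 := by
    unfold cyc
    have hs : Subsingleton (Quotient (Perm.SameCycle.setoid (σ * α))) := by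
      constructor
      intro q q'
      induction q using Quotient.inductionOn with
      | h a =>
        induction q' using Quotient.inductionOn with
        | h b =>
          refine Quotient.sound (s := Perm.SameCycle.setoid (σ * α)) ?_
          have := h.conn {z | (σ * α).SameCycle a z} ⟨a, Perm.SameCycle.refl _ _⟩
            (fun z hz => (hz.trans (hall' z)).trans (hall' _)) (fun z hz => hz.trans (hall z))
          have hb : b ∈ {z | (σ * α).SameCycle a z} := this ▸ Set.mem_univ b
          exact hb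
    exact Finite.card_le_one_iff_subsingleton.2 hs
  omega

/-- forget the root -/
def forget {V : ℕ} (m : RootedMap V) : SonaMap V := ⟨m.1.1, m.2.1⟩

theorem uc_le_rc (V : ℕ) : uc V ≤ rc V := by
  unfold uc rc
  have : Finite (Quotient (rootedSetoid V)) := inferInstance
  refine Nat.card_le_card_of_surjective
    (Quotient.map' (s₁ := rootedSetoid V) (s₂ := sonaSetoid V) forget ?_) ?_
  · rintro m m' ⟨e, h, -⟩
    exact ⟨e, h⟩
  · intro q
    induction q using Quotient.inductionOn with
    | h m =>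
      obtain ⟨d, hd⟩ := exists_root m.2
      exact ⟨Quotient.mk _ ⟨(m.1, d), hd⟩, rfl⟩

theorem rc_le_uc (V : ℕ) : rc V ≤ 4 * V * uc V := by
  classical
  unfold uc rc
  have key : ∀ q : Quotient (rootedSetoid V), ∃ e : Fin (4 * V) ≃ Fin (4 * V),
      GraphIso q.out.1.1.1 q.out.1.1.2 (Quotient.mk (sonaSetoid V) (forget q.out)).out.1.1
        (Quotient.mk (sonaSetoid V) (forget q.out)).out.1.2 e := by
    intro q
    have := Quotient.mk_out (s := sonaSetoid V) (forget q.out)
    obtain ⟨e, he⟩ := this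
    exact ⟨e.symm, graphIso_symm he⟩
  choose e he using key
  have hinj : Function.Injective (fun q : Quotient (rootedSetoid V) =>
      ((e q q.out.1.2, Quotient.mk (sonaSetoid V) (forget q.out)) :
        Fin (4 * V) × Quotient (sonaSetoid V))) := by
    intro q q' hqq
    simp only [Prod.mk.injEq] at hqq
    obtain ⟨h1, h2⟩ := hqq
    have he' := he q'
    have he0 := he q
    rw [h2] at he0
    have : (rootedSetoid V).r q.out q'.out := by
      refine ⟨(e q).trans (e q').symm, graphIso_trans he0 (graphIso_symm he'), ?_⟩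
      rw [Equiv.trans_apply, h1, Equiv.symm_apply_apply]
    rw [← Quotient.out_eq q, ← Quotient.out_eq q']
    exact Quotient.sound this
  have := Nat.card_le_card_of_injective _ hinj
  rw [Nat.card_prod, Nat.card_eq_fintype_card (α := Fin (4 * V)), Fintype.card_fin] at this
  exact this

/-- the connected sum on `Fin (4 (a + b))` -/
def relabel (a b : ℕ) : Fin (4 * a) ⊕ Fin (4 * b) ≃ Fin (4 * (a + b)) :=
  finSumFinEquiv.trans (finCongr (by ring))

/-- connected sum of rooted maps -/
def sumMap {a b : ℕ} (m : RootedMap a) (m' : RootedMap b) : RootedMap (a + b) :=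
  ⟨(((relabel a b).permCongr (sumRot m.1.1.1 m'.1.1.1),
      (relabel a b).permCongr (sumEdge m.1.1.2 m'.1.1.2 m.1.2 m'.1.2)),
      relabel a b (Sum.inl m.1.2)),
    isRooted_permCongr _ (isRooted_sum m.2 m'.2)⟩

theorem rc_mul_le (a b : ℕ) : rc a * rc b ≤ 4 * (a + b) * rc (a + b) := by
  classical
  unfold rc
  have key : ∀ p : Quotient (rootedSetoid a) × Quotient (rootedSetoid b),
      ∃ e : Fin (4 * a) ⊕ Fin (4 * b) ≃ Fin (4 * (a + b)),
      GraphIso (sumRot p.1.out.1.1.1 p.2.out.1.1.1)
        (sumEdge p.1.out.1.1.2 p.2.out.1.1.2 p.1.out.1.2 p.2.out.1.2)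
        (Quotient.mk (rootedSetoid (a + b)) (sumMap p.1.out p.2.out)).out.1.1.1
        (Quotient.mk (rootedSetoid (a + b)) (sumMap p.1.out p.2.out)).out.1.1.2 e ∧
      e (Sum.inl p.1.out.1.2) =
        (Quotient.mk (rootedSetoid (a + b)) (sumMap p.1.out p.2.out)).out.1.2 := by
    intro p
    have := Quotient.mk_out (s := rootedSetoid (a + b)) (sumMap p.1.out p.2.out)
    obtain ⟨e, he, hr⟩ := this
    refine ⟨(relabel a b).trans e.symm, graphIso_trans (graphIso_permCongr (relabel a b) _ _)
      (graphIso_symm he), ?_⟩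
    rw [Equiv.trans_apply, Equiv.symm_apply_eq, hr]
    rfl
  choose e he hr using key
  have hinj : Function.Injective
      (fun p : Quotient (rootedSetoid a) × Quotient (rootedSetoid b) =>
      ((e p (Sum.inl (p.1.out.1.1.2 p.1.out.1.2)),
        Quotient.mk (rootedSetoid (a + b)) (sumMap p.1.out p.2.out)) :
        Fin (4 * (a + b)) × Quotient (rootedSetoid (a + b)))) := by
    intro p p' hpp
    simp only [Prod.mk.injEq] at hpp
    obtain ⟨h1, h2⟩ := hpp
    have he0 := he p
    have hr0 := hr p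
    rw [h2] at he0 hr0
    have hg := graphIso_trans he0 (graphIso_symm (he p'))
    obtain ⟨⟨e₁, g₁, k₁⟩, ⟨e₂, g₂, k₂⟩⟩ := iso_parts p.1.out.2.1 p.2.out.2.1 p'.1.out.2.1
      p'.2.out.2.1 _ hg (by rw [Equiv.trans_apply, hr0, Equiv.symm_apply_eq, hr p'])
      (by rw [Equiv.trans_apply, h1, Equiv.symm_apply_apply])
    refine Prod.ext ?_ ?_
    · rw [← Quotient.out_eq p.1, ← Quotient.out_eq p'.1]
      exact Quotient.sound ⟨e₁, g₁, k₁⟩
    · rw [← Quotient.out_eq p.2, ← Quotient.out_eq p'.2]
      exact Quotient.sound ⟨e₂, g₂, k₂⟩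
  have := Nat.card_le_card_of_injective _ hinj
  rw [Nat.card_prod, Nat.card_prod, Nat.card_eq_fintype_card (α := Fin (4 * (a + b))),
    Fintype.card_fin] at this
  exact this

end Pool.Agent.Lib_helper40.SN
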