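import Pool.Agent.Lib_helper40.SN.Defs

/-! Number of cycles of a permutation multiplied by a transposition. -/

namespace Pool.Agent.Lib_helper40.SN

open Equiv

set_option linter.unusedSectionVars false

variable {D : Type} [Finite D]

/-- A set closed under `g` contains the cycle of each of its members. -/
theorem mem_of_sameCycle {g : Perm D} {S : Set D} (hS : ∀ z ∈ S, g z ∈ S) {a b : D}
    (h : g.SameCycle a b) (ha : a ∈ S) : b ∈ S := by
  obtain ⟨i, -, hi⟩ := h.exists_pow_eq'
  rw [← hi]
  have : ∀ n : ℕ, (g ^ n) a ∈ S := by
    intro n
    induction n with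
    | zero => simpa using ha
    | succ n ih => rw [pow_succ']; exact hS _ ih
  exact this i

theorem sameCycle_apply (g : Perm D) (a : D) : g.SameCycle a (g a) := ⟨1, by simp⟩

/-- If every `f`-step stays in a `g`-cycle then `f`-cycles are contained in `g`-cycles. -/
theorem sameCycle_mono {f g : Perm D} (h : ∀ a, g.SameCycle a (f a)) {a b : D}
    (hab : f.SameCycle a b) : g.SameCycle a b :=
  mem_of_sameCycle (g := f) (S := {z | g.SameCycle a z}) (fun z hz => hz.trans (h z)) hab
    (Perm.SameCycle.refl g a)

theorem mul_swap_left [DecidableEq D] (f : Perm D) (x y : D) : (f * swap x y) x = f y := by simp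

theorem mul_swap_right [DecidableEq D] (f : Perm D) (x y : D) : (f * swap x y) y = f x := by simp

theorem mul_swap_of_ne [DecidableEq D] (f : Perm D) {x y z : D} (hx : z ≠ x) (hy : z ≠ y) :
    (f * swap x y) z = f z := by
  simp [swap_apply_of_ne_of_ne hx hy]

/-- merging: `x` and `y` get into the same cycle -/
theorem merge_same [DecidableEq D] {f : Perm D} {x y : D} (h : ¬ f.SameCycle x y) :
    (f * swap x y).SameCycle x y := by
  set g := f * swap x y with hg
  by_contra hxy
  have hS : ∀ j : ℕ, g.SameCycle x ((f ^ (j + 1)) y) := by
    intro j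
    induction j with
    | zero =>
      simp only [zero_add, pow_one]
      rw [← mul_swap_left f x y]
      exact sameCycle_apply g x
    | succ j ih =>
      rw [pow_succ']
      have h1 : (f ^ (j + 1)) y ≠ x := by
        intro e
        exact h (Perm.SameCycle.symm ⟨(j + 1 : ℕ), by exact_mod_cast e⟩)
      have h2 : (f ^ (j + 1)) y ≠ y := by
        intro e
        rw [e] at ih
        exact hxy ih
      have h3 : (f * f ^ (j + 1)) y = g ((f ^ (j + 1)) y) := by
        rw [hg, mul_swap_of_ne f h1 h2]
        rfl
      rw [h3]
      exact ih.trans (sameCycle_apply g _)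
  have hn : (f ^ (orderOf f - 1 + 1)) y = y := by
    have : 0 < orderOf f := orderOf_pos f
    rw [Nat.sub_add_cancel this, pow_orderOf_eq_one]
    rfl
  have := hS (orderOf f - 1)
  rw [hn] at this
  exact hxy this

/-- merging: old cycles are contained in new ones -/
theorem merge_mono [DecidableEq D] {f : Perm D} {x y : D} (h : (f * swap x y).SameCycle x y)
    {a b : D} (hab : f.SameCycle a b) : (f * swap x y).SameCycle a b := by
  refine sameCycle_mono (fun a => ?_) hab
  by_cases hx : a = x
  · subst hx
    have := sameCycle_apply (f * swap a y) y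
    rw [mul_swap_right] at this
    exact h.trans this
  · by_cases hy : a = y
    · subst hy
      have := sameCycle_apply (f * swap x a) x
      rw [mul_swap_left] at this
      exact h.symm.trans this
    · have := sameCycle_apply (f * swap x y) a
      rwa [mul_swap_of_ne f hx hy] at this

/-- new cycles are contained in the join of the old ones with `x ~ y` -/
theorem of_mul_swap [DecidableEq D] {f : Perm D} {x y a b : D}
    (hab : (f * swap x y).SameCycle a b) :
    f.SameCycle a b ∨ ((f.SameCycle x a ∨ f.SameCycle y a) ∧ (f.SameCycle x b ∨ f.SameCycle y b)) := by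
  by_cases ha : f.SameCycle x a ∨ f.SameCycle y a
  · right
    refine ⟨ha, ?_⟩
    refine mem_of_sameCycle (S := {z | f.SameCycle x z ∨ f.SameCycle y z}) ?_ hab ha
    intro z hz
    by_cases hx : z = x
    · subst hx
      rw [Set.mem_ofPred_eq, mul_swap_left]
      exact Or.inr (sameCycle_apply f y)
    · by_cases hy : z = y
      · subst hy
        rw [Set.mem_ofPred_eq, mul_swap_right]
        exact Or.inl (sameCycle_apply f x)
      · rw [Set.mem_ofPred_eq, mul_swap_of_ne f hx hy]
        exact hz.imp (fun h => h.trans (sameCycle_apply f z)) (fun h => h.trans (sameCycle_apply f z))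
  · left
    push Not at ha
    refine mem_of_sameCycle (S := {z | f.SameCycle a z}) ?_ hab (Perm.SameCycle.refl f a)
    intro z hz
    have hx : z ≠ x := by rintro rfl; exact ha.1 (Perm.SameCycle.symm hz)
    have hy : z ≠ y := by rintro rfl; exact ha.2 (Perm.SameCycle.symm hz)
    rw [Set.mem_ofPred_eq, mul_swap_of_ne f hx hy]
    exact Perm.SameCycle.trans hz (sameCycle_apply f z)

theorem cyc_surj_le {f g : Perm D} (h : ∀ a b, f.SameCycle a b → g.SameCycle a b) :
    cyc g ≤ cyc f := by
  unfold cyc
  have : Finite (Quotient (Perm.SameCycle.setoid f)) := inferInstance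
  refine Nat.card_le_card_of_surjective
    (Quotient.map' (s₁ := Perm.SameCycle.setoid f) (s₂ := Perm.SameCycle.setoid g) id
      (fun a b hab => h a b hab)) ?_
  intro q
  induction q using Quotient.inductionOn' with
  | h a => exact ⟨Quotient.mk'' a, rfl⟩

/-- merging two cycles decreases the number of cycles by one -/
theorem cyc_merge [DecidableEq D] {f : Perm D} {x y : D} (h : ¬ f.SameCycle x y) :
    cyc (f * swap x y) + 1 = cyc f := by
  have hsame := merge_same h
  unfold cyc
  set s := Perm.SameCycle.setoid f
  set t := Perm.SameCycle.setoid (f * swap x y)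
  have : Finite (Quotient s) := inferInstance
  have : Finite (Quotient t) := inferInstance
  let φ : {q : Quotient s // q ≠ Quotient.mk s y} → Quotient t := fun q =>
    Quotient.map' (s₁ := s) (s₂ := t) id (fun a b hab => merge_mono hsame hab) q.1
  have hφ : Function.Bijective φ := by
    constructor
    · rintro ⟨q, hq⟩ ⟨q', hq'⟩ e
      induction q using Quotient.inductionOn with
      | h a =>
        induction q' using Quotient.inductionOn with
        | h b =>
          have hab : (f * swap x y).SameCycle a b := Quotient.exact e
          have hay : ¬ f.SameCycle y a := fun h' => hq (Quotient.sound (s := s) h'.symm)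
          have hby : ¬ f.SameCycle y b := fun h' => hq' (Quotient.sound (s := s) h'.symm)
          have : f.SameCycle a b := by
            rcases of_mul_swap hab with h1 | ⟨h1, h2⟩
            · exact h1
            · rcases h1 with h1 | h1
              · rcases h2 with h2 | h2
                · exact h1.symm.trans h2
                · exact absurd h2 hby
              · exact absurd h1 hay
          exact Subtype.ext (Quotient.sound (s := s) this)
    · intro q
      induction q using Quotient.inductionOn with
      | h a =>
        by_cases ha : f.SameCycle a y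
        · refine ⟨⟨Quotient.mk s x, fun e => h (Quotient.exact e)⟩, ?_⟩
          refine Quotient.sound (s := t) ?_
          exact hsame.trans (merge_mono hsame ha.symm)
        · exact ⟨⟨Quotient.mk s a, fun e => ha (Quotient.exact e)⟩, rfl⟩
  rw [← Nat.card_congr (Equiv.ofBijective φ hφ)]
  classical
  have := Fintype.ofFinite (Quotient s)
  rw [Nat.card_eq_fintype_card, Nat.card_eq_fintype_card, Fintype.card_subtype_compl,
    Fintype.card_subtype_eq]
  have : 0 < Fintype.card (Quotient s) := Fintype.card_pos_iff.2 ⟨Quotient.mk s y⟩
  omega

/-- a transposition increases the number of cycles by at most one -/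
theorem cyc_mul_swap_le [DecidableEq D] (f : Perm D) (x y : D) :
    cyc (f * swap x y) ≤ cyc f + 1 := by
  set g := f * swap x y with hg
  have hf : f = g * swap x y := by rw [hg, mul_assoc, swap_mul_self, mul_one]
  by_cases h : g.SameCycle x y
  · have : cyc g ≤ cyc f := by
      refine cyc_surj_le (fun a b hab => ?_)
      rw [hf] at hab
      rcases of_mul_swap hab with h1 | ⟨h1, h2⟩
      · exact h1
      · have ha : g.SameCycle x a := h1.elim id (fun k => h.trans k)
        have hb : g.SameCycle x b := h2.elim id (fun k => h.trans k)
        exact ha.symm.trans hb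
    omega
  · have := cyc_merge h
    rw [← hf] at this
    omega

theorem cyc_conj {D' : Type} [Finite D'] (e : D ≃ D') (f : Perm D) (g : Perm D')
    (h : ∀ d, e (f d) = g (e d)) : cyc g = cyc f := by
  unfold cyc
  have key : ∀ a b, f.SameCycle a b ↔ g.SameCycle (e a) (e b) := by
    intro a b
    constructor
    · intro hab
      exact mem_of_sameCycle (g := f) (S := {z | g.SameCycle (e a) (e z)})
        (fun z hz => by
          rw [Set.mem_ofPred_eq, h]
          exact Perm.SameCycle.trans hz (sameCycle_apply g _)) hab (Perm.SameCycle.refl g _)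
    · intro hab
      have := mem_of_sameCycle (g := g) (S := {z | f.SameCycle a (e.symm z)})
        (fun z hz => by
          have h2 : e.symm (g z) = f (e.symm z) := by
            rw [Equiv.symm_apply_eq, h, Equiv.apply_symm_apply]
          rw [Set.mem_ofPred_eq, h2]
          exact Perm.SameCycle.trans hz (sameCycle_apply f _)) hab
        (by rw [Set.mem_ofPred_eq, Equiv.symm_apply_apply])
      rw [Set.mem_ofPred_eq, Equiv.symm_apply_apply] at this
      exact this
  exact (Nat.card_congr (Quotient.congr (ra := Perm.SameCycle.setoid f)
    (rb := Perm.SameCycle.setoid g) e key)).symm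

theorem sameCycle_conj {D' : Type} [Finite D'] (e : D ≃ D') (f : Perm D) (g : Perm D')
    (h : ∀ d, e (f d) = g (e d)) (a b : D) : f.SameCycle a b ↔ g.SameCycle (e a) (e b) := by
  constructor
  · intro hab
    exact mem_of_sameCycle (g := f) (S := {z | g.SameCycle (e a) (e z)})
      (fun z hz => by
        rw [Set.mem_ofPred_eq, h]
        exact Perm.SameCycle.trans hz (sameCycle_apply g _)) hab (Perm.SameCycle.refl g _)
  · intro hab
    have := mem_of_sameCycle (g := g) (S := {z | f.SameCycle a (e.symm z)})
      (fun z hz => by
        have h2 : e.symm (g z) = f (e.symm z) := by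
          rw [Equiv.symm_apply_eq, h, Equiv.apply_symm_apply]
        rw [Set.mem_ofPred_eq, h2]
        exact Perm.SameCycle.trans hz (sameCycle_apply f _)) hab
      (by rw [Set.mem_ofPred_eq, Equiv.symm_apply_apply])
    rw [Set.mem_ofPred_eq, Equiv.symm_apply_apply] at this
    exact this

/-- cycles of a disjoint sum -/
theorem sameCycle_sum_inl {D' : Type} [Finite D'] (f : Perm D) (g : Perm D') (a b : D) :
    (Perm.sumCongr f g).SameCycle (Sum.inl a) (Sum.inl b) ↔ f.SameCycle a b := by
  constructor
  · intro h
    have := mem_of_sameCycle (S := {z | ∃ c, z = Sum.inl c ∧ f.SameCycle a c}) ?_ h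
      ⟨a, rfl, Perm.SameCycle.refl f a⟩
    · obtain ⟨c, hc, h2⟩ := this
      rw [Sum.inl.inj hc]; exact h2
    · rintro z ⟨c, rfl, hc⟩
      exact ⟨f c, rfl, hc.trans (sameCycle_apply f c)⟩
  · intro h
    exact mem_of_sameCycle (g := f) (S := {z | (Perm.sumCongr f g).SameCycle (Sum.inl a) (Sum.inl z)})
      (fun z hz => Perm.SameCycle.trans hz (sameCycle_apply _ _)) h (Perm.SameCycle.refl _ _)

theorem sameCycle_sum_inr {D' : Type} [Finite D'] (f : Perm D) (g : Perm D') (a b : D') :
    (Perm.sumCongr f g).SameCycle (Sum.inr a) (Sum.inr b) ↔ g.SameCycle a b := by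
  constructor
  · intro h
    have := mem_of_sameCycle (S := {z | ∃ c, z = Sum.inr c ∧ g.SameCycle a c}) ?_ h
      ⟨a, rfl, Perm.SameCycle.refl g a⟩
    · obtain ⟨c, hc, h2⟩ := this
      rw [Sum.inr.inj hc]; exact h2
    · rintro z ⟨c, rfl, hc⟩
      exact ⟨g c, rfl, hc.trans (sameCycle_apply g c)⟩
  · intro h
    exact mem_of_sameCycle (g := g) (S := {z | (Perm.sumCongr f g).SameCycle (Sum.inr a) (Sum.inr z)})
      (fun z hz => Perm.SameCycle.trans hz (sameCycle_apply _ _)) h (Perm.SameCycle.refl _ _)

theorem not_sameCycle_inl_inr {D' : Type} [Finite D'] (f : Perm D) (g : Perm D') (a : D) (b : D') :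
    ¬ (Perm.sumCongr f g).SameCycle (Sum.inl a) (Sum.inr b) := by
  intro h
  have := mem_of_sameCycle (S := {z | ∃ c, z = Sum.inl c}) ?_ h ⟨a, rfl⟩
  · obtain ⟨c, hc⟩ := this
    cases hc
  · rintro z ⟨c, rfl⟩
    exact ⟨f c, rfl⟩

theorem cyc_sum {D' : Type} [Finite D'] (f : Perm D) (g : Perm D') :
    cyc (Perm.sumCongr f g) = cyc f + cyc g := by
  unfold cyc
  set s := Perm.SameCycle.setoid f
  set t := Perm.SameCycle.setoid g
  set u := Perm.SameCycle.setoid (Perm.sumCongr f g)
  have : Finite (Quotient s) := inferInstance
  have : Finite (Quotient t) := inferInstance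
  rw [← Nat.card_sum]
  symm
  refine Nat.card_congr (Equiv.ofBijective (Sum.elim
    (Quotient.map' (s₁ := s) (s₂ := u) Sum.inl (fun a b hab => (sameCycle_sum_inl f g a b).2 hab))
    (Quotient.map' (s₁ := t) (s₂ := u) Sum.inr (fun a b hab => (sameCycle_sum_inr f g a b).2 hab)))
    ⟨?_, ?_⟩)
  · rintro (q | q) (q' | q') e
    · induction q using Quotient.inductionOn with
      | h a =>
        induction q' using Quotient.inductionOn with
        | h b =>
          exact congrArg Sum.inl (Quotient.sound (s := s)
            ((sameCycle_sum_inl f g a b).1 (Quotient.exact e)))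
    · exfalso
      induction q using Quotient.inductionOn with
      | h a =>
        induction q' using Quotient.inductionOn with
        | h b => exact not_sameCycle_inl_inr f g a b (Quotient.exact e)
    · exfalso
      induction q using Quotient.inductionOn with
      | h a =>
        induction q' using Quotient.inductionOn with
        | h b => exact not_sameCycle_inl_inr f g b a (Quotient.exact e.symm)
    · induction q using Quotient.inductionOn with
      | h a =>
        induction q' using Quotient.inductionOn with
        | h b =>
          exact congrArg Sum.inr (Quotient.sound (s := t)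
            ((sameCycle_sum_inr f g a b).1 (Quotient.exact e)))
  · intro q
    induction q using Quotient.inductionOn with
    | h a =>
      rcases a with a | a
      · exact ⟨Sum.inl (Quotient.mk s a), rfl⟩
      · exact ⟨Sum.inr (Quotient.mk t a), rfl⟩

theorem cyc_one : cyc (1 : Perm D) = Nat.card D := by
  unfold cyc
  refine Nat.card_congr (Equiv.ofBijective (fun q => Quotient.liftOn' (s₁ := Perm.SameCycle.setoid (1 : Perm D)) q id ?_) ⟨?_, ?_⟩)
  · intro a b hab
    have := mem_of_sameCycle (g := (1 : Perm D)) (S := {z | z = a}) (fun z hz => by simpa using hz)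
      (hab : Perm.SameCycle 1 a b) rfl
    exact (this : b = a).symm
  · intro q q' e
    induction q using Quotient.inductionOn' with
    | h a =>
      induction q' using Quotient.inductionOn' with
      | h b =>
        have : a = b := e
        rw [this]
  · intro a
    exact ⟨Quotient.mk'' a, rfl⟩

end Pool.Agent.Lib_helper40.SN
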