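import Pool.Agent.Lib_helper40.SN.Fill

/-! The isomorphism class of a filled core determines the core and the nets. -/

namespace Pool.Agent.Lib_helper40.SN

open Equiv

set_option linter.unusedSectionVars false

section

variable {K K' : Type} [Fintype K] [DecidableEq K] [Fintype K'] [DecidableEq K']

theorem sameCycle_rotG_inl (H : Core K) {M : K → Net} (a b : CD K) :
    (rotG M H).SameCycle (Sum.inl a) (Sum.inl b) ↔ H.ρ.SameCycle a b :=
  sameCycle_sum_inl _ _ _ _

theorem sameCycle_rotG_inr (H : Core K) {M : K → Net} {k : K} (a b : Fin (4 * (M k).V)) :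
    (rotG M H).SameCycle (Sum.inr ⟨k, a⟩) (Sum.inr ⟨k, b⟩) ↔ (M k).σ.SameCycle a b :=
  (sameCycle_sum_inr _ _ _ _).trans (sameCycle_sigma _ _ _)

/-- the block of a net is closed under the rotation -/
theorem block_closed (H : Core K) {M : K → Net} {k : K} {x y : FD M}
    (h : (rotG M H).SameCycle x y) (hx : ∃ z, x = Sum.inr ⟨k, z⟩) : ∃ z, y = Sum.inr ⟨k, z⟩ :=
  mem_of_sameCycle (g := rotG M H) (S := {x | ∃ z, x = Sum.inr ⟨k, z⟩})
    (by rintro z ⟨w, rfl⟩; exact ⟨(M k).σ w, rfl⟩) h hx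

/-- values of the edge permutation -/
theorem edge_inl {M : K → Net} (y : CD K) :
    (edgeP M Finset.univ (Sum.inl y) = Sum.inl (flipP K y)) ∨
    ∃ k b z, y = (some k, b) ∧ att (M k) b = some z ∧ edgeP M Finset.univ (Sum.inl y) = Sum.inr ⟨k, z⟩ := by
  obtain ⟨_ | k, b⟩ := y
  · exact Or.inl rfl
  · rcases h : att (M k) b with _ | z
    · exact Or.inl (ef_empty (by rw [attS_univ]; exact h))
    · exact Or.inr ⟨k, b, z, rfl, h, ef_in (by rw [attS_univ]; exact h)⟩

theorem edge_inr {M : K → Net} {k : K} (z : Fin (4 * (M k).V)) :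
    ((∀ b, att (M k) b ≠ some z) ∧ edgeP M Finset.univ (Sum.inr ⟨k, z⟩) = Sum.inr ⟨k, (M k).α z⟩) ∨
    ∃ b, att (M k) b = some z ∧ edgeP M Finset.univ (Sum.inr ⟨k, z⟩) = Sum.inl (some k, b) := by
  by_cases h : ∃ b, att (M k) b = some z
  · obtain ⟨b, hb⟩ := h
    exact Or.inr ⟨b, hb, ef_out (by rw [attS_univ]; exact hb)⟩
  · push Not at h
    exact Or.inl ⟨h, ef_inner (by intro b; rw [attS_univ]; exact h b)⟩

/-- `x` lies on the edge `e` or in the net inserted in it -/
def Ext {M : K → Net} (e : Option K) (x : FD M) : Prop :=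
  (∃ b, x = Sum.inl (e, b)) ∨ ∃ k z, e = some k ∧ x = Sum.inr ⟨k, z⟩

theorem Ext.unique {M : K → Net} {e e' : Option K} {x : FD M} (h : Ext e x) (h' : Ext e' x) :
    e = e' := by
  rcases h with ⟨b, rfl⟩ | ⟨k, z, rfl, rfl⟩
  · rcases h' with ⟨b', hb⟩ | ⟨k, z, -, hk⟩
    · exact congrArg Prod.fst (Sum.inl.inj hb)
    · cases hk
  · rcases h' with ⟨b', hb⟩ | ⟨k', z', rfl, hk⟩
    · cases hb
    · exact congrArg some (congrArg Sigma.fst (Sum.inr.inj hk))

/-- A set closed under the rotation that separates the two darts of a core edge has a boundary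
dart on this edge or in its net. -/
theorem boundary_on_edge (H : Core K) {M : K → Net} {T : Set (FD M)}
    (hT : ∀ x ∈ T, rotG M H x ∈ T) {y : CD K} (h1 : (Sum.inl y : FD M) ∈ T)
    (h2 : (Sum.inl (flipP K y) : FD M) ∉ T) :
    ∃ x ∈ T, edgeP M Finset.univ x ∉ T ∧ Ext y.1 x := by
  by_contra hn
  push Not at hn
  have key : ∀ x ∈ T, Ext y.1 x → edgeP M Finset.univ x ∈ T := by
    intro x hx he
    by_contra hc
    exact hn x hx hc he
  obtain ⟨e, b⟩ := y
  have h3 := key _ h1 (Or.inl ⟨b, rfl⟩)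
  rcases edge_inl (M := M) (e, b) with h4 | ⟨k, b', z, h5, h6, h7⟩
  · rw [h4] at h3
    exact h2 h3
  · rw [h7] at h3
    simp only [Prod.mk.injEq] at h5
    obtain ⟨rfl, rfl⟩ := h5
    have h8 := net_path (T := {w | (Sum.inr ⟨k, w⟩ : FD M) ∈ T}) h6
      (fun w hw => hT _ (hT _ hw))
      (fun w hw hb => by
        have := key _ hw (Or.inr ⟨k, w, rfl, rfl⟩)
        rcases edge_inr (M := M) w with ⟨-, h9⟩ | ⟨b', h9, -⟩
        · rw [h9] at this; exact this
        · exact absurd h9 (hb b')) h3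
    have h9 := key _ h8 (Or.inr ⟨k, _, rfl, rfl⟩)
    rw [edgeP_apply, ef_out (b := !b) (by rw [attS_univ]; exact att_not h6)] at h9
    exact h2 h9

/-- isomorphism of filled cores -/
structure FIso (H : Core K) (H' : Core K') (M : K → Net) (M' : K' → Net)
    (f : FD M ≃ FD M') : Prop where
  g : GraphIso (rotG M H) (edgeP M Finset.univ) (rotG M' H') (edgeP M' Finset.univ) f
  r : f (Sum.inl (none, true)) = Sum.inl (none, true)

variable {H : Core K} {H' : Core K'} {M : K → Net} {M' : K' → Net} {f : FD M ≃ FD M'}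

theorem FIso.symm (h : FIso H H' M M' f) : FIso H' H M' M f.symm :=
  ⟨graphIso_symm h.g, by rw [← h.r, Equiv.symm_apply_apply]⟩

theorem FIso.core (h : FIso H H' M M' f) (y : CD K) : ∃ y' : CD K', f (Sum.inl y) = Sum.inl y' := by
  rcases hy : f (Sum.inl y) with y' | ⟨k', z'⟩
  · exact ⟨y', rfl⟩
  exfalso
  obtain ⟨g1, g2⟩ := h.g
  set T : Set (FD M) := {x | ∃ z, f x = Sum.inr ⟨k', z⟩} with hT
  have hTrot : ∀ x ∈ T, rotG M H x ∈ T := by
    intro x hx
    exact block_closed H' ((g2 _ _).1 (sameCycle_apply (rotG M H) x)) hx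
  set U : Set (CD K) := {y | (Sum.inl y : FD M) ∈ T} with hU
  have hUne : U.Nonempty := ⟨y, z', hy⟩
  have hUun : U ≠ Set.univ := by
    intro e
    have : ((none, true) : CD K) ∈ U := e ▸ Set.mem_univ _
    obtain ⟨z, hz⟩ := this
    rw [h.r] at hz
    cases hz
  obtain ⟨y₁, y₂, y₃, a1, a2, a3, b1, b2, b3, c12, c13, c23⟩ :=
    H.cut3 U hUne hUun (fun y hy => hTrot _ hy)
  have hedge : ∀ u v : CD K, u ∈ U → v ∈ U → flipP K u ∉ U → u ≠ v → u.1 ≠ v.1 := by
    intro u v hu hv hfu huv e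
    refine hfu ?_
    have : flipP K u = v := by
      obtain ⟨e1, b1⟩ := u
      obtain ⟨e2, b2⟩ := v
      simp only at e
      subst e
      rw [flipP_apply]
      have : b2 = !b1 := by
        cases b1 <;> cases b2 <;> simp_all
      rw [this]
    rw [this]; exact hv
  have hbd : ∀ u : CD K, u ∈ U → flipP K u ∉ U →
      ∃ x, x ∈ T ∧ Ext u.1 x ∧ ∃ z b, f x = Sum.inr ⟨k', z⟩ ∧ att (M' k') b = some z := by
    intro u hu hfu
    obtain ⟨x, hx, hxo, hxe⟩ := boundary_on_edge H (M := M) hTrot (y := u) hu hfu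
    refine ⟨x, hx, hxe, ?_⟩
    obtain ⟨z, hz⟩ := hx
    rcases edge_inr (M := M') z with ⟨-, h9⟩ | ⟨b, h9, -⟩
    · exfalso
      refine hxo ⟨(M' k').α z, ?_⟩
      rw [g1, hz, h9]
    · exact ⟨z, b, hz, h9⟩
  obtain ⟨x₁, t1, e1, z₁, d1, f1, q1⟩ := hbd y₁ a1 b1
  obtain ⟨x₂, t2, e2, z₂, d2, f2, q2⟩ := hbd y₂ a2 b2
  obtain ⟨x₃, t3, e3, z₃, d3, f3, q3⟩ := hbd y₃ a3 b3
  have hne : ∀ {u v : CD K} {x x' : FD M} {z z' : Fin (4 * (M' k').V)} {d d' : Bool},
      u.1 ≠ v.1 → Ext u.1 x → Ext v.1 x' → f x = Sum.inr ⟨k', z⟩ → f x' = Sum.inr ⟨k', z'⟩ →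
      att (M' k') d = some z → att (M' k') d' = some z' → d ≠ d' := by
    intro u v x x' z z' d d' huv hx hx' hf hf' hd hd' e
    subst e
    rw [hd] at hd'
    have e2 : z = z' := Option.some.inj hd'
    subst e2
    have e3 : x = x' := f.injective (hf.trans hf'.symm)
    subst e3
    exact huv (hx.unique hx')
  have n12 := hne (hedge _ _ a1 a2 b1 c12) e1 e2 f1 f2 q1 q2
  have n13 := hne (hedge _ _ a1 a3 b1 c13) e1 e3 f1 f3 q1 q3
  have n23 := hne (hedge _ _ a2 a3 b2 c23) e2 e3 f2 f3 q2 q3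
  clear hne
  revert n12 n13 n23
  clear q1 q2 q3
  revert d1 d2 d3
  decide

theorem FIso.net (h : FIso H H' M M' f) {k : K} (z : Fin (4 * (M k).V)) :
    ∃ w : (Σ k', Fin (4 * (M' k').V)), f (Sum.inr ⟨k, z⟩) = Sum.inr w := by
  rcases hy : f (Sum.inr ⟨k, z⟩) with y' | w
  · exfalso
    obtain ⟨y, hy'⟩ := h.symm.core y'
    rw [← hy, Equiv.symm_apply_apply] at hy'
    cases hy'
  · exact ⟨w, rfl⟩

/-- the induced bijection of the cores -/
theorem FIso.exists_phi (h : FIso H H' M M' f) :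
    ∃ φ : CD K ≃ CD K', ∀ y, f (Sum.inl y) = Sum.inl (φ y) := by
  choose p hp using h.core
  choose q hq using h.symm.core
  refine ⟨⟨p, q, fun y => ?_, fun y => ?_⟩, hp⟩
  · have := hq (p y)
    rw [← hp, Equiv.symm_apply_apply] at this
    exact (Sum.inl.inj this).symm
  · have := hp (q y)
    rw [← hq, Equiv.apply_symm_apply] at this
    exact (Sum.inl.inj this).symm

theorem FIso.attach (h : FIso H H' M M' f) {φ : CD K ≃ CD K'}
    (hφ : ∀ y, f (Sum.inl y) = Sum.inl (φ y)) {k : K} {b : Bool} {z : Fin (4 * (M k).V)}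
    (hz : att (M k) b = some z) :
    ∃ k' b' z', φ (some k, b) = (some k', b') ∧ att (M' k') b' = some z' ∧
      f (Sum.inr ⟨k, z⟩) = Sum.inr ⟨k', z'⟩ ∧
      (∀ w, ∃ w', f (Sum.inr ⟨k, w⟩) = Sum.inr ⟨k', w'⟩) ∧ φ (some k, !b) = (some k', !b') := by
  obtain ⟨g1, g2⟩ := h.g
  have e1 : edgeP M Finset.univ (Sum.inl (some k, b)) = Sum.inr ⟨k, z⟩ :=
    ef_in (by rw [attS_univ]; exact hz)
  have e2 := g1 (Sum.inl (some k, b))
  rw [e1, hφ] at e2
  rcases edge_inl (M := M') (φ (some k, b)) with h3 | ⟨k', b', z', h4, h5, h6⟩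
  · exfalso
    rw [h3] at e2
    obtain ⟨w, hw⟩ := h.net z
    rw [hw] at e2
    cases e2
  rw [h6] at e2
  have hall : ∀ w, ∃ w', f (Sum.inr ⟨k, w⟩) = Sum.inr ⟨k', w'⟩ := by
    refine net_full (T := {w | ∃ w', f (Sum.inr ⟨k, w⟩) = Sum.inr ⟨k', w'⟩}) ?_ ?_ ⟨z, z', e2⟩
    · intro w hw
      have : (rotG M H).SameCycle (Sum.inr ⟨k, w⟩ : FD M) (Sum.inr ⟨k, (M k).σ ((M k).σ w)⟩) :=
        (sameCycle_rotG_inr H _ _).2 ((sameCycle_apply _ _).trans (sameCycle_apply _ _))
      exact block_closed H' ((g2 _ _).1 this) hw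
    · rintro w ⟨w', hw'⟩ hb
      have e3 : edgeP M Finset.univ (Sum.inr ⟨k, w⟩) = Sum.inr ⟨k, (M k).α w⟩ :=
        ef_inner (by intro b; rw [attS_univ]; exact hb b)
      have e4 := g1 (Sum.inr ⟨k, w⟩)
      rw [e3, hw'] at e4
      rcases edge_inr (M := M') w' with ⟨-, h9⟩ | ⟨b, -, h9⟩
      · rw [h9] at e4
        exact ⟨_, e4⟩
      · exfalso
        rw [h9] at e4
        obtain ⟨v, hv⟩ := h.net ((M k).α w)
        rw [hv] at e4
        cases e4
  refine ⟨k', b', z', h4, h5, e2, hall, ?_⟩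
  obtain ⟨w', hw'⟩ := hall ((M k).α z)
  have e5 : edgeP M Finset.univ (Sum.inr ⟨k, (M k).α z⟩) = Sum.inl (some k, !b) :=
    ef_out (by rw [attS_univ]; exact att_not hz)
  have e6 := g1 (Sum.inr ⟨k, (M k).α z⟩)
  rw [e5, hφ, hw'] at e6
  rcases edge_inr (M := M') w' with ⟨-, h9⟩ | ⟨b'', -, h9⟩
  · rw [h9] at e6
    cases e6
  · rw [h9] at e6
    have e7 := Sum.inl.inj e6
    have : b'' = !b' := by
      by_contra hne
      have e8 : b'' = b' := by cases b' <;> cases b'' <;> simp_all
      rw [e8, ← h4] at e7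
      have := congrArg Prod.snd (φ.injective e7)
      simp at this
    rw [this] at e7
    exact e7

theorem FIso.flip (h : FIso H H' M M' f) {φ : CD K ≃ CD K'}
    (hφ : ∀ y, f (Sum.inl y) = Sum.inl (φ y)) (y : CD K) : φ (flipP K y) = flipP K' (φ y) := by
  rcases edge_inl (M := M) y with h1 | ⟨k, b, z, rfl, h2, -⟩
  · have e := h.g.1 (Sum.inl y)
    rw [h1, hφ, hφ] at e
    rcases edge_inl (M := M') (φ y) with h3 | ⟨k', b', z', -, -, h4⟩
    · rw [h3] at e; exact Sum.inl.inj e
    · rw [h4] at e; cases e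
  · obtain ⟨k', b', z', h3, -, -, -, h4⟩ := h.attach hφ h2
    rw [flipP_apply, h4, h3, flipP_apply]

theorem netIso_root_none {m m' : Net} (h : m.root = none) (h' : m'.root = none) : NetIso m m' :=
  netSetoid.iseqv.trans (netIso_empty h) (netSetoid.iseqv.symm (netIso_empty h'))

theorem FIso.netIso (h : FIso H H' M M' f) {φ : CD K ≃ CD K'}
    (hφ : ∀ y, f (Sum.inl y) = Sum.inl (φ y)) {k : K} {k' : K'} {b' : Bool}
    (hk : φ (some k, true) = (some k', b')) :
    NetIso (M k) (if b' then M' k' else revNet (M' k')) := by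
  obtain ⟨g1, g2⟩ := h.g
  rcases hr : (M k).root with _ | d
  · -- both empty
    have h0 : (M' k').root = none := by
      rcases hr' : (M' k').root with _ | d'
      · rfl
      · exfalso
        have ha : ∃ z', att (M' k') b' = some z' := by
          cases b' with
          | true => exact ⟨_, (att_some hr').1⟩
          | false => exact ⟨_, (att_some hr').2⟩
        obtain ⟨z', hz'⟩ := ha
        have hφ' : ∀ y, f.symm (Sum.inl y) = Sum.inl (φ.symm y) := by
          intro y
          rw [Equiv.symm_apply_eq, hφ, Equiv.apply_symm_apply]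
        obtain ⟨k₂, b₂, z₂, q1, q2, -⟩ := h.symm.attach hφ' hz'
        rw [← hk, Equiv.symm_apply_apply] at q1
        simp only [Prod.mk.injEq, Option.some.injEq] at q1
        obtain ⟨rfl, rfl⟩ := q1
        rw [att_none hr] at q2
        cases q2
    cases b' with
    | true => exact netIso_root_none hr h0
    | false => exact netIso_root_none hr (by simp [revNet, h0])
  · obtain ⟨at1, at2⟩ := att_some hr
    obtain ⟨k₂, b₂, z₂, q1, q2, q3, q4, q5⟩ := h.attach hφ at1
    rw [hk] at q1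
    simp only [Prod.mk.injEq, Option.some.injEq] at q1
    obtain ⟨rfl, rfl⟩ := q1
    choose e he using q4
    have hinj : Function.Injective e := by
      intro a b hab
      have : f (Sum.inr ⟨k, a⟩) = f (Sum.inr ⟨k, b⟩) := by rw [he, he, hab]
      have := Sum.inr.inj (f.injective this)
      simpa using this
    have hφ' : ∀ y, f.symm (Sum.inl y) = Sum.inl (φ.symm y) := by
      intro y
      rw [Equiv.symm_apply_eq, hφ, Equiv.apply_symm_apply]
    have hsurj : Function.Surjective e := by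
      intro w'
      obtain ⟨k₃, b₃, z₃, p1, -, -, p4, -⟩ := h.symm.attach hφ' q2
      rw [← hk, Equiv.symm_apply_apply] at p1
      simp only [Prod.mk.injEq, Option.some.injEq] at p1
      obtain ⟨rfl, -⟩ := p1
      obtain ⟨w, hw⟩ := p4 w'
      refine ⟨w, ?_⟩
      rw [Equiv.symm_apply_eq, he] at hw
      have := Sum.inr.inj hw
      simpa using this.symm
    have hb : ∀ b w, att (M k) b = some w → att (M' k') (if b then b' else !b') = some (e w) := by
      intro b w hw
      obtain ⟨k₄, b₄, z₄, r1, r2, r3, -, -⟩ := h.attach hφ hw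
      rw [he] at r3
      have hk4 : (k₄, b₄) = (k', if b then b' else !b') := by
        cases b with
        | true =>
          rw [hk] at r1
          simp only [Prod.mk.injEq, Option.some.injEq] at r1
          simp [r1.1, r1.2]
        | false =>
          have q5' : φ (some k, false) = (some k', !b') := q5
          rw [q5'] at r1
          simp only [Prod.mk.injEq, Option.some.injEq] at r1
          simp [r1.1, r1.2]
      simp only [Prod.mk.injEq] at hk4
      obtain ⟨rfl, h6⟩ := hk4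
      have := Sum.inr.inj r3
      simp only [Sigma.mk.injEq, heq_eq_eq, true_and] at this
      rw [this, ← h6]
      exact r2
    have hα : ∀ w, e ((M k).α w) = (M' k').α (e w) := by
      intro w
      rcases edge_inr (M := M) w with ⟨-, h9⟩ | ⟨b, h9, -⟩
      · have e4 := g1 (Sum.inr ⟨k, w⟩)
        rw [h9, he, he] at e4
        rcases edge_inr (M := M') (e w) with ⟨-, h10⟩ | ⟨b, -, h10⟩
        · rw [h10] at e4
          have := Sum.inr.inj e4
          simpa using this
        · rw [h10] at e4; cases e4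
      · have r1 := hb b w h9
        have r2 := hb (!b) _ (att_not h9)
        have r3 := att_not r1
        have r4 : (if (!b) then b' else !b') = !(if b then b' else !b') := by cases b <;> simp
        rw [r4, r3] at r2
        exact (Option.some.inj r2).symm
    have hσ : ∀ a b, (M k).σ.SameCycle a b ↔ (M' k').σ.SameCycle (e a) (e b) := by
      intro a b
      rw [← sameCycle_rotG_inr H (M := M), g2, he, he, sameCycle_rotG_inr]
    have hbij : Function.Bijective e := ⟨hinj, hsurj⟩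
    have hroot := hb true d at1
    cases b' with
    | true =>
      change NetIso (M k) (M' k')
      refine ⟨Equiv.ofBijective e hbij, ⟨hα, hσ⟩, ?_⟩
      simp only [if_true] at hroot
      obtain ⟨d', hd'⟩ := root_of_att hroot
      rw [(att_some hd').1] at hroot
      rw [hr, hd', hroot]
      rfl
    | false =>
      change NetIso (M k) (revNet (M' k'))
      refine ⟨Equiv.ofBijective e hbij, ⟨hα, hσ⟩, ?_⟩
      simp only [if_true] at hroot
      obtain ⟨d', hd'⟩ := root_of_att hroot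
      rw [(att_some hd').2] at hroot
      have : (revNet (M' k')).root = some ((M' k').α d') := by simp [revNet, hd']
      rw [hr]
      refine Eq.trans ?_ (this.trans hroot).symm
      rfl

/-- **Decoding.** -/
theorem decode (h : NetIso (fillNet H M) (fillNet H' M')) :
    ∃ φ : CD K ≃ CD K', GraphIso H.ρ (flipP K) H'.ρ (flipP K') φ ∧
      φ (none, true) = (none, true) ∧
      ∀ k k' b', φ (some k, true) = (some k', b') →
        NetIso (M k) (if b' then M' k' else revNet (M' k')) := by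
  obtain ⟨f, hf, hr⟩ := netIso_mkNet_iff.1 h
  have hF : FIso H H' M M' f := ⟨hf, hr⟩
  obtain ⟨φ, hφ⟩ := hF.exists_phi
  refine ⟨φ, ⟨hF.flip hφ, fun a b => ?_⟩, ?_, fun k k' b' hk => hF.netIso hφ hk⟩
  · rw [← sameCycle_rotG_inl H (M := M), hf.2, hφ, hφ, sameCycle_rotG_inl]
  · have := hφ (none, true)
    rw [hr] at this
    exact (Sum.inl.inj this).symm

end

end Pool.Agent.Lib_helper40.SN
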