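import Mathlib

/-!
Sona graphs: definitions.

A map is given by its darts (edge-ends) `D`, the clockwise rotation `σ` at the vertices and the
involution `α` exchanging the two ends of an edge.
-/

namespace Pool.Agent.Lib_helper40.SN

open Equiv

/-- Number of cycles of a permutation (fixed points included). -/
noncomputable def cyc {D : Type} (f : Perm D) : ℕ :=
  Nat.card (Quotient (Perm.SameCycle.setoid f))

/-- `σ, α` is a sona map with `V` vertices on the dart set `D`. -/
structure IsSona {D : Type} (V : ℕ) (σ α : Perm D) : Prop where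
  /-- every vertex is a cycle of the rotation with exactly four darts -/
  rot4 : ∀ d, σ (σ (σ (σ d))) = d
  rot2 : ∀ d, σ (σ d) ≠ d
  /-- every edge consists of two darts -/
  inv : ∀ d, α (α d) = d
  nofix : ∀ d, α d ≠ d
  /-- Euler: `V - 2 V + F = 2`, where the faces are the cycles of `σ * α` -/
  planar : cyc (σ * α) = V + 2
  /-- the opposite-dart map `σ σ` and the edge map `α` connect all darts: a single transverse
  circuit traverses all edges -/
  conn : ∀ S : Set D, S.Nonempty → (∀ d ∈ S, σ (σ d) ∈ S) → (∀ d ∈ S, α d ∈ S) → S = Set.univ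

/-- `e` is an isomorphism of the underlying abstract graphs: it respects edges (`α`) and
incidence of darts with vertices (lying in the same cycle of `σ`). -/
def GraphIso {D₁ D₂ : Type} (σ₁ α₁ : Perm D₁) (σ₂ α₂ : Perm D₂) (e : D₁ ≃ D₂) : Prop :=
  (∀ d, e (α₁ d) = α₂ (e d)) ∧ ∀ d d', σ₁.SameCycle d d' ↔ σ₂.SameCycle (e d) (e d')

/-- The sona maps with `V` vertices, darts labelled by `Fin (4 * V)`. -/
def SonaMap (V : ℕ) : Type := {m : Perm (Fin (4 * V)) × Perm (Fin (4 * V)) // IsSona V m.1 m.2}

/-- Two sona maps have isomorphic underlying graphs. -/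
def sonaSetoid (V : ℕ) : Setoid (SonaMap V) where
  r m m' := ∃ e : Fin (4 * V) ≃ Fin (4 * V), GraphIso m.1.1 m.1.2 m'.1.1 m'.1.2 e
  iseqv :=
    { refl := fun m => ⟨Equiv.refl _, fun _ => rfl, fun _ _ => Iff.rfl⟩
      symm := by
        rintro m m' ⟨e, h1, h2⟩
        refine ⟨e.symm, fun d => ?_, fun d d' => ?_⟩
        · rw [Equiv.symm_apply_eq, h1, Equiv.apply_symm_apply]
        · have := h2 (e.symm d) (e.symm d')
          rw [Equiv.apply_symm_apply, Equiv.apply_symm_apply] at this
          exact this.symm
      trans := by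
        rintro m m' m'' ⟨e, h1, h2⟩ ⟨f, g1, g2⟩
        refine ⟨e.trans f, fun d => ?_, fun d d' => ?_⟩
        · simp only [Equiv.trans_apply, h1, g1]
        · simp only [Equiv.trans_apply]
          exact (h2 d d').trans (g2 _ _) }

/-- `s n`: number of isomorphism classes of sona graphs on `n` dots, i.e. with `n - 1` vertices
(the crossing-free circle is the only one on one dot). -/
noncomputable def sona : ℕ → ℕ
  | 0 => 0
  | 1 => 1
  | (V + 2) => Nat.card (Quotient (sonaSetoid (V + 1)))

end Pool.Agent.Lib_helper40.SN
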