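import Pool.Agent.Lib_helper40.SN.Upper3

/-! Euler's inequality for combinatorial maps; every edge of a sona map has two different sides. -/

namespace Pool.Agent.Lib_helper40.SN

open Equiv

set_option linter.unusedSectionVars false

variable {D : Type} [Fintype D] [DecidableEq D] {α : Perm D} {h : ∀ d, α (α d) = d}

theorem exists_tree' {σ : Perm D} {B : Finset D} (hB : ∀ x ∈ B, α x ∈ B)
    (hconn : ∀ S : Set D, S.Nonempty → (∀ d ∈ S, σ (σ d) ∈ S) → (∀ d ∈ S, d ∈ B → α d ∈ S) →
      S = Set.univ) :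
    ∃ A : Finset D, A ⊆ B ∧ (∀ x ∈ A, α x ∈ A) ∧ ∀ x y, (σ * rs α h A).SameCycle x y := by
  classical
  let P : Finset D → Prop := fun A => A ⊆ B ∧ (∀ x ∈ A, α x ∈ A) ∧
    (∀ x y, σ.SameCycle x y → (σ * rs α h A).SameCycle x y) ∧
    (∀ x ∈ A, (σ * rs α h A).SameCycle x (α x))
  have hP0 : P ∅ := ⟨by simp, by simp, by intro x y hxy; rw [rs_empty, mul_one]; exact hxy, by simp⟩
  obtain ⟨A, hA, hmax⟩ := Finset.exists_max_image (Finset.univ.filter P) Finset.card
    ⟨∅, by simp [hP0]⟩
  simp only [Finset.mem_filter, Finset.mem_univ, true_and] at hA hmax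
  obtain ⟨hA0, hA1, hA2, hA3⟩ := hA
  have hall : ∀ d ∈ B, (σ * rs α h A).SameCycle d (α d) := by
    intro d hdB
    by_contra hn
    have hd : d ∉ A := fun k => hn (hA3 d k)
    have hd' : α d ∉ A := by
      intro k
      have := hA1 _ k
      rw [h] at this
      exact hd this
    have hprod : σ * rs α h (insert d (insert (α d) A)) = σ * rs α h A * swap d (α d) := by
      rw [rs_insert hA1 hd hd', mul_assoc]
    have hsame := merge_same hn
    have hP : P (insert d (insert (α d) A)) := by
      refine ⟨?_, ?_, ?_, ?_⟩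
      · intro x hx
        simp only [Finset.mem_insert] at hx
        rcases hx with rfl | rfl | hx
        · exact hdB
        · exact hB _ hdB
        · exact hA0 hx
      · intro x hx
        simp only [Finset.mem_insert] at hx ⊢
        rcases hx with rfl | rfl | hx
        · exact Or.inr (Or.inl rfl)
        · exact Or.inl (h d)
        · exact Or.inr (Or.inr (hA1 x hx))
      · intro x y hxy
        rw [hprod]
        exact merge_mono hsame (hA2 x y hxy)
      · intro x hx
        rw [hprod]
        simp only [Finset.mem_insert] at hx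
        rcases hx with rfl | rfl | hx
        · exact hsame
        · rw [h]; exact hsame.symm
        · exact merge_mono hsame (hA3 x hx)
    have := hmax _ hP
    have h1 : A.card < (insert d (insert (α d) A)).card := by
      refine Finset.card_lt_card ?_
      rw [Finset.ssubset_iff]
      refine ⟨d, hd, ?_⟩
      intro x hx
      simp only [Finset.mem_insert] at hx ⊢
      tauto
    omega
  refine ⟨A, hA0, hA1, fun x y => ?_⟩
  have hσ : ∀ z, (σ * rs α h A).SameCycle z (σ z) := fun z => hA2 _ _ (sameCycle_apply σ z)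
  have := hconn {z | (σ * rs α h A).SameCycle x z} ⟨x, Perm.SameCycle.refl _ _⟩
    (fun z hz => (hz.trans (hσ z)).trans (hσ _)) (fun z hz hzB => hz.trans (hall z hzB))
  have hb : y ∈ {z | (σ * rs α h A).SameCycle x z} := this ▸ Set.mem_univ y
  exact hb

theorem rs_mul_sdiff {A B : Finset D} (hAB : A ⊆ B) (hA : ∀ x ∈ A, α x ∈ A)
    (hB : ∀ x ∈ B, α x ∈ B) : rs α h A * rs α h B = rs α h (B \ A) := by
  have hBA : ∀ x ∈ B \ A, α x ∈ B \ A := by
    intro x hx
    rw [Finset.mem_sdiff] at hx ⊢
    refine ⟨hB x hx.1, fun k => hx.2 ?_⟩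
    have := hA _ k
    rwa [h] at this
  ext x
  rw [Perm.mul_apply]
  by_cases hx : x ∈ B
  · rw [rs_of_mem hB hx]
    by_cases hxA : x ∈ A
    · rw [rs_of_mem hA (hA x hxA), h, rs_of_not_mem]
      simp [hxA]
    · have hx' : x ∈ B \ A := Finset.mem_sdiff.2 ⟨hx, hxA⟩
      have := (Finset.mem_sdiff.1 (hBA x hx')).2
      rw [rs_of_not_mem this, rs_of_mem hBA hx']
  · rw [rs_of_not_mem hx, rs_of_not_mem (fun k => hx (hAB k)), rs_of_not_mem (by simp [hx])]

/-- Euler's inequality -/
theorem euler [Nonempty D] (hf : ∀ d, α d ≠ d) {σ : Perm D} {B : Finset D} (hB : ∀ x ∈ B, α x ∈ B)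
    (hconn : ∀ S : Set D, S.Nonempty → (∀ d ∈ S, σ (σ d) ∈ S) → (∀ d ∈ S, d ∈ B → α d ∈ S) →
      S = Set.univ) :
    2 * cyc σ + 2 * cyc (σ * rs α h B) ≤ 4 + B.card := by
  obtain ⟨A, hAB, hA, hfull⟩ := exists_tree' (h := h) hB hconn
  have hcyc : cyc (σ * rs α h A) = 1 := cyc_eq_one hfull
  have b1 := cyc_rs_le (h := h) hf (σ * rs α h A) hA
  have hBA : ∀ x ∈ B \ A, α x ∈ B \ A := by
    intro x hx
    rw [Finset.mem_sdiff] at hx ⊢
    refine ⟨hB x hx.1, fun k => hx.2 ?_⟩
    have := hA _ k
    rwa [h] at this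
  have b2 := cyc_rs_le (h := h) hf (σ * rs α h A) hBA
  have e1 : σ * rs α h A * rs α h A = σ := by rw [mul_assoc, rs_mul_self, mul_one]
  have e2 : σ * rs α h A * rs α h (B \ A) = σ * rs α h B := by
    rw [← rs_mul_sdiff hAB hA hB, ← mul_assoc, e1]
  rw [e1, hcyc] at b1
  rw [e2, hcyc] at b2
  have b3 : (B \ A).card + A.card = B.card := Finset.card_sdiff_add_card_eq_card hAB
  omega

theorem card_le_four_cyc' {D : Type} [Finite D] {σ : Perm D} (rot4 : ∀ d, σ (σ (σ (σ d))) = d) :
    Nat.card D ≤ 4 * cyc σ := by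
  unfold cyc
  have : Finite (Quotient (Perm.SameCycle.setoid σ)) := inferInstance
  have hsurj : Function.Surjective (fun p : Fin 4 × Quotient (Perm.SameCycle.setoid σ) =>
      (σ ^ (p.1 : ℕ)) p.2.out) := by
    intro x
    have h1 := Quotient.mk_out (s := Perm.SameCycle.setoid σ) x
    have h2 : σ.SameCycle (Quotient.mk (Perm.SameCycle.setoid σ) x).out x := h1
    obtain ⟨n, -, hn⟩ := h2.exists_pow_eq'
    have h4 : σ ^ 4 = 1 := by
      ext d
      have := rot4 d
      simpa [pow_succ] using this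
    refine ⟨(⟨n % 4, Nat.mod_lt _ (by norm_num)⟩, Quotient.mk _ x), ?_⟩
    simp only
    rw [← pow_eq_pow_mod n h4, hn]
  have := Nat.card_le_card_of_surjective _ hsurj
  rw [Nat.card_prod, Nat.card_eq_fintype_card (α := Fin 4), Fintype.card_fin] at this
  exact this

theorem rs_univ : rs α h Finset.univ = α := by
  ext x; rw [rs_of_mem (by simp) (Finset.mem_univ x)]

/-- planarity is automatic in one direction -/
theorem isSona_of_le [Nonempty D] {V : ℕ} {σ : Perm D} (hc : Fintype.card D = 4 * V)
    (rot4 : ∀ d, σ (σ (σ (σ d))) = d) (rot2 : ∀ d, σ (σ d) ≠ d) (inv : ∀ d, α (α d) = d)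
    (nofix : ∀ d, α d ≠ d) (hpl : V + 2 ≤ cyc (σ * α))
    (conn : ∀ S : Set D, S.Nonempty → (∀ d ∈ S, σ (σ d) ∈ S) → (∀ d ∈ S, α d ∈ S) →
      S = Set.univ) : IsSona V σ α := by
  refine ⟨rot4, rot2, inv, nofix, ?_, conn⟩
  have e := euler (h := inv) (σ := σ) nofix (B := Finset.univ) (by simp)
    (fun S h1 h2 h3 => conn S h1 h2 (fun d hd => h3 d hd (Finset.mem_univ d)))
  rw [rs_univ, Finset.card_univ, hc] at e
  have b3 := card_le_four_cyc' rot4
  rw [Nat.card_eq_fintype_card, hc] at b3
  omega

/-- Every edge of a sona map has two different sides. -/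
theorem isRooted_all {V : ℕ} {σ : Perm D} (hc : Fintype.card D = 4 * V) (hs : IsSona V σ α)
    (d : D) : IsRooted V σ α d := by
  refine ⟨hs, fun hsame => ?_⟩
  have : Nonempty D := ⟨d⟩
  set B : Finset D := (Finset.univ.erase (α d)).erase d with hB
  have hmem : ∀ x, x ∈ B ↔ x ≠ d ∧ x ≠ α d := by
    intro x; simp [hB]
  have hBc : ∀ x ∈ B, α x ∈ B := by
    intro x hx
    rw [hmem] at hx ⊢
    refine ⟨fun e => hx.2 (by rw [← e, hs.inv]), fun e => hx.1 (α.injective e)⟩
  have e := euler (h := hs.inv) (σ := σ) hs.nofix hBc (by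
    intro S h1 h2 h3
    have key : ∀ z ∈ S, z ≠ d → z ≠ α d → α z ∈ S := fun z hz a b => h3 z hz ((hmem z).2 ⟨a, b⟩)
    refine hs.conn S h1 h2 (fun z hz => ?_)
    by_cases z1 : z = d
    · rw [z1] at hz ⊢
      exact curve_path hs h2 key hz
    · by_cases z2 : z = α d
      · rw [z2] at hz ⊢
        have := curve_path (d := α d) hs h2 (fun w hw a b => key w hw (by rw [hs.inv] at b; exact b) a) hz
        exact this
      · exact key z hz z1 z2)
  have hcard : B.card + 2 = 4 * V := by
    have h1 : d ∈ (Finset.univ : Finset D).erase (α d) :=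
      Finset.mem_erase.2 ⟨(hs.nofix d).symm, Finset.mem_univ d⟩
    rw [hB, Finset.card_erase_of_mem h1, Finset.card_erase_of_mem (Finset.mem_univ _),
      Finset.card_univ, hc]
    have : 2 ≤ Fintype.card D := by
      rw [← Finset.card_univ]
      have h2 : ({d, α d} : Finset D).card = 2 := Finset.card_pair (hs.nofix d).symm
      rw [← h2]
      exact Finset.card_le_card (Finset.subset_univ _)
    omega
  have b3 := card_le_four_cyc' hs.rot4
  rw [Nat.card_eq_fintype_card, hc] at b3
  -- splitting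
  have hins : insert d (insert (α d) B) = (Finset.univ : Finset D) := by
    ext x; simp only [Finset.mem_insert, hmem, Finset.mem_univ, iff_true]; tauto
  have hfac : σ * α = σ * rs α hs.inv B * swap d (α d) := by
    have := rs_insert (h := hs.inv) hBc (d := d) (fun k => ((hmem d).1 k).1 rfl)
      (fun k => ((hmem _).1 k).2 rfl)
    rw [hins, rs_univ] at this
    rw [mul_assoc, ← this]
  have hpl := hs.planar
  -- `g = σ * rs B`; if `d ~ α d` in `σ * α = g * swap` then cyc g = cyc (σ α) + 1
  set g := σ * rs α hs.inv B with hg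
  have hle : cyc (σ * α) ≤ cyc g ∧ (¬ g.SameCycle d (α d)) := by
    by_cases hgs : g.SameCycle d (α d)
    · exfalso
      have h1 : cyc (g * swap d (α d)) ≤ cyc g := by
        rw [← hfac]
        refine cyc_surj_le (fun a b hab => ?_)
        have hg' : g = σ * α * swap d (α d) := by
          rw [hfac, mul_assoc, swap_mul_self, mul_one]
        rw [hg'] at hab
        rcases of_mul_swap hab with k | ⟨k1, k2⟩
        · exact k
        · have ha : (σ * α).SameCycle d a := k1.elim id (fun k => hsame.trans k)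
          have hb : (σ * α).SameCycle d b := k2.elim id (fun k => hsame.trans k)
          exact ha.symm.trans hb
      rw [← hfac] at h1
      omega
    · refine ⟨?_, hgs⟩
      have := cyc_merge hgs
      rw [← hfac] at this
      omega
  have := cyc_merge hle.2
  rw [← hfac] at this
  omega

end Pool.Agent.Lib_helper40.SN
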