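import Pool.Agent.Lib_helper40.SN.Core

/-! The filled core is a sona map. -/

namespace Pool.Agent.Lib_helper40.SN

open Equiv

set_option linter.unusedSectionVars false

section Sigma

variable {K : Type} [Fintype K] {D : K → Type} [∀ k, Finite (D k)] (f : ∀ k, Perm (D k))

theorem sameCycle_sigma {k : K} (a b : D k) :
    (Perm.sigmaCongrRight f).SameCycle ⟨k, a⟩ ⟨k, b⟩ ↔ (f k).SameCycle a b := by
  constructor
  · intro h
    have := mem_of_sameCycle (S := {z : (Σ k, D k) | ∃ c, z = ⟨k, c⟩ ∧ (f k).SameCycle a c}) ?_ h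
      ⟨a, rfl, Perm.SameCycle.refl _ a⟩
    · obtain ⟨c, hc, h2⟩ := this
      simp only [Sigma.mk.injEq, heq_eq_eq, true_and] at hc
      rw [hc]; exact h2
    · rintro z ⟨c, rfl, hc⟩
      exact ⟨f k c, rfl, hc.trans (sameCycle_apply _ c)⟩
  · intro h
    exact mem_of_sameCycle (g := f k)
      (S := {z | (Perm.sigmaCongrRight f).SameCycle ⟨k, a⟩ ⟨k, z⟩})
      (fun z hz => Perm.SameCycle.trans hz (sameCycle_apply (Perm.sigmaCongrRight f) ⟨k, z⟩))
      h (Perm.SameCycle.refl _ _)

theorem sameCycle_sigma_fst {x y : Σ k, D k} (h : (Perm.sigmaCongrRight f).SameCycle x y) :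
    x.1 = y.1 := by
  have := mem_of_sameCycle (S := {z : (Σ k, D k) | x.1 = z.1}) ?_ h rfl
  · exact this
  · rintro z hz
    exact hz

theorem cyc_sigma : cyc (Perm.sigmaCongrRight f) = ∑ k, cyc (f k) := by
  unfold cyc
  set u := Perm.SameCycle.setoid (Perm.sigmaCongrRight f)
  have : ∀ k, Finite (Quotient (Perm.SameCycle.setoid (f k))) := fun k => inferInstance
  rw [← Nat.card_sigma]
  symm
  refine Nat.card_congr (Equiv.ofBijective
    (fun p : (Σ k, Quotient (Perm.SameCycle.setoid (f k))) =>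
      Quotient.map' (s₁ := Perm.SameCycle.setoid (f p.1)) (s₂ := u)
        (fun a => (⟨p.1, a⟩ : Σ k, D k)) (fun a b hab => (sameCycle_sigma f a b).2 hab) p.2)
    ⟨?_, ?_⟩)
  · rintro ⟨k, q⟩ ⟨k', q'⟩ e
    induction q using Quotient.inductionOn with
    | h a =>
      induction q' using Quotient.inductionOn with
      | h b =>
        have h1 : (Perm.sigmaCongrRight f).SameCycle ⟨k, a⟩ ⟨k', b⟩ := Quotient.exact e
        have h2 : k = k' := sameCycle_sigma_fst f h1
        subst h2
        have h3 := (sameCycle_sigma f a b).1 h1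
        have : Quotient.mk (Perm.SameCycle.setoid (f k)) a = Quotient.mk _ b := Quotient.sound h3
        rw [this]
  · intro q
    induction q using Quotient.inductionOn with
    | h a =>
      obtain ⟨k, a⟩ := a
      exact ⟨⟨k, Quotient.mk _ a⟩, rfl⟩

end Sigma

theorem cyc_le_mul_swap {D : Type} [Finite D] [DecidableEq D] (f : Perm D) (x y : D) :
    cyc f ≤ cyc (f * swap x y) + 1 := by
  have := cyc_mul_swap_le (f * swap x y) x y
  rwa [mul_assoc, swap_mul_self, mul_one] at this

section Fill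

variable {K : Type} [Fintype K] [DecidableEq K] {M : K → Net}

theorem cyc_empty_type {D : Type} [Finite D] [IsEmpty D] (f : Perm D) : cyc f = 0 := by
  unfold cyc
  have : IsEmpty (Quotient (Perm.SameCycle.setoid f)) := by
    constructor
    intro q
    induction q using Quotient.inductionOn with
    | h a => exact isEmptyElim a
  exact Nat.card_of_isEmpty

theorem faces_net (m : Net) :
    cyc (m.σ * m.α) = m.V + (if m.root = none then 0 else 2) := by
  rcases m.ok with ⟨h1, h2⟩ | ⟨⟨d, hd⟩, h2⟩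
  · have : IsEmpty (Fin (4 * m.V)) := ⟨fun x => absurd x.2 (by omega)⟩
    rw [if_pos h2, cyc_empty_type]
    omega
  · rw [hd, h2.planar]
    simp

theorem faces_bound (H : Core K) (S : Finset K) :
    H.V + 2 + ∑ k, (M k).V + ∑ k, (if (M k).root = none then 0 else 2) ≤
      cyc (rotG M H * edgeP M S) + ∑ k ∈ S, (if (M k).root = none then 0 else 2) := by
  classical
  induction S using Finset.induction_on with
  | empty =>
    rw [edgeP_empty, Finset.sum_empty]
    unfold rotG
    rw [Perm.sumCongr_mul]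
    have e : (Perm.sigmaCongrRight (fun k => (M k).σ)) * (Perm.sigmaCongrRight (fun k => (M k).α))
        = Perm.sigmaCongrRight (fun k => (M k).σ * (M k).α) := by
      ext x <;> rfl
    rw [e, cyc_sum, cyc_sigma, H.sona.planar]
    simp only [faces_net]
    rw [Finset.sum_add_distrib]
    omega
  | insert k S hk ih =>
    rw [Finset.sum_insert hk]
    rcases h : (M k).root with _ | d
    · rw [edgeP_insert_none h]
      simp only [if_true, zero_add]
      exact ih
    · rw [edgeP_insert_some hk h, ← mul_assoc, ← mul_assoc]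
      have h1 := cyc_le_mul_swap (rotG M H * edgeP M S)
        (Sum.inl (some k, true) : FD M) (Sum.inr ⟨k, (M k).α d⟩)
      have h2 := cyc_le_mul_swap (rotG M H * edgeP M S *
        swap (Sum.inl (some k, true) : FD M) (Sum.inr ⟨k, (M k).α d⟩))
        (Sum.inl (some k, false) : FD M) (Sum.inr ⟨k, d⟩)
      simp only [reduceCtorEq, if_false]
      omega

theorem card_FD (H : Core K) : Fintype.card (FD M) = 4 * (H.V + ∑ k, (M k).V) := by
  have h := H.card
  rw [Fintype.card_sum, h, Fintype.card_sigma]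
  simp only [Fintype.card_fin]
  rw [mul_add, Finset.mul_sum]

/-- In a net, the two attached darts are joined by the curve. -/
theorem net_path {m : Net} {b : Bool} {z : Fin (4 * m.V)} (h : att m b = some z)
    {T : Set (Fin (4 * m.V))} (hσ : ∀ y ∈ T, m.σ (m.σ y) ∈ T)
    (hα : ∀ y ∈ T, (∀ b', att m b' ≠ some y) → m.α y ∈ T) (hz : z ∈ T) : m.α z ∈ T := by
  obtain ⟨d, hd⟩ := root_of_att h
  refine curve_path (Net.sona hd) hσ (fun y hy h1 h2 => hα y hy ?_) hz
  intro b' hb'
  rcases Bool.eq_or_eq_not b' b with e | e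
  · rw [e, h] at hb'
    exact h1 (Option.some.inj hb').symm
  · rw [e, att_not h] at hb'
    exact h2 (Option.some.inj hb').symm

/-- In a net, a nonempty closed set is everything. -/
theorem net_full {m : Net} {T : Set (Fin (4 * m.V))} (hσ : ∀ y ∈ T, m.σ (m.σ y) ∈ T)
    (hα : ∀ y ∈ T, (∀ b', att m b' ≠ some y) → m.α y ∈ T) (hT : T.Nonempty) : ∀ y, y ∈ T := by
  obtain ⟨y0, hy0⟩ := hT
  have hV : m.V ≠ 0 := by
    intro h
    exact absurd y0.2 (by omega)
  have hok : ∃ d, m.root = some d := by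
    rcases m.ok with ⟨h1, -⟩ | ⟨h1, -⟩
    · exact absurd h1 hV
    · exact h1
  obtain ⟨d, hd⟩ := hok
  have hs := Net.sona hd
  have huniv := hs.conn T ⟨y0, hy0⟩ hσ (fun y hy => by
    by_cases hb : ∃ b', att m b' = some y
    · obtain ⟨b', hb'⟩ := hb
      exact net_path hb' hσ hα hy
    · push Not at hb
      exact hα y hy hb)
  intro y
  exact huniv ▸ Set.mem_univ y

theorem attS_univ (k : K) (b : Bool) : attS M Finset.univ k b = att (M k) b :=
  if_pos (Finset.mem_univ k)

theorem fill_conn (H : Core K) (S : Set (FD M)) (hS : S.Nonempty)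
    (h1 : ∀ d ∈ S, rotG M H (rotG M H d) ∈ S) (h2 : ∀ d ∈ S, edgeP M Finset.univ d ∈ S) :
    S = Set.univ := by
  have hT1 : ∀ k, ∀ y ∈ {z : Fin (4 * (M k).V) | Sum.inr ⟨k, z⟩ ∈ S},
      (M k).σ ((M k).σ y) ∈ {z : Fin (4 * (M k).V) | Sum.inr ⟨k, z⟩ ∈ S} :=
    fun k y hy => h1 _ hy
  have hT2 : ∀ k, ∀ y ∈ {z : Fin (4 * (M k).V) | Sum.inr ⟨k, z⟩ ∈ S},
      (∀ b', att (M k) b' ≠ some y) →
      (M k).α y ∈ {z : Fin (4 * (M k).V) | Sum.inr ⟨k, z⟩ ∈ S} := by
    intro k y hy hb
    have := h2 _ hy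
    rw [edgeP_apply, ef_inner (by intro b; rw [attS_univ]; exact hb b)] at this
    exact this
  have hfull : ∀ k, (∃ z, (Sum.inr ⟨k, z⟩ : FD M) ∈ S) → ∀ z, (Sum.inr ⟨k, z⟩ : FD M) ∈ S :=
    fun k hk => net_full (hT1 k) (hT2 k) hk
  -- the core part
  have hU : (∃ y, (Sum.inl y : FD M) ∈ S) → ∀ y, (Sum.inl y : FD M) ∈ S := by
    intro hne
    have := H.sona.conn {y | (Sum.inl y : FD M) ∈ S} hne (fun y hy => h1 _ hy) ?_
    · intro y
      have hy : y ∈ {y | (Sum.inl y : FD M) ∈ S} := this ▸ Set.mem_univ y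
      exact hy
    · rintro ⟨_ | k, b⟩ hy
      · exact h2 _ hy
      · rw [flipP_apply]
        rcases hat : att (M k) b with _ | z
        · have := h2 _ hy
          rw [edgeP_apply, ef_empty (by rw [attS_univ]; exact hat)] at this
          exact this
        · have h3 := h2 _ hy
          rw [edgeP_apply, ef_in (by rw [attS_univ]; exact hat)] at h3
          have h4 := hfull k ⟨z, h3⟩ ((M k).α z)
          have h5 := h2 _ h4
          rw [edgeP_apply, ef_out (by rw [attS_univ]; exact att_not hat)] at h5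
          exact h5
  have hne : ∃ y, (Sum.inl y : FD M) ∈ S := by
    obtain ⟨y | ⟨k, z⟩, hx⟩ := hS
    · exact ⟨y, hx⟩
    · have hok : ∃ d, (M k).root = some d := by
        rcases (M k).ok with ⟨h1, -⟩ | ⟨h1, -⟩
        · exact absurd z.2 (by omega)
        · exact h1
      obtain ⟨d, hd⟩ := hok
      have h4 := hfull k ⟨z, hx⟩ d
      have h5 := h2 _ h4
      rw [edgeP_apply, ef_out (b := true) (by rw [attS_univ]; exact (att_some hd).1)] at h5
      exact ⟨_, h5⟩
  ext x
  simp only [Set.mem_univ, iff_true]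
  rcases x with y | ⟨k, z⟩
  · exact hU hne y
  · have hok : ∃ d, (M k).root = some d := by
      rcases (M k).ok with ⟨h1, -⟩ | ⟨h1, -⟩
      · exact absurd z.2 (by omega)
      · exact h1
    obtain ⟨d, hd⟩ := hok
    have h3 := h2 _ (hU hne (some k, true))
    rw [edgeP_apply, ef_in (by rw [attS_univ]; exact (att_some hd).1)] at h3
    exact hfull k ⟨d, h3⟩ z

theorem net_rot (m : Net) (z : Fin (4 * m.V)) :
    m.σ (m.σ (m.σ (m.σ z))) = z ∧ m.σ (m.σ z) ≠ z := by
  rcases m.ok with ⟨h1, -⟩ | ⟨-, h1⟩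
  · exact absurd z.2 (by omega)
  · exact ⟨h1.rot4 z, h1.rot2 z⟩

theorem fill_sona (H : Core K) :
    IsSona (H.V + ∑ k, (M k).V) (rotG M H) (edgeP M Finset.univ) := by
  classical
  have : Nonempty (FD M) := ⟨Sum.inl (none, true)⟩
  refine isSona_of_le (card_FD H) ?_ ?_ ?_ ?_ ?_ (fill_conn H)
  · rintro (y | ⟨k, z⟩)
    · exact congrArg Sum.inl (H.sona.rot4 y)
    · exact congrArg (fun z => (Sum.inr ⟨k, z⟩ : FD M)) (net_rot (M k) z).1
  · rintro (y | ⟨k, z⟩)
    · intro e
      exact H.sona.rot2 y (Sum.inl.inj e)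
    · intro e
      have := Sum.inr.inj e
      have h2 : (⟨k, (M k).σ ((M k).σ z)⟩ : Σ k, Fin (4 * (M k).V)) = ⟨k, z⟩ := this
      simp only [Sigma.mk.injEq, heq_eq_eq, true_and] at h2
      exact (net_rot (M k) z).2 h2
  · exact fun x => ef_invol x
  · exact fun x => ef_nofix x
  · have := faces_bound (M := M) H Finset.univ
    omega

/-- the filled core as a net -/
noncomputable def fillNet (H : Core K) (M : K → Net) : Net :=
  mkNet (fill_sona (M := M) H) (card_FD H) (Sum.inl (none, true))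

theorem size_fillNet (H : Core K) (M : K → Net) : (fillNet H M).V = H.V + ∑ k, (M k).V := rfl

end Fill

end Pool.Agent.Lib_helper40.SN
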