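import Pool.Agent.Lib_helper40.SN.Gen

/-! The generating function of nets is finite inside the radius given by the rooted count. -/

namespace Pool.Agent.Lib_helper40.SN

open Equiv

set_option linter.unusedSectionVars false

/-- a rooted map as a net -/
def netOf {V : ℕ} (m : RootedMap V) : Net := ⟨V, m.1.1.1, m.1.1.2, some m.1.2, Or.inr ⟨⟨_, rfl⟩, m.2.1⟩⟩

theorem exists_rootedMap {V : ℕ} (hV : 1 ≤ V) (q : NetC) (h : size q = V) :
    ∃ m : RootedMap V, Quotient.mk _ (netOf m) = q := by
  obtain ⟨m, rfl⟩ := Quotient.exists_rep q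
  have hm : m.V = V := h
  subst hm
  rcases hr : m.root with _ | d
  · exfalso
    rcases m.ok with ⟨h1, -⟩ | ⟨⟨d, hd⟩, -⟩
    · omega
    · rw [hr] at hd; cases hd
  · refine ⟨⟨((m.σ, m.α), d), net_rooted hr⟩, Quotient.sound ?_⟩
    refine ⟨Equiv.refl _, ⟨fun _ => rfl, fun _ _ => Iff.rfl⟩, ?_⟩
    rw [hr]
    rfl

theorem card_fiber {V : ℕ} (hV : 1 ≤ V) : Finite {q : NetC // size q = V} ∧
    Nat.card {q : NetC // size q = V} ≤ rc V := by
  have : Finite (Quotient (rootedSetoid V)) := inferInstance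
  choose g hg using fun q : {q : NetC // size q = V} => exists_rootedMap hV q.1 q.2
  have hinj : Function.Injective (fun q : {q : NetC // size q = V} =>
      Quotient.mk (rootedSetoid V) (g q)) := by
    intro q q' e
    have h : (rootedSetoid V).r (g q) (g q') := Quotient.exact e
    obtain ⟨e1, h1, h2⟩ := h
    apply Subtype.ext
    rw [← hg q, ← hg q']
    refine Quotient.sound ⟨e1, h1, ?_⟩
    exact congrArg some h2
  have hf : Finite {q : NetC // size q = V} := Finite.of_injective _ hinj
  refine ⟨hf, ?_⟩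
  unfold rc
  exact Nat.card_le_card_of_injective _ hinj

theorem fiber_zero (q : NetC) (h : size q = 0) : q = E0 := by
  obtain ⟨m, rfl⟩ := Quotient.exists_rep q
  have hm : m.V = 0 := h
  rcases hr : m.root with _ | d
  · exact eq_E0 hr
  · exact absurd d.2 (by omega)

theorem fiber_sum (x : ENNReal) (V : ℕ) :
    ∑' q : {q : NetC // size q = V}, x ^ size q.1 ≤ ((rc V : ENNReal) + 1) * x ^ V := by
  have e : ∀ q : {q : NetC // size q = V}, x ^ size q.1 = x ^ V := fun q => by rw [q.2]
  simp only [e]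
  rcases Nat.eq_zero_or_pos V with hV | hV
  · subst hV
    have : Subsingleton {q : NetC // size q = 0} :=
      ⟨fun a b => Subtype.ext ((fiber_zero a.1 a.2).trans (fiber_zero b.1 b.2).symm)⟩
    have hf : Fintype {q : NetC // size q = 0} := Fintype.ofFinite _
    rw [tsum_fintype, Finset.sum_const, Finset.card_univ, nsmul_eq_mul]
    refine mul_le_mul' ?_ le_rfl
    have h1 : Fintype.card {q : NetC // size q = 0} ≤ 1 := Fintype.card_le_one_iff_subsingleton.2 this
    calc ((Fintype.card {q : NetC // size q = 0} : ℕ) : ENNReal) ≤ ((1 : ℕ) : ENNReal) := by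
          exact_mod_cast h1
      _ = 1 := by simp
      _ ≤ (rc 0 : ENNReal) + 1 := le_add_self
  · obtain ⟨hfin, hcard⟩ := card_fiber hV
    have hf : Fintype {q : NetC // size q = V} := Fintype.ofFinite _
    rw [tsum_fintype, Finset.sum_const, Finset.card_univ, nsmul_eq_mul]
    refine mul_le_mul' ?_ le_rfl
    rw [Nat.card_eq_fintype_card] at hcard
    calc ((Fintype.card {q : NetC // size q = V} : ℕ) : ENNReal) ≤ (rc V : ENNReal) := by
          exact_mod_cast hcard
      _ ≤ (rc V : ENNReal) + 1 := le_self_add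

theorem GA_finite {x : ENNReal} {C g : NNReal} (h : ∀ V : ℕ, (rc V : NNReal) + 1 ≤ C * g ^ V)
    (hx : (g : ENNReal) * x < 1) : GA x < ⊤ := by
  have h1 : GA x = ∑' (p : (Σ V, {q : NetC // size q = V})), x ^ size p.2.1 := by
    unfold GA
    exact ((Equiv.sigmaFiberEquiv size).tsum_eq (fun q => x ^ size q)).symm
  rw [h1, ENNReal.tsum_sigma (f := fun (V : ℕ) (q : {q : NetC // size q = V}) => x ^ size q.1)]
  have h2 : ∑' V, ∑' q : {q : NetC // size q = V}, x ^ size q.1 ≤
      ∑' V : ℕ, (C : ENNReal) * ((g : ENNReal) * x) ^ V := by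
    refine ENNReal.tsum_le_tsum (fun V => (fiber_sum x V).trans ?_)
    rw [mul_pow, ← mul_assoc]
    refine mul_le_mul' ?_ le_rfl
    have := h V
    exact_mod_cast this
  refine lt_of_le_of_lt h2 ?_
  rw [ENNReal.tsum_mul_left, ENNReal.tsum_geometric]
  refine ENNReal.mul_lt_top ENNReal.coe_lt_top ?_
  rw [ENNReal.inv_lt_top]
  exact tsub_pos_of_lt hx

end Pool.Agent.Lib_helper40.SN
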