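import Pool.Agent.Lib_helper40.SN.Series

/-! Generating function inequalities for classes of nets. -/

namespace Pool.Agent.Lib_helper40.SN

open Equiv

set_option linter.unusedSectionVars false

/-- total weight of a set of classes -/
noncomputable def GS (x : ENNReal) (S : Set NetC) : ENNReal := ∑' q : S, x ^ size q.1

/-- total weight of all classes -/
noncomputable def GA (x : ENNReal) : ENNReal := ∑' q : NetC, x ^ size q

/-- the class of the empty net -/
def E0 : NetC := Quotient.mk _ emptyNet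

theorem size_E0 : size E0 = 0 := rfl

section

variable {x : ENNReal} {S T U : Set NetC}

theorem GS_eq : GS x S = ∑' q, S.indicator (fun q => x ^ size q) q :=
  tsum_subtype S (fun q => x ^ size q)

theorem GS_le : GS x S ≤ GA x :=
  ENNReal.tsum_comp_le_tsum_of_injective (f := fun q : S => q.1) Subtype.val_injective
    (fun q => x ^ size q)

theorem GS_mono (h : S ⊆ T) : GS x S ≤ GS x T := by
  rw [GS_eq, GS_eq]
  exact ENNReal.tsum_le_tsum (fun q => Set.indicator_le_indicator_of_subset h (fun _ => zero_le) q)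

theorem GS_add (h : ∀ q, q ∈ S → q ∈ T → False) (hS : S ⊆ U) (hT : T ⊆ U) :
    GS x S + GS x T ≤ GS x U := by
  rw [GS_eq, GS_eq, GS_eq, ← ENNReal.tsum_add]
  refine ENNReal.tsum_le_tsum (fun q => ?_)
  by_cases h1 : q ∈ S
  · have h2 : q ∉ T := fun k => h q h1 k
    rw [Set.indicator_of_mem h1, Set.indicator_of_notMem h2, add_zero,
      Set.indicator_of_mem (hS h1)]
  · rw [Set.indicator_of_notMem h1, zero_add]
    by_cases h2 : q ∈ T
    · rw [Set.indicator_of_mem h2, Set.indicator_of_mem (hT h2)]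
    · rw [Set.indicator_of_notMem h2]; exact zero_le

theorem GS_univ : GS x Set.univ = GA x := by
  rw [GS_eq]; simp [GA]

theorem GS_singleton : GS x {E0} = 1 := by
  unfold GS
  rw [tsum_singleton E0 (fun q => x ^ size q), size_E0, pow_zero]

/-- A map to classes which becomes injective together with a finite label. -/
theorem GS_ge {β γ : Type} [Fintype γ] (g : β → NetC) (c : β → γ) (hg : ∀ b, g b ∈ S)
    (hinj : ∀ b b', g b = g b' → c b = c b' → b = b') :
    ∑' b, x ^ size (g b) ≤ Fintype.card γ * GS x S := by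
  have h1 := ENNReal.tsum_comp_le_tsum_of_injective
    (f := fun b : β => ((⟨g b, hg b⟩, c b) : S × γ)) (by
      intro b b' e
      simp only [Prod.mk.injEq, Subtype.mk.injEq] at e
      exact hinj b b' e.1 e.2) (fun p : S × γ => x ^ size p.1.1)
  refine h1.trans (le_of_eq ?_)
  rw [ENNReal.tsum_prod (f := fun (s : S) (_ : γ) => x ^ size s.1)]
  simp only [tsum_fintype, Finset.sum_const, Finset.card_univ, nsmul_eq_mul]
  rw [ENNReal.tsum_mul_left]
  rfl

end

/-! ### Series composition -/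

/-- `r` is the series composition of the irreducible `q₁` and of `q₂` -/
def Ser (q₁ q₂ r : NetC) : Prop :=
  ∃ (m₁ m₂ m : Net) (d₁ : Fin (4 * m₁.V)) (d₂ : Fin (4 * m₂.V)) (d : Fin (4 * m.V)),
    Quotient.mk _ m₁ = q₁ ∧ Quotient.mk _ m₂ = q₂ ∧ Quotient.mk _ m = r ∧
    m₁.root = some d₁ ∧ m₂.root = some d₂ ∧ m.root = some d ∧ Irr m₁.σ m₁.α d₁ ∧
    m.V = m₁.V + m₂.V ∧
    RIso (sumRot m₁.σ m₂.σ) (sumEdge m₁.α m₂.α d₁ d₂) (Sum.inl d₁) m.σ m.α d

theorem net_rooted {m : Net} {d : Fin (4 * m.V)} (h : m.root = some d) :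
    IsRooted m.V m.σ m.α d :=
  isRooted_all (Fintype.card_fin _) (Net.sona h) d

theorem eq_E0 {m : Net} (h : m.root = none) : (Quotient.mk _ m : NetC) = E0 :=
  Quotient.sound (netIso_empty h)

theorem ser_exists {q₁ q₂ : NetC} (h₁ : IrrC q₁) (h₂ : q₂ ≠ E0) : ∃ r, Ser q₁ q₂ r := by
  obtain ⟨m₁, hm₁, d₁, hd₁, hI⟩ := h₁
  obtain ⟨m₂, rfl⟩ := Quotient.exists_rep q₂
  rcases hd : m₂.root with _ | d₂
  · exact absurd (eq_E0 hd) h₂
  have hs := (isRooted_sum (net_rooted hd₁) (net_rooted hd)).1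
  have hc : Fintype.card (Fin (4 * m₁.V) ⊕ Fin (4 * m₂.V)) = 4 * (m₁.V + m₂.V) := by
    rw [Fintype.card_sum, Fintype.card_fin, Fintype.card_fin]; ring
  exact ⟨Quotient.mk _ (mkNet hs hc (Sum.inl d₁)), m₁, m₂, mkNet hs hc (Sum.inl d₁), d₁, d₂, _,
    hm₁, rfl, rfl, hd₁, hd, rfl, hI, rfl, mkNet_riso hs hc _⟩

theorem ser_size {q₁ q₂ r : NetC} (h : Ser q₁ q₂ r) : size r = size q₁ + size q₂ := by
  obtain ⟨m₁, m₂, m, d₁, d₂, d, rfl, rfl, rfl, -, -, -, -, h, -⟩ := h
  exact h

theorem ser_ne {q₁ q₂ r : NetC} (h : Ser q₁ q₂ r) : r ≠ E0 := by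
  obtain ⟨m₁, m₂, m, d₁, d₂, d, rfl, rfl, rfl, -, -, hd, -, h, -⟩ := h
  intro e
  have h1 : m.V = 0 := NetIso.size (Quotient.exact e)
  exact absurd d.2 (by omega)

theorem irr_ne {q : NetC} (h : IrrC q) : q ≠ E0 := by
  obtain ⟨m, rfl, d, hd, -⟩ := h
  intro e
  have h1 : m.V = 0 := NetIso.size (Quotient.exact e)
  exact absurd d.2 (by omega)

theorem ser_not_irr {q₁ q₂ r : NetC} (h : Ser q₁ q₂ r) : ¬ IrrC r := by
  obtain ⟨m₁, m₂, m, d₁, d₂, d, rfl, rfl, rfl, h1, h2, hd, -, -, h⟩ := h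
  intro hI
  rw [irrC_mk] at hI
  obtain ⟨d', hd', hI⟩ := hI
  rw [hd] at hd'
  obtain rfl := Option.some.inj hd'
  obtain ⟨e, he, hr⟩ := h
  have := (cut_sum (d₁ := d₁) (d₂ := d₂) (Net.sona h1) (Net.sona h2)).map he
  rw [hr] at this
  exact hI _ _ this

theorem ser_unique {q₁ q₂ q₁' q₂' r : NetC} (h : Ser q₁ q₂ r) (h' : Ser q₁' q₂' r) :
    q₁ = q₁' ∧ q₂ = q₂' := by
  obtain ⟨m₁, m₂, m, d₁, d₂, d, rfl, rfl, rfl, h1, h2, h3, h4, h5, h6⟩ := h
  obtain ⟨n₁, n₂, n, e₁, e₂, e, rfl, rfl, hn, g1, g2, g3, g4, g5, g6⟩ := h'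
  have hmn := (netIso_iff_of_root g3 h3).1 (Quotient.exact hn)
  have := first_factor (net_rooted h1) (net_rooted h2) (net_rooted g1) (net_rooted g2) h4 g4
    ((h6.trans hmn.symm).trans g6.symm)
  exact ⟨Quotient.sound ((netIso_iff_of_root h1 g1).2 this.1),
    Quotient.sound ((netIso_iff_of_root h2 g2).2 this.2)⟩

/-- **Series inequality.** -/
theorem series_ineq (x : ENNReal) : 1 + GS x {q | IrrC q} * GA x ≤ GA x := by
  classical
  have key : ∀ p : {q : NetC // IrrC q} × NetC, ∃ r : NetC,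
      (p.2 = E0 ∧ r = p.1.1) ∨ (p.2 ≠ E0 ∧ Ser p.1.1 p.2 r) := by
    intro p
    by_cases h : p.2 = E0
    · exact ⟨_, Or.inl ⟨h, rfl⟩⟩
    · obtain ⟨r, hr⟩ := ser_exists p.1.2 h
      exact ⟨r, Or.inr ⟨h, hr⟩⟩
  choose g hg using key
  have hsize : ∀ p, size (g p) = size p.1.1 + size p.2 := by
    intro p
    rcases hg p with ⟨h1, h2⟩ | ⟨-, h2⟩
    · rw [h2, h1, size_E0, add_zero]
    · exact ser_size h2
  have hne : ∀ p, g p ∈ {q : NetC | q ≠ E0} := by
    intro p
    rcases hg p with ⟨h1, h2⟩ | ⟨-, h2⟩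
    · rw [h2]; exact irr_ne p.1.2
    · exact ser_ne h2
  have hinj : ∀ p p', g p = g p' → () = () → p = p' := by
    intro p p' e _
    rcases hg p with ⟨h1, h2⟩ | ⟨h1, h2⟩
    · rcases hg p' with ⟨h3, h4⟩ | ⟨h3, h4⟩
      · refine Prod.ext (Subtype.ext ?_) (h1.trans h3.symm)
        rw [← h2, ← h4, e]
      · exfalso
        rw [← e, h2] at h4
        exact ser_not_irr h4 p.1.2
    · rcases hg p' with ⟨h3, h4⟩ | ⟨h3, h4⟩
      · exfalso
        rw [e, h4] at h2
        exact ser_not_irr h2 p'.1.2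
      · rw [e] at h2
        obtain ⟨h5, h6⟩ := ser_unique h2 h4
        exact Prod.ext (Subtype.ext h5) h6
  have h1 := GS_ge (x := x) (γ := Unit) g (fun _ => ()) hne hinj
  simp only [hsize, Fintype.card_unit, Nat.cast_one, one_mul] at h1
  have h2 : ∑' (b : {q : NetC // IrrC q} × NetC), x ^ (size b.1.1 + size b.2)
      = GS x {q | IrrC q} * GA x := by
    simp only [pow_add]
    rw [ENNReal.tsum_prod (f := fun (a : {q : NetC // IrrC q}) (b : NetC) => x ^ size a.1 * x ^ size b)]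
    simp only [ENNReal.tsum_mul_left]
    rw [ENNReal.tsum_mul_right]
    rfl
  rw [h2] at h1
  have h3 := GS_add (x := x) (S := {E0}) (T := {q | q ≠ E0}) (U := Set.univ)
    (fun q h h' => h' h) (Set.subset_univ _) (Set.subset_univ _)
  rw [GS_singleton, GS_univ] at h3
  exact le_trans (add_le_add le_rfl h1) h3

/-! ### Filled cores -/

section CoreSet

variable {K : Type} [Fintype K] [DecidableEq K]

/-- classes obtained by filling the core `H` -/
def coreSet (H : Core K) : Set NetC :=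
  {q | ∃ M : K → NetC, q = Quotient.mk _ (fillNet H (fun k => (M k).out))}

/-- rooted automorphisms of the core -/
def IsAut (H : Core K) (φ : CD K ≃ CD K) : Prop :=
  GraphIso H.ρ (flipP K) H.ρ (flipP K) φ ∧ φ (none, true) = (none, true)

theorem coreSet_irr (H : Core K) : coreSet H ⊆ {q | IrrC q} := by
  rintro _ ⟨M, rfl⟩
  refine ⟨_, rfl, _, rfl, ?_⟩
  exact irr_of_riso (mkNet_riso _ _ _) (irr_fill H _)

theorem aut_some {K' : Type} {φ : CD K ≃ CD K'} (h1 : ∀ y, φ (flipP K y) = flipP K' (φ y))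
    (h2 : φ (none, true) = (none, true)) (k : K) : ∃ k' b', φ (some k, true) = (some k', b') := by
  rcases h : φ (some k, true) with ⟨_ | k', b'⟩
  · exfalso
    have h3 : φ (none, false) = (none, false) := by
      have := h1 (none, true)
      rw [h2] at this
      exact this
    cases b' with
    | true =>
      have := φ.injective (h.trans h2.symm)
      simp at this
    | false =>
      have := φ.injective (h.trans h3.symm)
      simp at this
  · exact ⟨k', b', rfl⟩

/-- weights of families -/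
theorem tsum_family (n : ℕ) (x : ENNReal) :
    ∑' M : Fin n → NetC, x ^ (∑ k, size (M k)) = GA x ^ n := by
  induction n with
  | zero => simp
  | succ n ih =>
    rw [← (Fin.consEquiv (fun _ => NetC)).tsum_eq]
    have : ∀ p : NetC × (Fin n → NetC),
        x ^ (∑ k, size ((Fin.consEquiv (fun _ => NetC)) p k))
        = x ^ size p.1 * x ^ (∑ k, size (p.2 k)) := by
      intro p
      rw [Fin.sum_univ_succ, pow_add]
      rfl
    simp only [this]
    rw [ENNReal.tsum_prod (f := fun (a : NetC) (M : Fin n → NetC) =>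
      x ^ size a * x ^ (∑ k, size (M k)))]
    simp only [ENNReal.tsum_mul_left, ih]
    rw [ENNReal.tsum_mul_right, pow_succ']
    rfl

theorem decodeC {K' : Type} [Fintype K'] [DecidableEq K'] {H : Core K} {H' : Core K'}
    {M : K → NetC} {M' : K' → NetC}
    (h : (Quotient.mk _ (fillNet H (fun k => (M k).out)) : NetC) =
      Quotient.mk _ (fillNet H' (fun k => (M' k).out))) :
    ∃ φ : CD K ≃ CD K', GraphIso H.ρ (flipP K) H'.ρ (flipP K') φ ∧ φ (none, true) = (none, true) ∧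
      ∀ k k' b', φ (some k, true) = (some k', b') →
        M k = Quotient.mk _ (if b' then (M' k').out else revNet (M' k').out) := by
  obtain ⟨φ, h1, h2, h3⟩ := decode (Quotient.exact h)
  refine ⟨φ, h1, h2, fun k k' b' hk => ?_⟩
  rw [← Quotient.out_eq (M k)]
  exact Quotient.sound (h3 k k' b' hk)

/-- cores that are not isomorphic as rooted graphs give disjoint families -/
theorem coreSet_disjoint {K' : Type} [Fintype K'] [DecidableEq K'] {H : Core K} {H' : Core K'}
    (h : ∀ φ : CD K ≃ CD K', GraphIso H.ρ (flipP K) H'.ρ (flipP K') φ →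
      φ (none, true) = (none, true) → False) (q : NetC) (h1 : q ∈ coreSet H)
    (h2 : q ∈ coreSet H') : False := by
  obtain ⟨M, rfl⟩ := h1
  obtain ⟨M', hM'⟩ := h2
  obtain ⟨φ, g1, g2, -⟩ := decodeC hM'
  exact h φ g1 g2

end CoreSet

/-- **Core inequality.** -/
theorem core_ineq {n : ℕ} (H : Core (Fin n)) {γ : Type} [Fintype γ]
    (c : (CD (Fin n) ≃ CD (Fin n)) → γ)
    (hc : ∀ φ ψ, IsAut H φ → IsAut H ψ → c φ = c ψ → φ = ψ) (x : ENNReal) :
    x ^ H.V * GA x ^ n ≤ Fintype.card γ * GS x (coreSet H) := by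
  classical
  set g : (Fin n → NetC) → NetC := fun M => Quotient.mk _ (fillNet H (fun k => (M k).out)) with hg
  have hbase : ∀ q : NetC, ∃ M : Fin n → NetC, (∃ M', g M' = q) → g M = q := by
    intro q
    by_cases h : ∃ M', g M' = q
    · obtain ⟨M', h'⟩ := h
      exact ⟨M', fun _ => h'⟩
    · exact ⟨fun _ => E0, fun k => absurd k h⟩
  choose B hB using hbase
  have hφ : ∀ M : Fin n → NetC, ∃ φ : CD (Fin n) ≃ CD (Fin n), IsAut H φ ∧
      ∀ k k' b', φ (some k, true) = (some k', b') →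
        M k = Quotient.mk _ (if b' then (B (g M) k').out else revNet (B (g M) k').out) := by
    intro M
    have h1 : g M = g (B (g M)) := (hB (g M) ⟨M, rfl⟩).symm
    obtain ⟨φ, a1, a2, a3⟩ := decodeC h1
    exact ⟨φ, ⟨a1, a2⟩, a3⟩
  choose φ hφ1 hφ2 using hφ
  have h1 := GS_ge (x := x) (S := coreSet H) g (fun M => c (φ M)) (fun M => ⟨M, rfl⟩) (by
    intro M M' e ec
    have e2 := hc _ _ (hφ1 M) (hφ1 M') ec
    funext k
    obtain ⟨k', b', hk⟩ := aut_some (hφ1 M).1.1 (hφ1 M).2 k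
    rw [hφ2 M k k' b' hk, e]
    rw [e2] at hk
    exact (hφ2 M' k k' b' hk).symm)
  refine le_trans (le_of_eq ?_) h1
  rw [← tsum_family, ← ENNReal.tsum_mul_left]
  refine tsum_congr (fun M => ?_)
  rw [← pow_add]
  congr 1
  have h2 : size (g M) = H.V + ∑ k, (M k).out.V := rfl
  rw [h2]
  congr 1
  refine Finset.sum_congr rfl (fun k _ => ?_)
  rw [← size_mk, Quotient.out_eq]

end Pool.Agent.Lib_helper40.SN
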