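import Pool.Agent.Lib_helper40.SN.Cores
import Pool.Agent.Lib_helper40.SN.All

/-! Loops: the two orientations of a net inserted in a loop give the same class. -/

namespace Pool.Agent.Lib_helper40.SN

open Equiv

set_option linter.unusedSectionVars false

/-- reversal of classes -/
def revC : NetC → NetC := Quotient.map revNet (fun _ _ h => netIso_rev h)

theorem revC_mk (m : Net) : revC (Quotient.mk _ m) = Quotient.mk _ (revNet m) := rfl

theorem revC_E0 : revC E0 = E0 := eq_E0 rfl

/-- palindromic classes -/
def Pal : Set NetC := {q | revC q = q}

/-- the net with a loop -/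
noncomputable def LL (q : NetC) : NetC := Quotient.mk _ (fillNet loCore (fun _ => q.out))

theorem size_LL (q : NetC) : size (LL q) = 1 + size q := by
  have : size (LL q) = loCore.V + ∑ _k : Fin 1, q.out.V := rfl
  rw [this]
  simp only [Finset.univ_unique, Finset.sum_singleton]
  have h2 : q.out.V = size q := by rw [← size_mk, Quotient.out_eq]
  rw [h2]
  rfl

theorem LL_mem (q : NetC) : LL q ∈ coreSet loCore := ⟨fun _ => q, rfl⟩

theorem mem_lo {q : NetC} (h : q ∈ coreSet loCore) : ∃ q', q = LL q' := by
  obtain ⟨M, rfl⟩ := h
  refine ⟨M 0, ?_⟩
  have : M = fun _ => M 0 := by funext i; rw [Subsingleton.elim i 0]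
  rw [this]
  rfl

theorem LL_fiber {q q' : NetC} (h : LL q = LL q') : q = q' ∨ q = revC q' := by
  obtain ⟨φ, g1, g2, g3⟩ := decodeC (M := fun _ : Fin 1 => q) (M' := fun _ : Fin 1 => q') h
  obtain ⟨k', b', hk⟩ := aut_some g1.1 g2 0
  have := g3 0 k' b' hk
  cases b' with
  | true =>
    left
    have h2 : q = Quotient.mk _ q'.out := this
    rw [h2, Quotient.out_eq]
  | false =>
    right
    have h2 : q = Quotient.mk _ (revNet q'.out) := this
    rw [h2, ← revC_mk, Quotient.out_eq]

theorem LL_pal (q : NetC) : revC (LL q) = LL q := by
  classical
  unfold LL
  rw [revC_mk]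
  refine Quotient.sound ?_
  set M : Fin 1 → Net := fun _ => q.out with hM
  have hroot : (revNet (fillNet loCore M)).root = some ((fillNet loCore M).α
      (Fintype.equivFinOfCardEq (card_FD loCore) (Sum.inl (none, true)))) := rfl
  refine (netIso_iff_of_root hroot rfl).2 ?_
  have hroot2 : (fillNet loCore M).α (Fintype.equivFinOfCardEq (card_FD loCore)
      (Sum.inl (none, true))) = Fintype.equivFinOfCardEq (card_FD (M := M) loCore)
      (Sum.inl (none, false)) := by
    have := (permCongr_conj (Fintype.equivFinOfCardEq (card_FD (M := M) loCore))
      (edgeP M Finset.univ) (Sum.inl (none, true))).symm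
    exact this
  rw [hroot2]
  have r1 : RIso (rotG M loCore) (edgeP M Finset.univ) (Sum.inl (none, false))
      (fillNet loCore M).σ (fillNet loCore M).α
      (Fintype.equivFinOfCardEq (card_FD (M := M) loCore) (Sum.inl (none, false))) :=
    ⟨_, graphIso_permCongr _ _ _, rfl⟩
  have r2 : RIso (rotG M loCore) (edgeP M Finset.univ) (Sum.inl (none, true))
      (fillNet loCore M).σ (fillNet loCore M).α
      (Fintype.equivFinOfCardEq (card_FD (M := M) loCore) (Sum.inl (none, true))) :=
    ⟨_, graphIso_permCongr _ _ _, rfl⟩
  refine r1.symm.trans (RIso.trans ?_ r2)
  -- the swap of the two root darts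
  set s : Perm (FD M) := swap (Sum.inl (none, true)) (Sum.inl (none, false)) with hs
  have hloop : loCore.ρ.SameCycle ((none, true) : CD (Fin 1)) (none, false) :=
    (sameCycle_iff_v (H := loCore) (v := loV) (by decide) (by decide) _ _).2 (by decide)
  have hsame : ∀ x : FD M, (rotG M loCore).SameCycle x (s x) := by
    intro x
    by_cases h1 : x = Sum.inl (none, true)
    · rw [h1, hs, swap_apply_left]
      exact (sameCycle_rotG_inl loCore _ _).2 hloop
    · by_cases h2 : x = Sum.inl (none, false)
      · rw [h2, hs, swap_apply_right]
        exact (sameCycle_rotG_inl loCore _ _).2 hloop.symm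
      · rw [hs, swap_apply_of_ne_of_ne h1 h2]
  refine ⟨s, ⟨fun x => ?_, fun x y => ?_⟩, by rw [hs, swap_apply_right]⟩
  · by_cases h1 : x = Sum.inl (none, true)
    · rw [h1]
      have e1 : edgeP M Finset.univ (Sum.inl (none, true)) = Sum.inl (none, false) := rfl
      have e2 : edgeP M Finset.univ (Sum.inl (none, false)) = Sum.inl (none, true) := rfl
      rw [e1, hs, swap_apply_right, swap_apply_left, e2]
    · by_cases h2 : x = Sum.inl (none, false)
      · rw [h2]
        have e1 : edgeP M Finset.univ (Sum.inl (none, true)) = Sum.inl (none, false) := rfl
        have e2 : edgeP M Finset.univ (Sum.inl (none, false)) = Sum.inl (none, true) := rfl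
        rw [e2, hs, swap_apply_right, swap_apply_left, e1]
      · have h3 : edgeP M Finset.univ x ≠ Sum.inl (none, true) := by
          intro e
          have := congrArg (edgeP M Finset.univ) e
          rw [edgeP_apply, edgeP_apply, ef_invol x] at this
          exact h2 this
        have h4 : edgeP M Finset.univ x ≠ Sum.inl (none, false) := by
          intro e
          have := congrArg (edgeP M Finset.univ) e
          rw [edgeP_apply, edgeP_apply, ef_invol x] at this
          exact h1 this
        rw [hs, swap_apply_of_ne_of_ne h3 h4, swap_apply_of_ne_of_ne h1 h2]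
  · exact ⟨fun h => ((hsame x).symm.trans h).trans (hsame y),
      fun h => ((hsame x).trans h).trans (hsame y).symm⟩

theorem pal_ge (x : ENNReal) : 1 + GS x (coreSet loCore) ≤ GS x Pal := by
  have := GS_add (x := x) (S := {E0}) (T := coreSet loCore) (U := Pal) ?_ ?_ ?_
  · rwa [GS_singleton] at this
  · intro q h1 h2
    exact irr_ne (coreSet_irr loCore h2) h1
  · rintro q rfl
    exact revC_E0
  · intro q h
    obtain ⟨q', rfl⟩ := mem_lo h
    exact LL_pal q'

/-- **Loop inequality.** -/
theorem loop_ineq (x : ENNReal) :
    x * (GA x + GS x Pal) ≤ 2 * GS x (coreSet loCore) := by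
  classical
  have hbase : ∀ q : NetC, ∃ p : NetC, (∃ p', LL p' = q) → LL p = q := by
    intro q
    by_cases h : ∃ p', LL p' = q
    · obtain ⟨p', h'⟩ := h
      exact ⟨p', fun _ => h'⟩
    · exact ⟨E0, fun k => absurd k h⟩
  choose B hB using hbase
  have hBL : ∀ q, LL (B (LL q)) = LL q := fun q => hB _ ⟨q, rfl⟩
  set T : Set (NetC × Bool) := {p | p.2 = true ∨ p.1 ∈ Pal} with hT
  have h1 := GS_ge (x := x) (S := coreSet loCore) (β := T) (γ := Bool) (fun p => LL p.1.1)
    (fun p => if p.1.2 then decide (p.1.1 = B (LL p.1.1)) else false) (fun p => LL_mem _) (by
    rintro ⟨⟨q, b⟩, hq⟩ ⟨⟨q', b'⟩, hq'⟩ e ec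
    simp only at e ec
    have hqB := LL_fiber (hBL q)
    have hqB' := LL_fiber (hBL q')
    have hqq := LL_fiber e
    have main : q = q' := by
      rcases hqq with h | h
      · exact h
      · -- q = rev q'
        cases b with
        | false =>
          have hp : revC q = q := by
            rcases hq with k | k
            · cases k
            · exact k
          rcases LL_fiber e.symm with h2 | h2
          · exact h2.symm
          · rw [hp] at h2; exact h2.symm
        | true =>
          cases b' with
          | false =>
            have hp : revC q' = q' := by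
              rcases hq' with k | k
              · cases k
              · exact k
            rw [hp] at h; exact h
          | true =>
            simp only [if_true] at ec
            by_cases k1 : q = B (LL q)
            · have k2 : q' = B (LL q') := by
                have := ec.symm.trans (decide_eq_true k1)
                exact of_decide_eq_true this
              rw [k1, k2, e]
            · have k2 : ¬ q' = B (LL q') := by
                intro k2
                have := ec.trans (decide_eq_true k2)
                exact k1 (of_decide_eq_true this)
              rcases LL_fiber (hBL q).symm with m1 | m1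
              · exact absurd m1 k1
              · rcases LL_fiber (hBL q').symm with m2 | m2
                · exact absurd m2 k2
                · rw [m1, m2, e]
    subst main
    have hb : b = b' := by
      cases b with
      | true =>
        cases b' with
        | true => rfl
        | false =>
          exfalso
          have hp : revC q = q := by
            rcases hq' with k | k
            · cases k
            · exact k
          simp only [if_true, Bool.false_eq_true, if_false, decide_eq_false_iff_not] at ec
          rcases LL_fiber (hBL q) with m1 | m1
          · exact ec m1.symm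
          · rw [hp] at m1; exact ec m1.symm
      | false =>
        cases b' with
        | false => rfl
        | true =>
          exfalso
          have hp : revC q = q := by
            rcases hq with k | k
            · cases k
            · exact k
          simp only [if_true, Bool.false_eq_true, if_false] at ec
          have ec' := of_decide_eq_false ec.symm
          rcases LL_fiber (hBL q) with m1 | m1
          · exact ec' m1.symm
          · rw [hp] at m1; exact ec' m1.symm
    subst hb
    rfl)
  have h2 : ∑' p : T, x ^ size (LL p.1.1) = x * (GA x + GS x Pal) := by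
    simp only [size_LL, pow_add, pow_one]
    rw [ENNReal.tsum_mul_left]
    congr 1
    rw [tsum_subtype T (fun p : NetC × Bool => x ^ size p.1), GS_eq]
    unfold GA
    rw [← ENNReal.tsum_add, ENNReal.tsum_prod (f := fun (q : NetC) (b : Bool) =>
      T.indicator (fun p : NetC × Bool => x ^ size p.1) (q, b))]
    refine tsum_congr (fun q => ?_)
    rw [tsum_fintype, Fintype.sum_bool]
    have e1 : T.indicator (fun p : NetC × Bool => x ^ size p.1) (q, true) = x ^ size q :=
      Set.indicator_of_mem (show (q, true) ∈ T from Or.inl rfl) _
    rw [e1]
    congr 1
    by_cases hq : q ∈ Pal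
    · rw [Set.indicator_of_mem (show (q, false) ∈ T from Or.inr hq), Set.indicator_of_mem hq]
    · rw [Set.indicator_of_notMem, Set.indicator_of_notMem hq]
      rintro (k | k)
      · cases k
      · exact hq k
  rw [h2] at h1
  simpa using h1

end Pool.Agent.Lib_helper40.SN
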