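import Mathlib

/-! The final numerical contradiction. -/

namespace Pool.Agent.Lib_helper40.SN

theorem tangent {a b : ℝ} (ha : 0 ≤ a) (hb : 0 < b) (k : ℕ) :
    b ^ (k + 1) + (k + 1) * b ^ k * (a - b) ≤ a ^ (k + 1) := by
  have h1 : -2 ≤ a / b - 1 := by
    have : 0 ≤ a / b := div_nonneg ha hb.le
    linarith
  have h2 := one_add_mul_le_pow h1 (k + 1)
  have h3 : 1 + (a / b - 1) = a / b := by ring
  rw [h3, div_pow, le_div_iff₀ (by positivity)] at h2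
  refine le_trans (le_of_eq ?_) h2
  push_cast
  field_simp
  ring

theorem final5 {a i p s0 s3 s4 s5a s5b s6a s6b s6c : ℝ} (ha : 0 ≤ a)
    (h1 : 1 + i * a ≤ a)
    (h2 : s0 + s3 + s4 + s5a + s5b + s6a + s6b + s6c ≤ i)
    (h3 : 1 / 5 * (a + p) ≤ 2 * s0) (h4 : 1 + s0 ≤ p)
    (h5 : 12 * ((1 / 5) ^ 3 * a ^ 5) ≤ 48 * s3)
    (h6 : 16 * ((1 / 5) ^ 4 * a ^ 7) ≤ 32 * s4)
    (h7 : 20 * ((1 / 5) ^ 5 * a ^ 9) ≤ 320 * s5a)
    (h8 : 20 * ((1 / 5) ^ 5 * a ^ 9) ≤ 32 * s5b)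
    (h9 : 24 * ((1 / 5) ^ 6 * a ^ 11) ≤ 64 * s6a)
    (h10 : 24 * ((1 / 5) ^ 6 * a ^ 11) ≤ 16 * s6b)
    (h11 : 24 * ((1 / 5) ^ 6 * a ^ 11) ≤ 8 * s6c) : False := by
  have e0 : (a + 1) / 9 ≤ s0 := by linarith
  have hi : (a + 1) / 9 + a ^ 5 / 500 + a ^ 7 / 1250 + 11 / 50000 * a ^ 9 + 39 / 125000 * a ^ 11 ≤ i := by
    linarith
  have h12 : ((a + 1) / 9 + a ^ 5 / 500 + a ^ 7 / 1250 + 11 / 50000 * a ^ 9 +
      39 / 125000 * a ^ 11) * a ≤ i * a := mul_le_mul_of_nonneg_right hi ha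
  have t6 := tangent ha (show (0 : ℝ) < 3 / 2 by norm_num) 5
  have t8 := tangent ha (show (0 : ℝ) < 3 / 2 by norm_num) 7
  have t10 := tangent ha (show (0 : ℝ) < 3 / 2 by norm_num) 9
  have t12 := tangent ha (show (0 : ℝ) < 3 / 2 by norm_num) 11
  norm_num at t6 t8 t10 t12
  have h13 : ((a + 1) / 9 + a ^ 5 / 500 + a ^ 7 / 1250 + 11 / 50000 * a ^ 9 +
      39 / 125000 * a ^ 11) * a = (a ^ 2 + a) / 9 + a ^ 6 / 500 + a ^ 8 / 1250 +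
      11 / 50000 * a ^ 10 + 39 / 125000 * a ^ 12 := by ring
  rw [h13] at h12
  nlinarith [sq_nonneg (a - 3 / 2 + 6 / 25)]

end Pool.Agent.Lib_helper40.SN
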