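import Pool.Agent.Lib_helper40.SN.Main
import Pool.Agent.Lib_helper40.SN.Fin
import Pool.Agent.Lib_helper40.SN.Loops
import Pool.Agent.Lib_helper40.SN.C3a
import Pool.Agent.Lib_helper40.SN.C4a
import Pool.Agent.Lib_helper40.SN.C5a
import Pool.Agent.Lib_helper40.SN.C5b
import Pool.Agent.Lib_helper40.SN.C6a
import Pool.Agent.Lib_helper40.SN.C6b
import Pool.Agent.Lib_helper40.SN.C6c
import Pool.Agent.Lib_helper40.SN.Real5

/-! The growth rate is at least five. -/

namespace Pool.Agent.Lib_helper40.SN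

open Equiv Filter Topology

set_option linter.unusedSectionVars false

theorem lo_hv (y z : CD (Fin 1)) : loCore.ρ.SameCycle y z ↔ loV y = loV z :=
  sameCycle_iff_v (H := loCore) (v := loV) (by decide) (by decide) y z

/-- the families of irreducible nets that are used -/
noncomputable def fam : Fin 8 → Set NetC
  | 0 => coreSet loCore
  | 1 => allSet c3aCore
  | 2 => allSet c4aCore
  | 3 => allSet c5aCore
  | 4 => allSet c5bCore
  | 5 => allSet c6aCore
  | 6 => allSet c6bCore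
  | 7 => allSet c6cCore

/-- number of edges and of parallel pairs -/
def famSig : Fin 8 → ℕ × ℕ
  | 0 => (1, 0)
  | 1 => (5, 12)
  | 2 => (7, 8)
  | 3 => (9, 20)
  | 4 => (9, 12)
  | 5 => (11, 16)
  | 6 => (11, 12)
  | 7 => (11, 8)

theorem fam_sig (i : Fin 8) (h0 : i ≠ 0) (q : NetC) (h : q ∈ fam i) :
    FillOf (famSig i).1 (famSig i).2 q := by
  fin_cases i
  · exact absurd rfl h0
  · have := allSet_fillOf c3aCore h; rw [c3a_dbl] at this; exact this
  · have := allSet_fillOf c4aCore h; rw [c4a_dbl] at this; exact this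
  · have := allSet_fillOf c5aCore h; rw [c5a_dbl] at this; exact this
  · have := allSet_fillOf c5bCore h; rw [c5b_dbl] at this; exact this
  · have := allSet_fillOf c6aCore h; rw [c6a_dbl] at this; exact this
  · have := allSet_fillOf c6bCore h; rw [c6b_dbl] at this; exact this
  · have := allSet_fillOf c6cCore h; rw [c6c_dbl] at this; exact this

theorem fam_disjoint (i j : Fin 8) (q : NetC) (hi : q ∈ fam i) (hj : q ∈ fam j) : i = j := by
  have key : ∀ j : Fin 8, j ≠ 0 → (famSig j).1 ≠ 1 := by decide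
  have key2 : ∀ i j : Fin 8, famSig i = famSig j → i = j := by decide
  by_cases h0 : i = 0
  · by_cases h1 : j = 0
    · rw [h0, h1]
    · exfalso
      rw [h0] at hi
      have a1 : FillOf 1 (dbl loCore) q := coreSet_fillOf loCore hi
      have a2 := fam_sig j h1 q hj
      exact key j h1 (fillOf_unique a1 a2).1.symm
  · by_cases h1 : j = 0
    · exfalso
      rw [h1] at hj
      have a1 : FillOf 1 (dbl loCore) q := coreSet_fillOf loCore hj
      have a2 := fam_sig i h0 q hi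
      exact key i h0 (fillOf_unique a1 a2).1.symm
    · have a1 := fam_sig i h0 q hi
      have a2 := fam_sig j h1 q hj
      obtain ⟨b1, b2⟩ := fillOf_unique a1 a2
      exact key2 i j (Prod.ext b1 b2)

theorem fam_irr (i : Fin 8) : fam i ⊆ {q | IrrC q} := by
  fin_cases i
  · exact coreSet_irr loCore
  · exact allSet_irr c3aCore
  · exact allSet_irr c4aCore
  · exact allSet_irr c5aCore
  · exact allSet_irr c5bCore
  · exact allSet_irr c6aCore
  · exact allSet_irr c6bCore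
  · exact allSet_irr c6cCore

/-- The generating function of nets diverges at one fifth. -/
theorem GA_top : GA ((1 / 5 : NNReal) : ENNReal) = ⊤ := by
  by_contra hne
  set x : ENNReal := ((1 / 5 : NNReal) : ENNReal) with hx
  have hlt : GA x < ⊤ := lt_top_iff_ne_top.2 hne
  have fin : ∀ S : Set NetC, GS x S ≠ ⊤ := fun S => ne_top_of_le_ne_top hne GS_le
  have h1 := series_ineq x
  have h2 := GS_sum (x := x) fam fam_disjoint fam_irr
  rw [Fin.sum_univ_eight] at h2
  have h3 := loop_ineq x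
  have h4 := pal_ge x
  have h5 := c3a_bound x
  have h6 := c4a_bound x
  have h7 := c5a_bound x
  have h8 := c5b_bound x
  have h9 := c6a_bound x
  have h10 := c6b_bound x
  have h11 := c6c_bound x
  simp only [fam] at h2
  generalize hI : GS x {q | IrrC q} = I at h1 h2
  generalize hP : GS x Pal = P at h3 h4
  generalize hS0 : GS x (coreSet loCore) = S0 at h2 h3 h4
  generalize hS1 : GS x (allSet c3aCore) = S1 at h2 h5
  generalize hS2 : GS x (allSet c4aCore) = S2 at h2 h6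
  generalize hS3 : GS x (allSet c5aCore) = S3 at h2 h7
  generalize hS4 : GS x (allSet c5bCore) = S4 at h2 h8
  generalize hS5 : GS x (allSet c6aCore) = S5 at h2 h9
  generalize hS6 : GS x (allSet c6bCore) = S6 at h2 h10
  generalize hS7 : GS x (allSet c6cCore) = S7 at h2 h11
  generalize hA : GA x = A at *
  have fI : I ≠ ⊤ := hI ▸ fin _
  have fP : P ≠ ⊤ := hP ▸ fin _
  have f0 : S0 ≠ ⊤ := hS0 ▸ fin _
  have f1 : S1 ≠ ⊤ := hS1 ▸ fin _
  have f2 : S2 ≠ ⊤ := hS2 ▸ fin _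
  have f3 : S3 ≠ ⊤ := hS3 ▸ fin _
  have f4 : S4 ≠ ⊤ := hS4 ▸ fin _
  have f5 : S5 ≠ ⊤ := hS5 ▸ fin _
  have f6 : S6 ≠ ⊤ := hS6 ▸ fin _
  have f7 : S7 ≠ ⊤ := hS7 ▸ fin _
  clear hI hP hS0 hS1 hS2 hS3 hS4 hS5 hS6 hS7 hA fin
  lift A to NNReal using hne
  lift I to NNReal using fI
  lift P to NNReal using fP
  lift S0 to NNReal using f0
  lift S1 to NNReal using f1
  lift S2 to NNReal using f2
  lift S3 to NNReal using f3
  lift S4 to NNReal using f4
  lift S5 to NNReal using f5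
  lift S6 to NNReal using f6
  lift S7 to NNReal using f7
  rw [hx] at h3 h5 h6 h7 h8 h9 h10 h11
  have g1 : 1 + I * A ≤ A := by exact_mod_cast h1
  have g2 : S0 + S1 + S2 + S3 + S4 + S5 + S6 + S7 ≤ I := by exact_mod_cast h2
  have g3 : (1 / 5) * (A + P) ≤ 2 * S0 := by exact_mod_cast h3
  have g4 : 1 + S0 ≤ P := by exact_mod_cast h4
  have g5 : 12 * ((1 / 5) ^ 3 * A ^ 5) ≤ 48 * S1 := by exact_mod_cast h5
  have g6 : 16 * ((1 / 5) ^ 4 * A ^ 7) ≤ 32 * S2 := by exact_mod_cast h6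
  have g7 : 20 * ((1 / 5) ^ 5 * A ^ 9) ≤ 320 * S3 := by exact_mod_cast h7
  have g8 : 20 * ((1 / 5) ^ 5 * A ^ 9) ≤ 32 * S4 := by exact_mod_cast h8
  have g9 : 24 * ((1 / 5) ^ 6 * A ^ 11) ≤ 64 * S5 := by exact_mod_cast h9
  have g10 : 24 * ((1 / 5) ^ 6 * A ^ 11) ≤ 16 * S6 := by exact_mod_cast h10
  have g11 : 24 * ((1 / 5) ^ 6 * A ^ 11) ≤ 8 * S7 := by exact_mod_cast h11
  refine final5 (a := (A : ℝ)) (i := (I : ℝ)) (p := (P : ℝ)) (s0 := (S0 : ℝ)) (s3 := (S1 : ℝ))
    (s4 := (S2 : ℝ)) (s5a := (S3 : ℝ)) (s5b := (S4 : ℝ)) (s6a := (S5 : ℝ)) (s6b := (S6 : ℝ))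
    (s6c := (S7 : ℝ)) A.2 ?_ ?_ ?_ ?_ ?_ ?_ ?_ ?_ ?_ ?_ ?_
  · exact_mod_cast g1
  · exact_mod_cast g2
  · exact_mod_cast g3
  · exact_mod_cast g4
  · exact_mod_cast g5
  · exact_mod_cast g6
  · exact_mod_cast g7
  · exact_mod_cast g8
  · exact_mod_cast g9
  · exact_mod_cast g10
  · exact_mod_cast g11

theorem growth_ge_five {γ : ℝ}
    (h : Tendsto (fun n : ℕ => (rc n : ℝ) ^ (1 / (n : ℝ))) atTop (𝓝 γ)) : 5 ≤ γ := by
  by_contra hlt
  push Not at hlt
  obtain ⟨g, hg1, hg2⟩ := exists_between (max_lt hlt (show (1 : ℝ) < 5 by norm_num))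
  have hgγ : γ < g := lt_of_le_of_lt (le_max_left _ _) hg1
  have hgone : 1 < g := lt_of_le_of_lt (le_max_right _ _) hg1
  have ev := (tendsto_order.1 h).2 g hgγ
  obtain ⟨N, hN⟩ := eventually_atTop.1 ev
  have hlate : ∀ n : ℕ, N ≤ n → 1 ≤ n → (rc n : ℝ) ≤ g ^ n := by
    intro n hn hn1
    have h1 := (hN n hn).le
    have h2 : (0 : ℝ) ≤ rc n := Nat.cast_nonneg _
    have h3 : ((rc n : ℝ) ^ (1 / (n : ℝ))) ^ n ≤ g ^ n :=
      pow_le_pow_left₀ (Real.rpow_nonneg h2 _) h1 n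
    have hn0 : (n : ℝ) ≠ 0 := by
      have : (0 : ℝ) < n := by exact_mod_cast hn1
      exact ne_of_gt this
    rwa [← Real.rpow_natCast, ← Real.rpow_mul h2, one_div, inv_mul_cancel₀ hn0, Real.rpow_one] at h3
  set C : ℝ := 2 + ∑ n ∈ Finset.range (N + 1), ((rc n : ℝ) + 1) with hC
  have hCbound : ∀ n : ℕ, (rc n : ℝ) + 1 ≤ C * g ^ n := by
    intro n
    have hgn : 1 ≤ g ^ n := one_le_pow₀ hgone.le
    have hsum : ∀ n : ℕ, (0 : ℝ) ≤ (rc n : ℝ) + 1 := fun n => by positivity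
    by_cases hn : n < N + 1
    · have h1 : (rc n : ℝ) + 1 ≤ ∑ n ∈ Finset.range (N + 1), ((rc n : ℝ) + 1) :=
        Finset.single_le_sum (f := fun n => (rc n : ℝ) + 1) (fun i _ => hsum i)
          (Finset.mem_range.2 hn)
      nlinarith [hsum n]
    · have h1 := hlate n (by omega) (by omega)
      have h2 : (0 : ℝ) ≤ ∑ n ∈ Finset.range (N + 1), ((rc n : ℝ) + 1) :=
        Finset.sum_nonneg (fun i _ => hsum i)
      nlinarith
  have hC0 : 0 ≤ C := by
    have h2 : (0 : ℝ) ≤ ∑ n ∈ Finset.range (N + 1), ((rc n : ℝ) + 1) :=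
      Finset.sum_nonneg (fun i _ => by positivity)
    linarith
  have hg0 : 0 ≤ g := by linarith
  obtain ⟨g', hg'⟩ : ∃ g' : NNReal, (g' : ℝ) = g := ⟨⟨g, hg0⟩, rfl⟩
  obtain ⟨C', hC'⟩ : ∃ C' : NNReal, (C' : ℝ) = C := ⟨⟨C, hC0⟩, rfl⟩
  have hfin := GA_finite (x := ((1 / 5 : NNReal) : ENNReal)) (C := C') (g := g') (by
    intro V
    have := hCbound V
    rw [← hC', ← hg'] at this
    exact_mod_cast this) (by
    have h5 : g' * (1 / 5) < 1 := by
      rw [← NNReal.coe_lt_coe]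
      push_cast
      rw [hg']
      linarith
    exact_mod_cast h5)
  rw [GA_top] at hfin
  exact lt_irrefl _ hfin

end Pool.Agent.Lib_helper40.SN
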