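import Pool.Agent.Lib_helper40.SN.Upper2

/-! Exponential upper bound for the number of rooted classes: conclusion. -/

namespace Pool.Agent.Lib_helper40.SN

open Equiv

set_option linter.unusedSectionVars false

theorem rs_permCongr {D D' : Type} [Fintype D] [DecidableEq D] [Fintype D'] [DecidableEq D']
    (E : D ≃ D') {α : Perm D} (h : ∀ d, α (α d) = d)
    (h' : ∀ d, (E.permCongr α) ((E.permCongr α) d) = d) {A : Finset D} (hA : ∀ x ∈ A, α x ∈ A)
    (x : D) : rs (E.permCongr α) h' (A.map E.toEmbedding) (E x) = E (rs α h A x) := by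
  have hA' : ∀ x ∈ A.map E.toEmbedding, (E.permCongr α) x ∈ A.map E.toEmbedding := by
    intro y hy
    obtain ⟨x, hx, rfl⟩ := Finset.mem_map.1 hy
    refine Finset.mem_map.2 ⟨α x, hA x hx, ?_⟩
    exact permCongr_conj E _ x
  by_cases hx : x ∈ A
  · have hx' : E x ∈ A.map E.toEmbedding := Finset.mem_map.2 ⟨x, hx, rfl⟩
    rw [rs_of_mem hA hx, rs_of_mem hA' hx', ← permCongr_conj]
  · rw [rs_of_not_mem hx, rs_of_not_mem]
    intro hx'
    obtain ⟨z, hz, hz'⟩ := Finset.mem_map.1 hx'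
    exact hx (E.injective hz' ▸ hz)

theorem normal_form {V : ℕ} (m : RootedMap V) : ∃ m' : RootedMap V,
    (rootedSetoid V).r m m' ∧ ((m'.1.2 : Fin _) : ℕ) = 0 ∧ ∃ A : Finset (Fin (4 * V)),
      (∀ x ∈ A, m'.1.1.2 x ∈ A) ∧
      m'.1.1.1 * rs m'.1.1.2 m'.2.1.inv A = finRotate (4 * V) := by
  classical
  obtain ⟨A, hA, hfull⟩ := exists_tree (h := m.2.1.inv) m.2.1
  obtain ⟨E, hE, h0⟩ := exists_labelling (Fintype.card_fin (4 * V)) hfull m.1.2
  refine ⟨⟨((E.permCongr m.1.1.1, E.permCongr m.1.1.2), E m.1.2), isRooted_permCongr E m.2⟩,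
    ⟨E, graphIso_permCongr E _ _, rfl⟩, h0, A.map E.toEmbedding, ?_, ?_⟩
  · intro y hy
    obtain ⟨x, hx, rfl⟩ := Finset.mem_map.1 hy
    refine Finset.mem_map.2 ⟨m.1.1.2 x, hA x hx, ?_⟩
    exact permCongr_conj E _ x
  · apply Equiv.ext
    intro y
    obtain ⟨x, rfl⟩ := E.surjective y
    have h1 := rs_permCongr E m.2.1.inv (isRooted_permCongr E m.2).1.inv hA x
    have h2 := hE x
    rw [Perm.mul_apply, permCongr_conj] at h2
    exact (congrArg _ h1).trans h2

theorem nc_both {V : ℕ} {σ α : Perm (Fin (4 * V))} {d : Fin (4 * V)} (hm : IsRooted V σ α d)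
    {A : Finset (Fin (4 * V))} (hA : ∀ x ∈ A, α x ∈ A)
    (hprod : σ * rs α hm.1.inv A = finRotate (4 * V)) : NC α A ∧ NC α Aᶜ := by
  have hs := hm.1
  have hAc : ∀ x ∈ Aᶜ, α x ∈ Aᶜ := by
    intro x hx
    rw [Finset.mem_compl] at hx ⊢
    intro hx'
    have := hA _ hx'
    rw [hs.inv] at this
    exact hx this
  have e1 : finRotate (4 * V) * rs α hs.inv A = σ := by
    rw [← hprod, mul_assoc, rs_mul_self, mul_one]
  have e2 : finRotate (4 * V) * rs α hs.inv Aᶜ = σ * α := by
    rw [← hprod, mul_assoc, rs_mul_compl hA]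
  have hcyc : cyc (finRotate (4 * V)) = 1 := by
    have : Nonempty (Fin (4 * V)) := ⟨d⟩
    exact cyc_eq_one finRotate_full
  have b1 := cyc_rs_le (h := hs.inv) hs.nofix (finRotate (4 * V)) hA
  have b2 := cyc_rs_le (h := hs.inv) hs.nofix (finRotate (4 * V)) hAc
  have b3 := card_le_four_cyc hs
  have b4 := hs.planar
  have b5 : A.card + Aᶜ.card = 4 * V := by
    rw [Finset.card_add_card_compl, Fintype.card_fin]
  rw [Nat.card_eq_fintype_card, Fintype.card_fin] at b3
  rw [e1, hcyc] at b1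
  rw [e2, hcyc, b4] at b2
  constructor
  · refine nc_of_cyc hs.inv hs.nofix hA ?_
    rw [e1]; omega
  · refine nc_of_cyc hs.inv hs.nofix hAc ?_
    rw [e2]; omega

/-- **Exponential upper bound.** -/
theorem rc_le (V : ℕ) : rc V ≤ 256 ^ V := by
  classical
  unfold rc
  have key : ∀ q : Quotient (rootedSetoid V), ∃ m' : RootedMap V,
      Quotient.mk (rootedSetoid V) m' = q ∧ ((m'.1.2 : Fin _) : ℕ) = 0 ∧
      ∃ A : Finset (Fin (4 * V)), (∀ x ∈ A, m'.1.1.2 x ∈ A) ∧
      m'.1.1.1 * rs m'.1.1.2 m'.2.1.inv A = finRotate (4 * V) := by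
    intro q
    obtain ⟨m', h1, h2, h3⟩ := normal_form q.out
    refine ⟨m', ?_, h2, h3⟩
    rw [← Quotient.out_eq q]
    exact (Quotient.sound (s := rootedSetoid V) h1).symm
  choose m hm h0 A hA hprod using key
  have hinj : Function.Injective (fun (q : Quotient (rootedSetoid V)) (i : Fin (4 * V)) =>
      (decide (i ∈ A q), decide (i < (m q).1.1.2 i))) := by
    intro q q' e
    have e' : ∀ i, decide (i ∈ A q) = decide (i ∈ A q') ∧
        decide (i < (m q).1.1.2 i) = decide (i < (m q').1.1.2 i) := by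
      intro i
      have := congrFun e i
      simpa only [Prod.mk.injEq] using this
    have eA : A q = A q' := by
      ext i
      exact decide_eq_decide.1 (e' i).1
    have eo : ∀ i, i < (m q).1.1.2 i ↔ i < (m q').1.1.2 i := fun i => decide_eq_decide.1 (e' i).2
    obtain ⟨n1, n2⟩ := nc_both (m q).2 (hA q) (hprod q)
    obtain ⟨n1', n2'⟩ := nc_both (m q').2 (hA q') (hprod q')
    have hAc : ∀ (p : Quotient (rootedSetoid V)), ∀ x ∈ (A p)ᶜ, (m p).1.1.2 x ∈ (A p)ᶜ := by
      intro p x hx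
      rw [Finset.mem_compl] at hx ⊢
      intro hx'
      have := hA p _ hx'
      rw [(m p).2.1.inv] at this
      exact hx this
    have hAc' := hAc q'
    have hA' := hA q'
    have hp' := hprod q'
    rw [← eA] at n1' n2' hAc' hA' hp'
    have eα : (m q).1.1.2 = (m q').1.1.2 := by
      ext i
      by_cases hi : i ∈ A q
      · rw [matching_eq (m q).2.1.inv (m q').2.1.inv (m q).2.1.nofix (m q').2.1.nofix (hA q) hA'
          n1 n1' (fun x _ => eo x) hi]
      · rw [matching_eq (m q).2.1.inv (m q').2.1.inv (m q).2.1.nofix (m q').2.1.nofix (hAc q) hAc'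
          n2 n2' (fun x _ => eo x) (Finset.mem_compl.2 hi)]
    have er : rs (m q).1.1.2 (m q).2.1.inv (A q) = rs (m q').1.1.2 (m q').2.1.inv (A q) := by
      ext x
      rw [rs_apply, rs_apply, eα]
    have eσ : (m q).1.1.1 = (m q').1.1.1 := by
      have h1 := hprod q
      rw [er, ← hp'] at h1
      exact mul_right_cancel h1
    have ed : (m q).1.2 = (m q').1.2 := Fin.ext ((h0 q).trans (h0 q').symm)
    have : m q = m q' := Subtype.ext (Prod.ext (Prod.ext eσ eα) ed)
    rw [← hm q, ← hm q', this]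
  have h := Nat.card_le_card_of_injective _ hinj
  refine h.trans (le_of_eq ?_)
  rw [Nat.card_eq_fintype_card, Fintype.card_fun, Fintype.card_fin, Fintype.card_prod,
    Fintype.card_bool, pow_mul]
  norm_num

end Pool.Agent.Lib_helper40.SN
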