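import Pool.Agent.Lib_helper40.SN.Base
import Pool.Agent.Lib_helper40.SN.Upper3
import Pool.Agent.Lib_helper40.SN.Analysis

/-! The growth rate of sona graphs exists. -/

namespace Pool.Agent.Lib_helper40.SN

open Filter Topology

theorem rc_pos' {V : ℕ} (hV : 1 ≤ V) : 0 < rc V := by
  have := rc_pos (V - 1)
  rwa [Nat.sub_add_cancel hV] at this

theorem uc_pos {V : ℕ} (hV : 1 ≤ V) : 0 < uc V := by
  have h1 := rc_le_uc V
  have h2 := rc_pos' hV
  have h3 : 0 < 4 * V * uc V := lt_of_lt_of_le h2 h1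
  exact Nat.pos_of_mul_pos_left h3

theorem exists_growth : ∃ L : ℝ, Tendsto (fun n : ℕ => Real.log (rc n) / n) atTop (𝓝 L) ∧
    ∀ n : ℕ, 1 ≤ n → Real.log (rc n) ≤ Real.log (16 * n) + n * L := by
  refine fekete (f := fun n => Real.log (rc n)) (M := Real.log 256) ?_ ?_ ?_
  · intro n hn
    exact Real.log_natCast_nonneg _
  · intro a b ha hb
    have h1 : (0 : ℝ) < rc a := by exact_mod_cast rc_pos' ha
    have h2 : (0 : ℝ) < rc b := by exact_mod_cast rc_pos' hb
    have h3 : (0 : ℝ) < rc (a + b) := by exact_mod_cast rc_pos' (by omega)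
    have h4 : (0 : ℝ) < (a : ℝ) := by exact_mod_cast ha
    rw [← Real.log_mul (ne_of_gt h1) (ne_of_gt h2), ← Real.log_mul (by positivity) (ne_of_gt h3)]
    refine Real.log_le_log (by positivity) ?_
    exact_mod_cast rc_mul_le a b
  · intro n
    rcases Nat.eq_zero_or_pos n with hn | hn
    · subst hn
      have : rc 0 ≤ 1 := by simpa using rc_le 0
      have h1 : (rc 0 : ℝ) ≤ 1 := by exact_mod_cast this
      have := Real.log_nonpos (Nat.cast_nonneg _) h1
      simpa using this
    · have h1 : (0 : ℝ) < rc n := by exact_mod_cast rc_pos' hn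
      rw [← Real.log_pow]
      exact Real.log_le_log h1 (by exact_mod_cast rc_le n)

theorem exists_limit : ∃ γ : ℝ, Tendsto (fun n : ℕ => (sona n : ℝ) ^ (1 / (n : ℝ))) atTop (𝓝 γ) ∧
    Tendsto (fun n : ℕ => (rc n : ℝ) ^ (1 / (n : ℝ))) atTop (𝓝 γ) ∧
    ∀ n : ℕ, 2 ≤ n → (sona n : ℝ) ≤ 16 * (n - 1) * γ ^ (n - 1) := by
  obtain ⟨L, hlim, hle⟩ := exists_growth
  refine ⟨Real.exp L, ?_, ?_, ?_⟩
  · -- the unrooted count
    have hlog0 : Tendsto (fun n : ℕ => Real.log (4 * (n : ℝ)) / n) atTop (𝓝 0) := by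
      have t1 : Tendsto (fun n : ℕ => Real.log (n : ℝ) / n) atTop (𝓝 0) := by
        have := (Real.isLittleO_log_id_atTop).tendsto_div_nhds_zero
        exact this.comp tendsto_natCast_atTop_atTop
      have t2 : Tendsto (fun n : ℕ => Real.log 4 / (n : ℝ)) atTop (𝓝 0) :=
        tendsto_const_div_atTop_nhds_zero_nat _
      have t3 := t2.add t1
      rw [add_zero] at t3
      refine t3.congr' ?_
      filter_upwards [eventually_ge_atTop 1] with n hn
      have : (0 : ℝ) < n := by exact_mod_cast hn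
      rw [Real.log_mul (by norm_num) (ne_of_gt this), add_div]
    have hu : Tendsto (fun n : ℕ => Real.log (uc n) / n) atTop (𝓝 L) := by
      have t1 := hlim.sub hlog0
      rw [sub_zero] at t1
      refine tendsto_of_tendsto_of_tendsto_of_le_of_le' t1 hlim ?_ ?_
      · filter_upwards [eventually_ge_atTop 1] with n hn
        have h0 : (0 : ℝ) < n := by exact_mod_cast hn
        have h1 : (0 : ℝ) < rc n := by exact_mod_cast rc_pos' hn
        have h2 : (0 : ℝ) < uc n := by exact_mod_cast uc_pos hn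
        rw [← sub_div]
        refine div_le_div_of_nonneg_right ?_ (le_of_lt h0)
        rw [sub_le_iff_le_add, ← Real.log_mul (ne_of_gt h2) (by positivity)]
        refine Real.log_le_log h1 ?_
        have := rc_le_uc n
        have h3 : (rc n : ℝ) ≤ 4 * n * uc n := by exact_mod_cast this
        linarith
      · filter_upwards [eventually_ge_atTop 1] with n hn
        have h0 : (0 : ℝ) < n := by exact_mod_cast hn
        have h2 : (0 : ℝ) < uc n := by exact_mod_cast uc_pos hn
        refine div_le_div_of_nonneg_right ?_ (le_of_lt h0)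
        exact Real.log_le_log h2 (by exact_mod_cast uc_le_rc n)
    have hs : Tendsto (fun n : ℕ => Real.log (uc n) / ((n + 1 : ℕ) : ℝ)) atTop (𝓝 L) := by
      have t1 : Tendsto (fun n : ℕ => (n : ℝ) / ((n + 1 : ℕ) : ℝ)) atTop (𝓝 1) := by
        simpa using tendsto_natCast_div_add_atTop (1 : ℝ)
      have t2 := hu.mul t1
      rw [mul_one] at t2
      refine t2.congr' ?_
      filter_upwards [eventually_ge_atTop 1] with n hn
      have h0 : (n : ℝ) ≠ 0 := by
        have : (0 : ℝ) < n := by exact_mod_cast hn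
        exact ne_of_gt this
      rw [div_mul_div_comm, mul_comm (n : ℝ), mul_div_mul_right _ _ h0]
    have he := (Real.continuous_exp.tendsto L).comp hs
    rw [← tendsto_add_atTop_iff_nat 1]
    refine he.congr' ?_
    filter_upwards [eventually_ge_atTop 1] with n hn
    obtain ⟨k, rfl⟩ : ∃ k, n = k + 1 := ⟨n - 1, by omega⟩
    have h2 : (0 : ℝ) < uc (k + 1) := by exact_mod_cast uc_pos (by omega)
    simp only [Function.comp]
    rw [show sona (k + 1 + 1) = uc (k + 1) from rfl, Real.rpow_def_of_pos h2]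
    congr 1
    ring
  · have he := (Real.continuous_exp.tendsto L).comp hlim
    refine he.congr' ?_
    filter_upwards [eventually_ge_atTop 1] with n hn
    have h1 : (0 : ℝ) < rc n := by exact_mod_cast rc_pos' hn
    simp only [Function.comp]
    rw [Real.rpow_def_of_pos h1]
    congr 1
    ring
  · intro n hn
    obtain ⟨k, rfl⟩ : ∃ k, n = k + 2 := ⟨n - 2, by omega⟩
    have h1 := hle (k + 1) (by omega)
    have h2 : (0 : ℝ) < rc (k + 1) := by exact_mod_cast rc_pos' (by omega)
    have h3 : (uc (k + 1) : ℝ) ≤ rc (k + 1) := by exact_mod_cast uc_le_rc (k + 1)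
    rw [sona_succ]
    refine h3.trans ?_
    have h4 : (0 : ℝ) < 16 * ((k + 1 : ℕ) : ℝ) := by positivity
    have h5 := (Real.log_le_iff_le_exp h2).1 h1
    rw [Real.exp_add, Real.exp_log h4, Real.exp_nat_mul] at h5
    have e1 : ((k + 2 : ℕ) : ℝ) - 1 = ((k + 1 : ℕ) : ℝ) := by push_cast; ring
    have e2 : k + 2 - 1 = k + 1 := by omega
    rw [e1, e2]
    exact h5

end Pool.Agent.Lib_helper40.SN
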