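import Pool.Agent.Lib_helper40.SN.Gen

/-! Checking concrete cores. -/

namespace Pool.Agent.Lib_helper40.SN

open Equiv

set_option linter.unusedSectionVars false

section Sw

variable {D : Type} [Finite D] [DecidableEq D]

/-- product of transpositions -/
def sw : List (D × D) → Perm D
  | [] => 1
  | p :: L => sw L * swap p.1 p.2

theorem cyc_sw (L : List (D × D)) : Nat.card D ≤ cyc (sw L) + L.length := by
  induction L with
  | nil => simp only [sw, cyc_one]; simp
  | cons p L ih =>
    have := cyc_le_mul_swap (sw L) p.1 p.2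
    simp only [sw, List.length_cons]
    omega

end Sw

section Path

variable {D : Type} [DecidableEq D] (σ α : Perm D)

/-- consecutive darts of the list are joined by the curve -/
def linked : List D → Bool
  | [] => true
  | [_] => true
  | a :: b :: l => (decide (b = σ (σ a)) || decide (b = α a)) && linked (b :: l)

theorem linked_mem {σ α : Perm D} (hσ : ∀ d, σ (σ (σ (σ d))) = d) (hα : ∀ d, α (α d) = d)
    {S : Set D} (h1 : ∀ d ∈ S, σ (σ d) ∈ S) (h2 : ∀ d ∈ S, α d ∈ S) :
    ∀ (l : List D) (a : D), linked σ α (a :: l) = true → ∀ b ∈ a :: l, (a ∈ S ↔ b ∈ S) := by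
  intro l
  induction l with
  | nil =>
    intro a _ b hb
    rw [List.mem_singleton] at hb
    rw [hb]
  | cons c l ih =>
    intro a hl b hb
    simp only [linked, Bool.and_eq_true, Bool.or_eq_true, decide_eq_true_eq] at hl
    have hac : a ∈ S ↔ c ∈ S := by
      rcases hl.1 with h | h
      · rw [h]
        exact ⟨fun k => h1 _ k, fun k => by have := h1 _ k; rwa [hσ] at this⟩
      · rw [h]
        exact ⟨fun k => h2 _ k, fun k => by have := h2 _ k; rwa [hα] at this⟩
    rw [List.mem_cons] at hb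
    rcases hb with hb | hb
    · rw [hb]
    · exact hac.trans (ih c hl.2 b hb)

theorem linked_univ {σ α : Perm D} (hσ : ∀ d, σ (σ (σ (σ d))) = d) (hα : ∀ d, α (α d) = d)
    {l : List D} (hl : linked σ α l = true) (hm : ∀ d, d ∈ l)
    (S : Set D) (hS : S.Nonempty) (h1 : ∀ d ∈ S, σ (σ d) ∈ S) (h2 : ∀ d ∈ S, α d ∈ S) :
    S = Set.univ := by
  obtain ⟨s, hs⟩ := hS
  cases l with
  | nil => exact absurd (hm s) (by simp)
  | cons a l =>
    have key := linked_mem hσ hα h1 h2 l a hl
    ext z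
    simp only [Set.mem_univ, iff_true]
    exact (key z (hm z)).1 ((key s (hm s)).2 hs)

end Path

/-- A core from checkable data. -/
def mkCore {n V : ℕ} (ρ : Perm (CD (Fin n))) (v : CD (Fin n) → Fin V)
    (hcard : 2 * (n + 1) = 4 * V)
    (rot4 : ∀ y, ρ (ρ (ρ (ρ y))) = y) (rot2 : ∀ y, ρ (ρ y) ≠ y)
    (vρ : ∀ y, v (ρ y) = v y)
    (vinj : ∀ y z, v y = v z → z = y ∨ z = ρ y ∨ z = ρ (ρ y) ∨ z = ρ (ρ (ρ y)))
    (L : List (CD (Fin n) × CD (Fin n))) (fac : ∀ y, ρ (flipP (Fin n) y) = sw L y)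
    (len : L.length + 2 ≤ 3 * V)
    (l : List (CD (Fin n))) (hl : linked ρ (flipP (Fin n)) l = true) (hm : ∀ d, d ∈ l)
    (cut : ∀ w : Fin V → Bool, (∃ i, w i = true) → (∃ i, w i = false) →
      2 < (Finset.univ.filter (fun y : CD (Fin n) =>
        w (v y) = true ∧ w (v (flipP (Fin n) y)) = false)).card) :
    Core (Fin n) where
  V := V
  ρ := ρ
  card := by
    rw [Fintype.card_prod, Fintype.card_option, Fintype.card_fin, Fintype.card_bool]; omega
  sona := by
    have hflip : ∀ y, flipP (Fin n) (flipP (Fin n) y) = y := by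
      rintro ⟨e, b⟩; simp [flipP_apply]
    have hc : Fintype.card (CD (Fin n)) = 4 * V := by
      rw [Fintype.card_prod, Fintype.card_option, Fintype.card_fin, Fintype.card_bool]; omega
    have : Nonempty (CD (Fin n)) := ⟨(none, true)⟩
    refine isSona_of_le hc rot4 rot2 hflip ?_ ?_ (linked_univ rot4 hflip hl hm)
    · rintro ⟨e, b⟩; simp [flipP_apply]
    · have e : ρ * flipP (Fin n) = sw L := Equiv.ext fac
      rw [e]
      have := cyc_sw L
      rw [Nat.card_eq_fintype_card, hc] at this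
      omega
  cut3 := by
    classical
    intro U hne hun hU
    have h1 : ∀ y z, v y = v z → y ∈ U → z ∈ U := by
      intro y z h hy
      rcases vinj y z h with rfl | rfl | rfl | rfl
      · exact hy
      · exact hU _ hy
      · exact hU _ (hU _ hy)
      · exact hU _ (hU _ (hU _ hy))
    set w : Fin V → Bool := fun i => decide (∃ y, v y = i ∧ y ∈ U) with hw
    have hwv : ∀ y, w (v y) = true ↔ y ∈ U := by
      intro y
      simp only [hw, decide_eq_true_eq]
      constructor
      · rintro ⟨z, hz, hzU⟩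
        exact h1 z y hz hzU
      · intro h; exact ⟨y, rfl, h⟩
    obtain ⟨y, hy⟩ := hne
    have hun' : ∃ z, z ∉ U := by
      by_contra hn
      push Not at hn
      exact hun (Set.eq_univ_of_forall hn)
    obtain ⟨z, hz⟩ := hun'
    have h2 := cut w ⟨v y, (hwv y).2 hy⟩ ⟨v z, by
      rw [← Bool.not_eq_true, hwv]; exact hz⟩
    rw [Finset.two_lt_card_iff] at h2
    obtain ⟨a, b, c, ha, hb, hc, hab, hac, hbc⟩ := h2
    simp only [Finset.mem_filter, Finset.mem_univ, true_and, hwv] at ha hb hc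
    refine ⟨a, b, c, ha.1, hb.1, hc.1, ?_, ?_, ?_, hab, hac, hbc⟩
    · rw [← hwv, ha.2]; simp
    · rw [← hwv, hb.2]; simp
    · rw [← hwv, hc.2]; simp

section Rigid

variable {n V : ℕ} {H : Core (Fin n)} {v : CD (Fin n) → Fin V}

theorem sameCycle_iff_v (vρ : ∀ y, v (H.ρ y) = v y)
    (vinj : ∀ y z, v y = v z → z = y ∨ z = H.ρ y ∨ z = H.ρ (H.ρ y) ∨ z = H.ρ (H.ρ (H.ρ y)))
    (y z : CD (Fin n)) : H.ρ.SameCycle y z ↔ v y = v z := by
  constructor
  · intro h
    exact mem_of_sameCycle (g := H.ρ) (S := {z | v y = v z})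
      (fun z hz => by rw [Set.mem_ofPred_eq, vρ]; exact hz) h rfl
  · intro h
    have s1 := sameCycle_apply H.ρ y
    have s2 := sameCycle_apply H.ρ (H.ρ y)
    have s3 := sameCycle_apply H.ρ (H.ρ (H.ρ y))
    rcases vinj y z h with rfl | rfl | rfl | rfl
    · exact Perm.SameCycle.refl _ _
    · exact s1
    · exact s1.trans s2
    · exact (s1.trans s2).trans s3

theorem aut_v {n' V' : ℕ} {H' : Core (Fin n')} {v' : CD (Fin n') → Fin V'}
    (hv : ∀ y z, H.ρ.SameCycle y z ↔ v y = v z)
    (hv' : ∀ y z, H'.ρ.SameCycle y z ↔ v' y = v' z) {φ : CD (Fin n) ≃ CD (Fin n')}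
    (h : GraphIso H.ρ (flipP (Fin n)) H'.ρ (flipP (Fin n')) φ) (y z : CD (Fin n)) :
    v y = v z ↔ v' (φ y) = v' (φ z) := by
  rw [← hv, ← hv', h.2]

theorem rigid (hv : ∀ y z, H.ρ.SameCycle y z ↔ v y = v z) (B : CD (Fin n) → Bool)
    (hB : ∀ y, ∃ z, B z = true ∧ v z = v y)
    (hP : ∀ y z, B y = false → B z = false → v z = v y →
      v (flipP (Fin n) z) = v (flipP (Fin n) y) → z = y)
    {φ ψ : CD (Fin n) ≃ CD (Fin n)} (hφ : IsAut H φ) (hψ : IsAut H ψ)
    (h : ∀ y, B y = true → φ y = ψ y) : φ = ψ := by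
  have hvv : ∀ y, v (ψ.symm (φ y)) = v y := by
    intro y
    obtain ⟨z, hz, hzy⟩ := hB y
    have h1 := (aut_v hv hv hφ.1 z y).1 hzy
    rw [h z hz] at h1
    have h2 := aut_v hv hv hψ.1 z (ψ.symm (φ y))
    rw [Equiv.apply_symm_apply] at h2
    rw [← h2.2 h1, hzy]
  apply Equiv.ext
  intro y
  by_cases hy : B y = true
  · exact h y hy
  · set z := ψ.symm (φ y) with hz
    have hz' : ψ z = φ y := by rw [hz, Equiv.apply_symm_apply]
    have hBz : B z = false := by
      rw [← Bool.not_eq_true]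
      intro k
      have := h z k
      rw [hz'] at this
      exact hy (φ.injective this ▸ k)
    have hfl : flipP (Fin n) z = ψ.symm (φ (flipP (Fin n) y)) := by
      rw [Equiv.eq_symm_apply, hψ.1.1, hz', hφ.1.1]
    have := hP y z (by rw [← Bool.not_eq_true]; exact hy) hBz (hvv y) (by rw [hfl]; exact hvv _)
    rw [← hz', this]

theorem aut_root {φ : CD (Fin n) ≃ CD (Fin n)} (h : IsAut H φ) :
    φ (none, true) = (none, true) ∧ φ (none, false) = (none, false) := by
  refine ⟨h.2, ?_⟩
  have := h.1.1 (none, true)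
  rw [h.2] at this
  exact this

end Rigid

end Pool.Agent.Lib_helper40.SN
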