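import Pool.Agent.Lib_helper40.SN.Euler

/-! Nets: rooted sona maps (an edge is cut open) or the empty net; classes of nets. -/

namespace Pool.Agent.Lib_helper40.SN

open Equiv

set_option linter.unusedSectionVars false

/-- A net: the empty one, or a sona map with a root dart. -/
structure Net : Type where
  V : ℕ
  σ : Perm (Fin (4 * V))
  α : Perm (Fin (4 * V))
  root : Option (Fin (4 * V))
  ok : (V = 0 ∧ root = none) ∨ ((∃ d, root = some d) ∧ IsSona V σ α)

/-- isomorphism of nets -/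
def NetIso (m m' : Net) : Prop :=
  ∃ e : Fin (4 * m.V) ≃ Fin (4 * m'.V), GraphIso m.σ m.α m'.σ m'.α e ∧ m.root.map e = m'.root

instance netSetoid : Setoid Net where
  r := NetIso
  iseqv :=
    { refl := fun m => ⟨Equiv.refl _, ⟨fun _ => rfl, fun _ _ => Iff.rfl⟩, by simp⟩
      symm := by
        rintro m m' ⟨e, h, hr⟩
        refine ⟨e.symm, graphIso_symm h, ?_⟩
        rw [← hr, Option.map_map]
        simp
      trans := by
        rintro m m' m'' ⟨e, h, hr⟩ ⟨f, g, gr⟩
        refine ⟨e.trans f, graphIso_trans h g, ?_⟩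
        rw [← gr, ← hr, Option.map_map]
        rfl }

/-- classes of nets -/
abbrev NetC : Type := Quotient netSetoid

theorem NetIso.size {m m' : Net} (h : NetIso m m') : m.V = m'.V := by
  obtain ⟨e, -, -⟩ := h
  have := Fintype.card_congr e
  rw [Fintype.card_fin, Fintype.card_fin] at this
  omega

/-- number of vertices -/
def size (q : NetC) : ℕ := Quotient.lift (fun m : Net => m.V) (fun _ _ h => NetIso.size h) q

theorem size_mk (m : Net) : size (Quotient.mk _ m) = m.V := rfl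

/-- the empty net -/
def emptyNet : Net := ⟨0, 1, 1, none, Or.inl ⟨rfl, rfl⟩⟩

theorem netIso_empty {m : Net} (h : m.root = none) : NetIso m emptyNet := by
  rcases m.ok with ⟨h1, -⟩ | ⟨⟨d, hd⟩, -⟩
  · obtain ⟨V, σ, α, root, ok⟩ := m
    simp only at h1 h
    subst h1
    subst h
    refine ⟨Equiv.refl _, ⟨fun d => absurd d.2 (by simp), fun d => absurd d.2 (by simp)⟩, rfl⟩
  · rw [h] at hd; cases hd

theorem Net.sona {m : Net} {d : Fin (4 * m.V)} (h : m.root = some d) : IsSona m.V m.σ m.α := by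
  rcases m.ok with ⟨-, h1⟩ | ⟨-, h1⟩
  · rw [h] at h1; cases h1
  · exact h1

/-- the reversed net: the other dart of the root edge becomes the root -/
def revNet (m : Net) : Net := ⟨m.V, m.σ, m.α, m.root.map m.α, by
  rcases m.ok with ⟨h1, h2⟩ | ⟨⟨d, hd⟩, h2⟩
  · exact Or.inl ⟨h1, by rw [h2]; rfl⟩
  · exact Or.inr ⟨⟨m.α d, by rw [hd]; rfl⟩, h2⟩⟩

theorem netIso_rev {m m' : Net} (h : NetIso m m') : NetIso (revNet m) (revNet m') := by
  obtain ⟨e, h, hr⟩ := h
  refine ⟨e, h, ?_⟩
  simp only [revNet]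
  rw [← hr, Option.map_map, Option.map_map]
  congr 1
  funext z
  exact h.1 z

section Mk

variable {D D' : Type} [Fintype D] [Fintype D'] {V V' : ℕ}

/-- a rooted sona map on any type of darts, as a net -/
noncomputable def mkNet {σ α : Perm D} (hs : IsSona V σ α) (hc : Fintype.card D = 4 * V) (d : D) :
    Net :=
  ⟨V, (Fintype.equivFinOfCardEq hc).permCongr σ, (Fintype.equivFinOfCardEq hc).permCongr α,
    some (Fintype.equivFinOfCardEq hc d), Or.inr ⟨⟨_, rfl⟩, isSona_permCongr _ hs⟩⟩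

/-- isomorphism of rooted structures on arbitrary types -/
def RIso {D D' : Type} (σ α : Perm D) (d : D) (σ' α' : Perm D') (d' : D') : Prop :=
  ∃ e : D ≃ D', GraphIso σ α σ' α' e ∧ e d = d'

theorem RIso.symm {D D' : Type} [Finite D] [Finite D'] {σ α : Perm D} {d : D} {σ' α' : Perm D'} {d' : D'}
    (h : RIso σ α d σ' α' d') : RIso σ' α' d' σ α d := by
  obtain ⟨e, h, hr⟩ := h
  exact ⟨e.symm, graphIso_symm h, by rw [← hr, Equiv.symm_apply_apply]⟩

theorem RIso.trans {D D' D'' : Type} [Finite D] [Finite D'] [Finite D''] {σ α : Perm D} {d : D} {σ' α' : Perm D'} {d' : D'}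
    {σ'' α'' : Perm D''} {d'' : D''}
    (h : RIso σ α d σ' α' d') (h' : RIso σ' α' d' σ'' α'' d'') : RIso σ α d σ'' α'' d'' := by
  obtain ⟨e, h, hr⟩ := h
  obtain ⟨e', h', hr'⟩ := h'
  exact ⟨e.trans e', graphIso_trans h h', by rw [Equiv.trans_apply, hr, hr']⟩

theorem mkNet_riso {σ α : Perm D} (hs : IsSona V σ α) (hc : Fintype.card D = 4 * V) (d : D) :
    RIso σ α d (mkNet hs hc d).σ (mkNet hs hc d).α (Fintype.equivFinOfCardEq hc d) :=
  ⟨Fintype.equivFinOfCardEq hc, graphIso_permCongr _ _ _, rfl⟩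

theorem netIso_iff_of_root {m m' : Net} {d : Fin (4 * m.V)} {d' : Fin (4 * m'.V)}
    (h : m.root = some d) (h' : m'.root = some d') :
    NetIso m m' ↔ RIso m.σ m.α d m'.σ m'.α d' := by
  constructor
  · rintro ⟨e, he, hr⟩
    refine ⟨e, he, ?_⟩
    rw [h, h'] at hr
    exact Option.some.inj hr
  · rintro ⟨e, he, hr⟩
    refine ⟨e, he, ?_⟩
    rw [h, h', ← hr]
    rfl

theorem netIso_mkNet_iff {σ α : Perm D} {hs : IsSona V σ α} {hc : Fintype.card D = 4 * V} {d : D}
    {σ' α' : Perm D'} {hs' : IsSona V' σ' α'} {hc' : Fintype.card D' = 4 * V'} {d' : D'} :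
    NetIso (mkNet hs hc d) (mkNet hs' hc' d') ↔ RIso σ α d σ' α' d' := by
  rw [netIso_iff_of_root rfl rfl]
  constructor
  · intro h
    exact ((mkNet_riso hs hc d).trans h).trans (mkNet_riso hs' hc' d').symm
  · intro h
    exact ((mkNet_riso hs hc d).symm.trans h).trans (mkNet_riso hs' hc' d')

theorem netIso_mkNet_self {m : Net} {d : Fin (4 * m.V)} (h : m.root = some d)
    (hc : Fintype.card (Fin (4 * m.V)) = 4 * m.V) :
    NetIso m (mkNet (Net.sona h) hc d) :=
  (netIso_iff_of_root h rfl).2 (mkNet_riso _ _ _)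

end Mk

/-- A two-edge cut that contains the root edge. -/
structure Cut {D : Type} (σ α : Perm D) (d x : D) (T : Set D) : Prop where
  root : d ∈ T
  out : α d ∉ T
  rot : ∀ y ∈ T, σ y ∈ T
  mem : x ∈ T
  ne : x ≠ d
  xout : α x ∉ T
  edge : ∀ y ∈ T, y ≠ d → y ≠ x → α y ∈ T

/-- no series decomposition -/
def Irr {D : Type} (σ α : Perm D) (d : D) : Prop := ∀ x T, ¬ Cut σ α d x T

theorem closed_sameCycle {D : Type} [Finite D] {σ : Perm D} {T : Set D} (h : ∀ y ∈ T, σ y ∈ T)
    {a b : D} (hab : σ.SameCycle a b) : a ∈ T ↔ b ∈ T :=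
  ⟨fun ha => mem_of_sameCycle h hab ha, fun hb => mem_of_sameCycle h hab.symm hb⟩

theorem Cut.map {D D' : Type} [Finite D] [Finite D'] {σ α : Perm D} {d x : D} {T : Set D}
    {σ' α' : Perm D'} {e : D ≃ D'} (he : GraphIso σ α σ' α' e) (h : Cut σ α d x T) :
    Cut σ' α' (e d) (e x) (e.symm ⁻¹' T) := by
  obtain ⟨h1, h2⟩ := he
  have hα : ∀ z, e.symm (α' z) = α (e.symm z) := by
    intro z
    rw [Equiv.symm_apply_eq, h1, Equiv.apply_symm_apply]
  refine ⟨?_, ?_, ?_, ?_, ?_, ?_, ?_⟩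
  · simpa using h.root
  · intro k
    have : α d ∈ T := by simpa [hα] using k
    exact h.out this
  · intro y hy
    have hs : σ'.SameCycle y (σ' y) := sameCycle_apply σ' y
    have : σ.SameCycle (e.symm y) (e.symm (σ' y)) := by
      rw [h2, Equiv.apply_symm_apply, Equiv.apply_symm_apply]
      exact hs
    exact (closed_sameCycle h.rot this).1 hy
  · simpa using h.mem
  · intro k
    exact h.ne (e.injective k)
  · intro k
    have : α x ∈ T := by simpa [hα] using k
    exact h.xout this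
  · intro y hy h3 h4
    have := h.edge (e.symm y) hy (fun k => h3 (by rw [← k, Equiv.apply_symm_apply]))
      (fun k => h4 (by rw [← k, Equiv.apply_symm_apply]))
    simpa [hα] using this

theorem irr_of_riso {D D' : Type} [Finite D] [Finite D'] {σ α : Perm D} {d : D} {σ' α' : Perm D'}
    {d' : D'} (h : RIso σ α d σ' α' d') (hi : Irr σ α d) : Irr σ' α' d' := by
  intro x T hT
  obtain ⟨e, he, hr⟩ := h.symm
  have := hT.map he
  rw [hr] at this
  exact hi _ _ this

/-- irreducible nets -/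
def IrrN (m : Net) : Prop := ∃ d, m.root = some d ∧ Irr m.σ m.α d

theorem irrN_of_iso {m m' : Net} (h : NetIso m m') (hi : IrrN m) : IrrN m' := by
  obtain ⟨d, hd, hI⟩ := hi
  have : ∃ d', m'.root = some d' := by
    obtain ⟨e, -, hr⟩ := h
    exact ⟨e d, by rw [← hr, hd]; rfl⟩
  obtain ⟨d', hd'⟩ := this
  exact ⟨d', hd', irr_of_riso ((netIso_iff_of_root hd hd').1 h) hI⟩

/-- irreducible classes -/
def IrrC (q : NetC) : Prop := ∃ m : Net, Quotient.mk _ m = q ∧ IrrN m

theorem irrC_mk {m : Net} : IrrC (Quotient.mk _ m) ↔ IrrN m := by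
  constructor
  · rintro ⟨m', h1, h2⟩
    exact irrN_of_iso (Quotient.exact h1) h2
  · intro h
    exact ⟨m, rfl, h⟩

end Pool.Agent.Lib_helper40.SN
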