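import Pool.Agent.Lib_helper40.SN.Decode

/-! Series composition: the first irreducible factor is unique. -/

namespace Pool.Agent.Lib_helper40.SN

open Equiv

set_option linter.unusedSectionVars false

section Chain

variable {D : Type} [Finite D] {V : ℕ} {σ α : Perm D} {d x x' : D} {T T' : Set D}

theorem cut_sub (hs : IsSona V σ α) (h : Cut σ α d x T) (h' : Cut σ α d x' T') (hx : x ∈ T')
    (hx' : x' ∉ T ∨ x = x') : T ⊆ T' := by
  by_contra hn
  rw [Set.not_subset] at hn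
  obtain ⟨y0, hy0, hy0'⟩ := hn
  have := hs.conn (T \ T') ⟨y0, hy0, hy0'⟩ ?_ ?_
  · have hd : d ∈ T \ T' := this ▸ Set.mem_univ d
    exact hd.2 h'.root
  · rintro y ⟨hy, hy'⟩
    refine ⟨h.rot _ (h.rot _ hy), fun k => hy' ?_⟩
    have := h'.rot _ (h'.rot _ k)
    rwa [hs.rot4] at this
  · rintro y ⟨hy, hy'⟩
    have y1 : y ≠ d := fun e => hy' (e ▸ h'.root)
    have y2 : y ≠ x := fun e => hy' (e ▸ hx)
    have y3 := h.edge y hy y1 y2
    refine ⟨y3, fun k => hy' ?_⟩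
    have y4 : α y ≠ d := by
      intro e
      have : y = α d := by rw [← e, hs.inv]
      exact h.out (this ▸ hy)
    have y5 : α y ≠ x' := by
      intro e
      rcases hx' with k1 | k1
      · exact k1 (e ▸ y3)
      · have : y = α x := by rw [k1, ← e, hs.inv]
        exact h.xout (this ▸ hy)
    have := h'.edge _ k y4 y5
    rwa [hs.inv] at this

theorem cut_chain (hs : IsSona V σ α) (h : Cut σ α d x T) (h' : Cut σ α d x' T') :
    T ⊆ T' ∨ T' ⊆ T := by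
  by_cases hx : x ∈ T'
  · by_cases hx' : x' ∈ T
    · by_cases he : x = x'
      · exact Or.inl (cut_sub hs h h' hx (Or.inr he))
      · exfalso
        have := curve_path (d := d) hs (T := T ∪ T') ?_ ?_ (Or.inl h.root)
        · rcases this with k | k
          · exact h.out k
          · exact h'.out k
        · rintro z (hz | hz)
          · exact Or.inl (h.rot _ (h.rot _ hz))
          · exact Or.inr (h'.rot _ (h'.rot _ hz))
        · rintro z hz z1 z2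
          by_cases zx : z = x
          · subst zx
            exact Or.inr (h'.edge _ hx z1 he)
          · by_cases zx' : z = x'
            · subst zx'
              exact Or.inl (h.edge _ hx' z1 zx)
            · rcases hz with hz | hz
              · exact Or.inl (h.edge _ hz z1 zx)
              · exact Or.inr (h'.edge _ hz z1 zx')
    · exact Or.inl (cut_sub hs h h' hx (Or.inl hx'))
  · by_cases hx' : x' ∈ T
    · exact Or.inr (cut_sub hs h' h hx' (Or.inl hx))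
    · exfalso
      have := curve_path (d := d) hs (T := T ∩ T') ?_ ?_ ⟨h.root, h'.root⟩
      · exact h.out this.1
      · rintro z ⟨hz, hz'⟩
        exact ⟨h.rot _ (h.rot _ hz), h'.rot _ (h'.rot _ hz')⟩
      · rintro z ⟨hz, hz'⟩ z1 z2
        exact ⟨h.edge _ hz z1 (fun e => hx (e ▸ hz')), h'.edge _ hz' z1 (fun e => hx' (e ▸ hz))⟩

end Chain

section Sum

variable {D₁ D₂ D₁' D₂' : Type} [Finite D₁] [Finite D₂] [Finite D₁'] [Finite D₂']
  [DecidableEq D₁] [DecidableEq D₂] [DecidableEq D₁'] [DecidableEq D₂']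
  {V₁ V₂ V₁' V₂' : ℕ} {σ₁ α₁ : Perm D₁} {σ₂ α₂ : Perm D₂} {d₁ : D₁} {d₂ : D₂}
  {σ₁' α₁' : Perm D₁'} {σ₂' α₂' : Perm D₂'} {d₁' : D₁'} {d₂' : D₂'}

theorem cut_sum (h₁ : IsSona V₁ σ₁ α₁) (h₂ : IsSona V₂ σ₂ α₂) :
    Cut (sumRot σ₁ σ₂) (sumEdge α₁ α₂ d₁ d₂) (Sum.inl d₁) (Sum.inl (α₁ d₁)) (Set.range Sum.inl) := by
  refine ⟨⟨d₁, rfl⟩, ?_, ?_, ⟨_, rfl⟩, ?_, ?_, ?_⟩
  · rw [sumEdge_inl_root h₁.nofix]; simp
  · rintro _ ⟨z, rfl⟩
    exact ⟨σ₁ z, rfl⟩
  · intro e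
    exact h₁.nofix _ (Sum.inl.inj e)
  · rw [sumEdge_inl_root' h₂.nofix h₂.inv]; simp
  · rintro _ ⟨z, rfl⟩ h3 h4
    rw [sumEdge_inl (fun e => h3 (by rw [e])) (fun e => h4 (by rw [e]))]
    exact ⟨_, rfl⟩

/-- If the first factor is irreducible, a smaller cut equals the first factor. -/
theorem cut_in_left (h₁ : IsSona V₁ σ₁ α₁) (h₂ : IsSona V₂ σ₂ α₂) (hI : Irr σ₁ α₁ d₁)
    {x : D₁ ⊕ D₂} {T : Set (D₁ ⊕ D₂)}
    (hT : Cut (sumRot σ₁ σ₂) (sumEdge α₁ α₂ d₁ d₂) (Sum.inl d₁) x T) (hsub : T ⊆ Set.range Sum.inl) :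
    x = Sum.inl (α₁ d₁) := by
  by_cases hc : Sum.inl (α₁ d₁) ∈ T
  · by_contra hne
    have := hT.edge _ hc (fun e => h₁.nofix _ (Sum.inl.inj e)) (fun e => hne e.symm)
    rw [sumEdge_inl_root' h₂.nofix h₂.inv] at this
    obtain ⟨z, hz⟩ := hsub this
    cases hz
  · exfalso
    obtain ⟨z, rfl⟩ := hsub hT.mem
    refine hI z {w | Sum.inl w ∈ T} ⟨hT.root, hc, fun w hw => hT.rot _ hw, hT.mem, ?_, ?_, ?_⟩
    · intro e; exact hT.ne (by rw [e])
    · intro k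
      have h3 : z ≠ α₁ d₁ := by rintro rfl; exact hc hT.mem
      have := hT.xout
      rw [sumEdge_inl (fun e => hT.ne (by rw [e])) h3] at this
      exact this k
    · intro w hw h3 h4
      have h5 : w ≠ α₁ d₁ := by rintro rfl; exact hc hw
      have := hT.edge _ hw (fun e => h3 (Sum.inl.inj e)) (fun e => h4 (Sum.inl.inj e))
      rw [sumEdge_inl h3 h5] at this
      exact this

theorem left_to_left (h₁ : IsSona V₁ σ₁ α₁) (f : D₁ ⊕ D₂ ≃ D₁' ⊕ D₂')
    (hf : GraphIso (sumRot σ₁ σ₂) (sumEdge α₁ α₂ d₁ d₂) (sumRot σ₁' σ₂') (sumEdge α₁' α₂' d₁' d₂') f)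
    (hr : f (Sum.inl d₁) = Sum.inl d₁') (hc : f (Sum.inl (α₁ d₁)) = Sum.inl (α₁' d₁')) (x : D₁) :
    ∃ y : D₁', f (Sum.inl x) = Sum.inl y := by
  obtain ⟨hfα, hfσ⟩ := hf
  have := h₁.conn {x | ∃ y : D₁', f (Sum.inl x) = Sum.inl y} ⟨d₁, d₁', hr⟩ ?_ ?_
  · have hx : x ∈ {x | ∃ y : D₁', f (Sum.inl x) = Sum.inl y} := this ▸ Set.mem_univ x
    exact hx
  · rintro x ⟨y, hy⟩
    have hsc : (sumRot σ₁ σ₂).SameCycle (Sum.inl x) (Sum.inl (σ₁ (σ₁ x))) :=
      (sameCycle_sum_inl _ _ _ _).2 ((sameCycle_apply _ _).trans (sameCycle_apply _ _))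
    have := (hfσ _ _).1 hsc
    rw [hy] at this
    rcases hz : f (Sum.inl (σ₁ (σ₁ x))) with z | z
    · exact ⟨z, hz⟩
    · rw [hz] at this
      exact absurd this (not_sameCycle_inl_inr _ _ _ _)
  · rintro x ⟨y, hy⟩
    by_cases hx : x = d₁
    · rw [hx]; exact ⟨_, hc⟩
    · by_cases hx' : x = α₁ d₁
      · rw [hx', h₁.inv]; exact ⟨_, hr⟩
      · have hy1 : y ≠ d₁' := by
          rintro rfl
          exact hx (Sum.inl.inj (f.injective (hy.trans hr.symm)))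
        have hy2 : y ≠ α₁' d₁' := by
          rintro rfl
          exact hx' (Sum.inl.inj (f.injective (hy.trans hc.symm)))
        have := hfα (Sum.inl x)
        rw [sumEdge_inl hx hx', hy, sumEdge_inl hy1 hy2] at this
        exact ⟨_, this⟩

theorem iso_parts' (h₁ : IsSona V₁ σ₁ α₁) (h₂ : IsSona V₂ σ₂ α₂)
    (h₁' : IsSona V₁' σ₁' α₁') (h₂' : IsSona V₂' σ₂' α₂')
    (f : D₁ ⊕ D₂ ≃ D₁' ⊕ D₂')
    (hf : GraphIso (sumRot σ₁ σ₂) (sumEdge α₁ α₂ d₁ d₂) (sumRot σ₁' σ₂') (sumEdge α₁' α₂' d₁' d₂') f)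
    (hr : f (Sum.inl d₁) = Sum.inl d₁') (hc : f (Sum.inl (α₁ d₁)) = Sum.inl (α₁' d₁')) :
    RIso σ₁ α₁ d₁ σ₁' α₁' d₁' ∧ RIso σ₂ α₂ d₂ σ₂' α₂' d₂' := by
  have hl := left_to_left h₁ f hf hr hc
  have hl' := left_to_left h₁' f.symm (graphIso_symm hf) (by rw [← hr, Equiv.symm_apply_apply])
    (by rw [← hc, Equiv.symm_apply_apply])
  choose e₁ he₁ using hl
  obtain ⟨hfα, hfσ⟩ := hf
  have hinj : Function.Injective e₁ := by
    intro x y hxy
    have : f (Sum.inl x) = f (Sum.inl y) := by rw [he₁, he₁, hxy]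
    exact Sum.inl.inj (f.injective this)
  have hsurj : Function.Surjective e₁ := by
    intro y
    obtain ⟨x, hx⟩ := hl' y
    refine ⟨x, ?_⟩
    rw [Equiv.symm_apply_eq, he₁] at hx
    exact (Sum.inl.inj hx).symm
  have hright : ∀ x : D₂, ∃ y : D₂', f (Sum.inr x) = Sum.inr y := by
    intro x
    rcases hz : f (Sum.inr x) with z | z
    · exfalso
      obtain ⟨w, hw⟩ := hsurj z
      have : f (Sum.inr x) = f (Sum.inl w) := by rw [hz, he₁, hw]
      cases f.injective this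
    · exact ⟨z, rfl⟩
  choose e₂ he₂ using hright
  have hinj₂ : Function.Injective e₂ := by
    intro x y hxy
    have : f (Sum.inr x) = f (Sum.inr y) := by rw [he₂, he₂, hxy]
    exact Sum.inr.inj (f.injective this)
  have hsurj₂ : Function.Surjective e₂ := by
    intro y
    rcases hz : f.symm (Sum.inr y) with z | z
    · exfalso
      rw [Equiv.symm_apply_eq, he₁] at hz
      cases hz
    · rw [Equiv.symm_apply_eq, he₂] at hz
      exact ⟨z, (Sum.inr.inj hz).symm⟩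
  have hr₁ : e₁ d₁ = d₁' := Sum.inl.inj ((he₁ d₁).symm.trans hr)
  have hc₁ : e₁ (α₁ d₁) = α₁' d₁' := Sum.inl.inj ((he₁ _).symm.trans hc)
  have hc₂ : e₂ (α₂ d₂) = α₂' d₂' := by
    have := hfα (Sum.inl d₁)
    rw [sumEdge_inl_root h₁.nofix, hr, sumEdge_inl_root h₁'.nofix, he₂] at this
    exact Sum.inr.inj this
  have hr₂ : e₂ d₂ = d₂' := by
    have := hfα (Sum.inl (α₁ d₁))
    rw [sumEdge_inl_root' h₂.nofix h₂.inv, hc, sumEdge_inl_root' h₂'.nofix h₂'.inv, he₂] at this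
    exact Sum.inr.inj this
  have b₁ : Function.Bijective e₁ := ⟨hinj, hsurj⟩
  have b₂ : Function.Bijective e₂ := ⟨hinj₂, hsurj₂⟩
  refine ⟨⟨Equiv.ofBijective e₁ b₁, ⟨fun x => ?_, fun x y => ?_⟩, hr₁⟩,
    ⟨Equiv.ofBijective e₂ b₂, ⟨fun x => ?_, fun x y => ?_⟩, hr₂⟩⟩
  · simp only [Equiv.ofBijective_apply]
    by_cases hx : x = d₁
    · rw [hx, hc₁, hr₁]
    · by_cases hx' : x = α₁ d₁
      · rw [hx', h₁.inv, hr₁, hc₁, h₁'.inv]
      · have hy1 : e₁ x ≠ d₁' := fun e => hx (hinj (e.trans hr₁.symm))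
        have hy2 : e₁ x ≠ α₁' d₁' := fun e => hx' (hinj (e.trans hc₁.symm))
        have := hfα (Sum.inl x)
        rw [sumEdge_inl hx hx', he₁, he₁, sumEdge_inl hy1 hy2] at this
        exact Sum.inl.inj this
  · simp only [Equiv.ofBijective_apply]
    have := hfσ (Sum.inl x) (Sum.inl y)
    rw [he₁, he₁] at this
    exact (sameCycle_sum_inl _ _ _ _).symm.trans (this.trans (sameCycle_sum_inl _ _ _ _))
  · simp only [Equiv.ofBijective_apply]
    by_cases hx : x = d₂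
    · rw [hx, hc₂, hr₂]
    · by_cases hx' : x = α₂ d₂
      · rw [hx', h₂.inv, hr₂, hc₂, h₂'.inv]
      · have hy1 : e₂ x ≠ d₂' := fun e => hx (hinj₂ (e.trans hr₂.symm))
        have hy2 : e₂ x ≠ α₂' d₂' := fun e => hx' (hinj₂ (e.trans hc₂.symm))
        have := hfα (Sum.inr x)
        rw [sumEdge_inr hx hx', he₂, he₂, sumEdge_inr hy1 hy2] at this
        exact Sum.inr.inj this
  · simp only [Equiv.ofBijective_apply]
    have := hfσ (Sum.inr x) (Sum.inr y)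
    rw [he₂, he₂] at this
    exact (sameCycle_sum_inr _ _ _ _).symm.trans (this.trans (sameCycle_sum_inr _ _ _ _))

/-- **Unique first factor.** -/
theorem first_factor (h₁ : IsRooted V₁ σ₁ α₁ d₁) (h₂ : IsRooted V₂ σ₂ α₂ d₂)
    (h₁' : IsRooted V₁' σ₁' α₁' d₁') (h₂' : IsRooted V₂' σ₂' α₂' d₂')
    (hI : Irr σ₁ α₁ d₁) (hI' : Irr σ₁' α₁' d₁')
    (h : RIso (sumRot σ₁ σ₂) (sumEdge α₁ α₂ d₁ d₂) (Sum.inl d₁)
      (sumRot σ₁' σ₂') (sumEdge α₁' α₂' d₁' d₂') (Sum.inl d₁')) :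
    RIso σ₁ α₁ d₁ σ₁' α₁' d₁' ∧ RIso σ₂ α₂ d₂ σ₂' α₂' d₂' := by
  obtain ⟨f, hf, hr⟩ := h
  refine iso_parts' h₁.1 h₂.1 h₁'.1 h₂'.1 f hf hr ?_
  have c1 := (cut_sum (d₁ := d₁) (d₂ := d₂) h₁.1 h₂.1).map hf
  rw [hr] at c1
  have c2 := cut_sum (d₁ := d₁') (d₂ := d₂') h₁'.1 h₂'.1
  have hs' := (isRooted_sum h₁' h₂').1
  rcases cut_chain hs' c1 c2 with hsub | hsub
  · exact cut_in_left h₁'.1 h₂'.1 hI' c1 hsub
  · have c3 := c2.map (graphIso_symm hf)
    have hr' : f.symm (Sum.inl d₁') = Sum.inl d₁ := by rw [← hr, Equiv.symm_apply_apply]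
    rw [hr'] at c3
    have := cut_in_left h₁.1 h₂.1 hI c3 (by
      intro y hy
      have : f y ∈ Set.range Sum.inl := by simpa using hy
      have h5 := hsub this
      simpa using h5)
    rw [← this, Equiv.apply_symm_apply]

end Sum

/-- filled cores are irreducible -/
theorem irr_fill {K : Type} [Fintype K] [DecidableEq K] (H : Core K) (M : K → Net) :
    Irr (rotG M H) (edgeP M Finset.univ) (Sum.inl (none, true)) := by
  intro x T hT
  set U : Set (CD K) := {y | (Sum.inl y : FD M) ∈ T} with hU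
  have hUne : U.Nonempty := ⟨(none, true), hT.root⟩
  have hUun : U ≠ Set.univ := by
    intro e
    have : ((none, false) : CD K) ∈ U := e ▸ Set.mem_univ _
    exact hT.out this
  obtain ⟨y₁, y₂, y₃, a1, a2, a3, b1, b2, b3, c12, c13, c23⟩ :=
    H.cut3 U hUne hUun (fun y hy => hT.rot _ hy)
  have hedge : ∀ u v : CD K, u ∈ U → v ∈ U → flipP K u ∉ U → u ≠ v → u.1 ≠ v.1 := by
    intro u v hu hv hfu huv e
    refine hfu ?_
    have : flipP K u = v := by
      obtain ⟨e1, b1⟩ := u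
      obtain ⟨e2, b2⟩ := v
      simp only at e
      subst e
      rw [flipP_apply]
      have : b2 = !b1 := by
        cases b1 <;> cases b2 <;> simp_all
      rw [this]
    rw [this]; exact hv
  have hbd : ∀ u : CD K, u ∈ U → flipP K u ∉ U →
      ∃ z : FD M, (z = Sum.inl (none, true) ∨ z = x) ∧ Ext u.1 z := by
    intro u hu hfu
    obtain ⟨z, hz, hzo, hze⟩ := boundary_on_edge H (M := M) hT.rot (y := u) hu hfu
    refine ⟨z, ?_, hze⟩
    by_contra hn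
    push Not at hn
    exact hzo (hT.edge z hz hn.1 hn.2)
  obtain ⟨x₁, t1, e1⟩ := hbd y₁ a1 b1
  obtain ⟨x₂, t2, e2⟩ := hbd y₂ a2 b2
  obtain ⟨x₃, t3, e3⟩ := hbd y₃ a3 b3
  have n12 : x₁ ≠ x₂ := fun e => hedge _ _ a1 a2 b1 c12 (e1.unique (e ▸ e2))
  have n13 : x₁ ≠ x₃ := fun e => hedge _ _ a1 a3 b1 c13 (e1.unique (e ▸ e3))
  have n23 : x₂ ≠ x₃ := fun e => hedge _ _ a2 a3 b2 c23 (e2.unique (e ▸ e3))
  rcases t1 with t1 | t1 <;> rcases t2 with t2 | t2 <;> rcases t3 with t3 | t3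
  · exact n12 (t1.trans t2.symm)
  · exact n12 (t1.trans t2.symm)
  · exact n13 (t1.trans t3.symm)
  · exact n23 (t2.trans t3.symm)
  · exact n23 (t2.trans t3.symm)
  · exact n13 (t1.trans t3.symm)
  · exact n12 (t1.trans t2.symm)
  · exact n12 (t1.trans t2.symm)

end Pool.Agent.Lib_helper40.SN
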