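import Pool.Agent.Lib_helper40.SN.Cyc

/-! The connected sum of two rooted sona maps. -/

namespace Pool.Agent.Lib_helper40.SN

open Equiv

set_option linter.unusedSectionVars false

variable {D D₁ D₂ : Type} [Finite D] [Finite D₁] [Finite D₂]

/-- rooted sona map: the two sides of the root edge are different faces -/
def IsRooted (V : ℕ) (σ α : Perm D) (d : D) : Prop :=
  IsSona V σ α ∧ ¬ (σ * α).SameCycle d (α d)

theorem no_turn {V : ℕ} {σ α : Perm D} (h : IsSona V σ α) : ∀ j : ℕ, ∀ d : D,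
    σ (σ (((α * (σ * σ)) ^ j) d)) ≠ d := by
  intro j
  induction j using Nat.strong_induction_on with
  | _ j ih =>
    intro d hd
    match j with
    | 0 => exact h.rot2 d (by simpa using hd)
    | 1 =>
      simp only [pow_one, Perm.mul_apply] at hd
      have h1 := congrArg (fun z => σ (σ z)) hd
      simp only [h.rot4] at h1
      exact h.nofix _ h1
    | j + 2 =>
      have e : ((α * (σ * σ)) ^ (j + 2)) d
          = (α * (σ * σ)) (((α * (σ * σ)) ^ j) ((α * (σ * σ)) d)) := by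
        rw [show j + 2 = 1 + (j + 1) by ring, pow_add, pow_add, pow_one]
        rfl
      rw [e] at hd
      have h1 := congrArg (fun z => σ (σ z)) hd
      simp only [Perm.mul_apply, h.rot4] at h1
      have h2 := congrArg α h1
      rw [h.inv] at h2
      refine ih j (by omega) ((α * (σ * σ)) d) ?_
      simp only [Perm.mul_apply]
      exact h2

/-- The curve leads from one end of the root edge to the other without using the root edge. -/
theorem curve_path {V : ℕ} {σ α : Perm D} (h : IsSona V σ α) {d : D} {T : Set D}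
    (hσ : ∀ z ∈ T, σ (σ z) ∈ T) (hα : ∀ z ∈ T, z ≠ d → z ≠ α d → α z ∈ T) (hd : d ∈ T) :
    α d ∈ T := by
  by_contra hn
  set ρ := α * (σ * σ) with hρ
  have key : ∀ j : ℕ, (ρ ^ j) d ∈ T := by
    intro j
    induction j with
    | zero => simpa using hd
    | succ j ih =>
      rw [pow_succ']
      have h1 := hσ _ ih
      refine hα _ h1 (no_turn h j d) ?_
      intro e
      exact hn (e ▸ h1)
  have ho : 0 < orderOf ρ := orderOf_pos ρ
  have h1 : ρ ((ρ ^ (orderOf ρ - 1)) d) = d := by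
    rw [← Perm.mul_apply, ← pow_succ', Nat.sub_add_cancel ho, pow_orderOf_eq_one]
    rfl
  have h2 := hσ _ (key (orderOf ρ - 1))
  have h3 : σ (σ ((ρ ^ (orderOf ρ - 1)) d)) = α d := by
    have := congrArg α h1
    rw [hρ, Perm.mul_apply, h.inv] at this
    exact this
  rw [h3] at h2
  exact hn h2

section Sum

variable [DecidableEq D₁] [DecidableEq D₂]

/-- rotation of the connected sum -/
def sumRot (σ₁ : Perm D₁) (σ₂ : Perm D₂) : Perm (D₁ ⊕ D₂) := Perm.sumCongr σ₁ σ₂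

/-- edges of the connected sum: both root edges are cut and reconnected -/
def sumEdge (α₁ : Perm D₁) (α₂ : Perm D₂) (d₁ : D₁) (d₂ : D₂) : Perm (D₁ ⊕ D₂) :=
  Perm.sumCongr α₁ α₂ * swap (Sum.inl d₁) (Sum.inr d₂) * swap (Sum.inl (α₁ d₁)) (Sum.inr (α₂ d₂))

variable {V₁ V₂ : ℕ} {σ₁ α₁ : Perm D₁} {σ₂ α₂ : Perm D₂} {d₁ : D₁} {d₂ : D₂}

theorem sumEdge_eq (x : D₁ ⊕ D₂) {y z : D₁ ⊕ D₂}
    (hy : swap (Sum.inl (α₁ d₁)) (Sum.inr (α₂ d₂)) x = y)
    (hz : swap (Sum.inl d₁) (Sum.inr d₂) y = z) :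
    sumEdge α₁ α₂ d₁ d₂ x = Perm.sumCongr α₁ α₂ z := by
  rw [← hz, ← hy]; rfl

theorem sumEdge_inl_root (h₁ : ∀ d, α₁ d ≠ d) :
    sumEdge α₁ α₂ d₁ d₂ (Sum.inl d₁) = Sum.inr (α₂ d₂) :=
  sumEdge_eq _ (swap_apply_of_ne_of_ne (fun e => h₁ d₁ (Sum.inl.inj e).symm) (by simp))
    (swap_apply_left _ _)

theorem sumEdge_inr_root (h₂ : ∀ d, α₂ d ≠ d) :
    sumEdge α₁ α₂ d₁ d₂ (Sum.inr d₂) = Sum.inl (α₁ d₁) :=
  sumEdge_eq _ (swap_apply_of_ne_of_ne (by simp) (fun e => h₂ d₂ (Sum.inr.inj e).symm))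
    (swap_apply_right _ _)

theorem sumEdge_inl_root' (h₂ : ∀ d, α₂ d ≠ d) (i₂ : ∀ d, α₂ (α₂ d) = d) :
    sumEdge α₁ α₂ d₁ d₂ (Sum.inl (α₁ d₁)) = Sum.inr d₂ := by
  rw [sumEdge_eq (α₁ := α₁) (α₂ := α₂) (d₁ := d₁) (d₂ := d₂) (Sum.inl (α₁ d₁)) (swap_apply_left _ _)
    (swap_apply_of_ne_of_ne (by simp) (fun e => h₂ d₂ (Sum.inr.inj e)))]
  exact congrArg Sum.inr (i₂ d₂)

theorem sumEdge_inr_root' (h₁ : ∀ d, α₁ d ≠ d) (i₁ : ∀ d, α₁ (α₁ d) = d) :
    sumEdge α₁ α₂ d₁ d₂ (Sum.inr (α₂ d₂)) = Sum.inl d₁ := by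
  rw [sumEdge_eq (α₁ := α₁) (α₂ := α₂) (d₁ := d₁) (d₂ := d₂) (Sum.inr (α₂ d₂)) (swap_apply_right _ _)
    (swap_apply_of_ne_of_ne (fun e => h₁ d₁ (Sum.inl.inj e)) (by simp))]
  exact congrArg Sum.inl (i₁ d₁)

theorem sumEdge_inl {x : D₁} (hx : x ≠ d₁) (hx' : x ≠ α₁ d₁) :
    sumEdge α₁ α₂ d₁ d₂ (Sum.inl x) = Sum.inl (α₁ x) :=
  sumEdge_eq _ (swap_apply_of_ne_of_ne (fun e => hx' (Sum.inl.inj e)) (by simp))
    (swap_apply_of_ne_of_ne (fun e => hx (Sum.inl.inj e)) (by simp))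

theorem sumEdge_inr {x : D₂} (hx : x ≠ d₂) (hx' : x ≠ α₂ d₂) :
    sumEdge α₁ α₂ d₁ d₂ (Sum.inr x) = Sum.inr (α₂ x) :=
  sumEdge_eq _ (swap_apply_of_ne_of_ne (by simp) (fun e => hx' (Sum.inr.inj e)))
    (swap_apply_of_ne_of_ne (by simp) (fun e => hx (Sum.inr.inj e)))

theorem isRooted_sum (h₁ : IsRooted V₁ σ₁ α₁ d₁) (h₂ : IsRooted V₂ σ₂ α₂ d₂) :
    IsRooted (V₁ + V₂) (sumRot σ₁ σ₂) (sumEdge α₁ α₂ d₁ d₂) (Sum.inl d₁) := by
  obtain ⟨s₁, r₁⟩ := h₁
  obtain ⟨s₂, r₂⟩ := h₂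
  set F := Perm.sumCongr (σ₁ * α₁) (σ₂ * α₂) with hF
  have hprod : sumRot σ₁ σ₂ * sumEdge α₁ α₂ d₁ d₂
      = F * swap (Sum.inl d₁) (Sum.inr d₂) * swap (Sum.inl (α₁ d₁)) (Sum.inr (α₂ d₂)) := by
    rw [hF, ← Perm.sumCongr_mul]
    unfold sumRot sumEdge
    simp only [mul_assoc]
  -- first merging
  have m1 : ¬ F.SameCycle (Sum.inl d₁) (Sum.inr d₂) := not_sameCycle_inl_inr _ _ _ _
  -- second merging
  have m2 : ¬ (F * swap (Sum.inl d₁) (Sum.inr d₂)).SameCycle (Sum.inl (α₁ d₁)) (Sum.inr (α₂ d₂)) := by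
    intro h
    rcases of_mul_swap h with h' | ⟨h', -⟩
    · exact not_sameCycle_inl_inr _ _ _ _ h'
    · rcases h' with h' | h'
      · exact r₁ ((sameCycle_sum_inl _ _ _ _).1 h')
      · exact not_sameCycle_inl_inr _ _ _ _ h'.symm
  refine ⟨⟨?_, ?_, ?_, ?_, ?_, ?_⟩, ?_⟩
  · rintro (x | x)
    · simp [sumRot, s₁.rot4]
    · simp [sumRot, s₂.rot4]
  · rintro (x | x)
    · simp [sumRot, s₁.rot2]
    · simp [sumRot, s₂.rot2]
  · rintro (x | x)
    · by_cases hx : x = d₁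
      · subst hx
        rw [sumEdge_inl_root s₁.nofix, sumEdge_inr_root' s₁.nofix s₁.inv]
      · by_cases hx' : x = α₁ d₁
        · subst hx'
          rw [sumEdge_inl_root' s₂.nofix s₂.inv, sumEdge_inr_root s₂.nofix]
        · rw [sumEdge_inl hx hx', sumEdge_inl, s₁.inv]
          · rintro e; exact hx' (by rw [← e, s₁.inv])
          · intro e; exact hx (α₁.injective e)
    · by_cases hx : x = d₂
      · subst hx
        rw [sumEdge_inr_root s₂.nofix, sumEdge_inl_root' s₂.nofix s₂.inv]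
      · by_cases hx' : x = α₂ d₂
        · subst hx'
          rw [sumEdge_inr_root' s₁.nofix s₁.inv, sumEdge_inl_root s₁.nofix]
        · rw [sumEdge_inr hx hx', sumEdge_inr, s₂.inv]
          · rintro e; exact hx' (by rw [← e, s₂.inv])
          · intro e; exact hx (α₂.injective e)
  · rintro (x | x)
    · by_cases hx : x = d₁
      · subst hx
        rw [sumEdge_inl_root s₁.nofix]; simp
      · by_cases hx' : x = α₁ d₁
        · subst hx'
          rw [sumEdge_inl_root' s₂.nofix s₂.inv]; simp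
        · rw [sumEdge_inl hx hx']
          intro e; exact s₁.nofix x (Sum.inl.inj e)
    · by_cases hx : x = d₂
      · subst hx
        rw [sumEdge_inr_root s₂.nofix]; simp
      · by_cases hx' : x = α₂ d₂
        · subst hx'
          rw [sumEdge_inr_root' s₁.nofix s₁.inv]; simp
        · rw [sumEdge_inr hx hx']
          intro e; exact s₂.nofix x (Sum.inr.inj e)
  · rw [hprod]
    have c1 := cyc_merge m1
    have c2 := cyc_merge m2
    have c3 : cyc F = (V₁ + 2) + (V₂ + 2) := by rw [hF, cyc_sum, s₁.planar, s₂.planar]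
    omega
  · intro S hS hσ hα
    have e1 : (∃ x, Sum.inl x ∈ S) → Sum.inl d₁ ∈ S ∧ ∀ x, Sum.inl x ∈ S := by
      rintro ⟨x, hx⟩
      set T : Set D₁ := {z | Sum.inl z ∈ S} with hT
      have t1 : ∀ z ∈ T, σ₁ (σ₁ z) ∈ T := fun z hz => hσ _ hz
      have t2 : ∀ z ∈ T, z ≠ d₁ → z ≠ α₁ d₁ → α₁ z ∈ T := by
        intro z hz h1 h2
        have := hα _ hz
        rwa [sumEdge_inl h1 h2] at this
      have hroot : d₁ ∈ T := by
        by_contra hd
        by_cases hd' : α₁ d₁ ∈ T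
        · have := curve_path (d := α₁ d₁) s₁ t1 (fun z hz a b => t2 z hz (by rw [s₁.inv] at b; exact b) a) hd'
          rw [s₁.inv] at this
          exact hd this
        · have huniv := s₁.conn T ⟨x, hx⟩ t1 (fun z hz => t2 z hz (fun e => hd (e ▸ hz)) (fun e => hd' (e ▸ hz)))
          exact hd (huniv ▸ Set.mem_univ _)
      have hroot' : α₁ d₁ ∈ T := curve_path s₁ t1 t2 hroot
      have huniv := s₁.conn T ⟨x, hx⟩ t1 (fun z hz => by
        by_cases h1 : z = d₁
        · rw [h1]; exact hroot'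
        · by_cases h2 : z = α₁ d₁
          · rw [h2, s₁.inv]; exact hroot
          · exact t2 z hz h1 h2)
      exact ⟨hroot, fun y => by
        have : y ∈ T := huniv ▸ Set.mem_univ _
        exact this⟩
    have e2 : (∃ x, Sum.inr x ∈ S) → Sum.inr d₂ ∈ S ∧ ∀ x, Sum.inr x ∈ S := by
      rintro ⟨x, hx⟩
      set T : Set D₂ := {z | Sum.inr z ∈ S} with hT
      have t1 : ∀ z ∈ T, σ₂ (σ₂ z) ∈ T := fun z hz => hσ _ hz
      have t2 : ∀ z ∈ T, z ≠ d₂ → z ≠ α₂ d₂ → α₂ z ∈ T := by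
        intro z hz h1 h2
        have := hα _ hz
        rwa [sumEdge_inr h1 h2] at this
      have hroot : d₂ ∈ T := by
        by_contra hd
        by_cases hd' : α₂ d₂ ∈ T
        · have := curve_path (d := α₂ d₂) s₂ t1 (fun z hz a b => t2 z hz (by rw [s₂.inv] at b; exact b) a) hd'
          rw [s₂.inv] at this
          exact hd this
        · have huniv := s₂.conn T ⟨x, hx⟩ t1 (fun z hz => t2 z hz (fun e => hd (e ▸ hz)) (fun e => hd' (e ▸ hz)))
          exact hd (huniv ▸ Set.mem_univ _)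
      have hroot' : α₂ d₂ ∈ T := curve_path s₂ t1 t2 hroot
      have huniv := s₂.conn T ⟨x, hx⟩ t1 (fun z hz => by
        by_cases h1 : z = d₂
        · rw [h1]; exact hroot'
        · by_cases h2 : z = α₂ d₂
          · rw [h2, s₂.inv]; exact hroot
          · exact t2 z hz h1 h2)
      exact ⟨hroot, fun y => by
        have : y ∈ T := huniv ▸ Set.mem_univ _
        exact this⟩
    have l1 : (∃ x, Sum.inl x ∈ S) → ∃ x, Sum.inr x ∈ S := by
      intro h
      have := hα _ (e1 h).1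
      rw [sumEdge_inl_root s₁.nofix] at this
      exact ⟨_, this⟩
    have l2 : (∃ x, Sum.inr x ∈ S) → ∃ x, Sum.inl x ∈ S := by
      intro h
      have := hα _ (e2 h).1
      rw [sumEdge_inr_root s₂.nofix] at this
      exact ⟨_, this⟩
    have hl : ∃ x, Sum.inl x ∈ S := by
      obtain ⟨x | x, hx⟩ := hS
      · exact ⟨x, hx⟩
      · exact l2 ⟨x, hx⟩
    ext z
    simp only [Set.mem_univ, iff_true]
    rcases z with z | z
    · exact (e1 hl).2 z
    · exact (e2 (l1 hl)).2 z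
  · rw [hprod, sumEdge_inl_root s₁.nofix]
    intro h
    rcases of_mul_swap h with h' | ⟨h', -⟩
    · rcases of_mul_swap h' with h'' | ⟨-, h''⟩
      · exact not_sameCycle_inl_inr _ _ _ _ h''
      · rcases h'' with h'' | h''
        · exact not_sameCycle_inl_inr _ _ _ _ h''
        · exact r₂ ((sameCycle_sum_inr _ _ _ _).1 h'')
    · -- `inl d₁` is not in the classes of `inl (α₁ d₁)` and `inr (α₂ d₂)`
      rcases h' with h' | h'
      · rcases of_mul_swap h' with h'' | ⟨h'', -⟩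
        · exact r₁ ((sameCycle_sum_inl _ _ _ _).1 h''.symm)
        · rcases h'' with h'' | h''
          · exact r₁ ((sameCycle_sum_inl _ _ _ _).1 h'')
          · exact not_sameCycle_inl_inr _ _ _ _ h''.symm
      · rcases of_mul_swap h' with h'' | ⟨h'', -⟩
        · exact not_sameCycle_inl_inr _ _ _ _ h''.symm
        · rcases h'' with h'' | h''
          · exact not_sameCycle_inl_inr _ _ _ _ h''
          · exact r₂ ((sameCycle_sum_inr _ _ _ _).1 h'')

/-- An isomorphism between two connected sums that respects the root and the cut restricts to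
isomorphisms of the parts. -/
theorem iso_parts {σ₁' α₁' : Perm D₁} {σ₂' α₂' : Perm D₂} {d₁' : D₁} {d₂' : D₂}
    (h₁ : IsSona V₁ σ₁ α₁) (h₂ : IsSona V₂ σ₂ α₂)
    (h₁' : IsSona V₁ σ₁' α₁') (h₂' : IsSona V₂ σ₂' α₂')
    (f : D₁ ⊕ D₂ ≃ D₁ ⊕ D₂)
    (hf : GraphIso (sumRot σ₁ σ₂) (sumEdge α₁ α₂ d₁ d₂) (sumRot σ₁' σ₂') (sumEdge α₁' α₂' d₁' d₂') f)
    (hr : f (Sum.inl d₁) = Sum.inl d₁') (hc : f (Sum.inl (α₁ d₁)) = Sum.inl (α₁' d₁')) :
    (∃ e : D₁ ≃ D₁, GraphIso σ₁ α₁ σ₁' α₁' e ∧ e d₁ = d₁') ∧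
    (∃ e : D₂ ≃ D₂, GraphIso σ₂ α₂ σ₂' α₂' e ∧ e d₂ = d₂') := by
  obtain ⟨hfα, hfσ⟩ := hf
  -- left part goes to left part
  have hleft : ∀ x : D₁, ∃ y : D₁, f (Sum.inl x) = Sum.inl y := by
    have := h₁.conn {x | ∃ y : D₁, f (Sum.inl x) = Sum.inl y} ⟨d₁, d₁', hr⟩ ?_ ?_
    · intro x
      have hx : x ∈ {x | ∃ y : D₁, f (Sum.inl x) = Sum.inl y} := this ▸ Set.mem_univ x
      exact hx
    · rintro x ⟨y, hy⟩
      have hsc : (sumRot σ₁ σ₂).SameCycle (Sum.inl x) (Sum.inl (σ₁ (σ₁ x))) :=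
        (sameCycle_sum_inl _ _ _ _).2 ((sameCycle_apply _ _).trans (sameCycle_apply _ _))
      have := (hfσ _ _).1 hsc
      rw [hy] at this
      rcases hz : f (Sum.inl (σ₁ (σ₁ x))) with z | z
      · exact ⟨z, hz⟩
      · rw [hz] at this
        exact absurd this (not_sameCycle_inl_inr _ _ _ _)
    · rintro x ⟨y, hy⟩
      by_cases hx : x = d₁
      · rw [hx]; exact ⟨_, hc⟩
      · by_cases hx' : x = α₁ d₁
        · rw [hx', h₁.inv]; exact ⟨_, hr⟩
        · have hy1 : y ≠ d₁' := by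
            rintro rfl
            exact hx (Sum.inl.inj (f.injective (hy.trans hr.symm)))
          have hy2 : y ≠ α₁' d₁' := by
            rintro rfl
            exact hx' (Sum.inl.inj (f.injective (hy.trans hc.symm)))
          have := hfα (Sum.inl x)
          rw [sumEdge_inl hx hx', hy, sumEdge_inl hy1 hy2] at this
          exact ⟨_, this⟩
  choose e₁ he₁ using hleft
  have hinj : Function.Injective e₁ := by
    intro x y hxy
    have : f (Sum.inl x) = f (Sum.inl y) := by rw [he₁, he₁, hxy]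
    exact Sum.inl.inj (f.injective this)
  have hsurj : Function.Surjective e₁ := Finite.surjective_of_injective hinj
  have hright : ∀ x : D₂, ∃ y : D₂, f (Sum.inr x) = Sum.inr y := by
    intro x
    rcases hz : f (Sum.inr x) with z | z
    · exfalso
      obtain ⟨w, hw⟩ := hsurj z
      have : f (Sum.inr x) = f (Sum.inl w) := by rw [hz, he₁, hw]
      cases f.injective this
    · exact ⟨z, rfl⟩
  choose e₂ he₂ using hright
  have hinj₂ : Function.Injective e₂ := by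
    intro x y hxy
    have : f (Sum.inr x) = f (Sum.inr y) := by rw [he₂, he₂, hxy]
    exact Sum.inr.inj (f.injective this)
  have hr₁ : e₁ d₁ = d₁' := Sum.inl.inj ((he₁ d₁).symm.trans hr)
  have hc₁ : e₁ (α₁ d₁) = α₁' d₁' := Sum.inl.inj ((he₁ _).symm.trans hc)
  have hc₂ : e₂ (α₂ d₂) = α₂' d₂' := by
    have := hfα (Sum.inl d₁)
    rw [sumEdge_inl_root h₁.nofix, hr, sumEdge_inl_root h₁'.nofix, he₂] at this
    exact Sum.inr.inj this
  have hr₂ : e₂ d₂ = d₂' := by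
    have := hfα (Sum.inl (α₁ d₁))
    rw [sumEdge_inl_root' h₂.nofix h₂.inv, hc, sumEdge_inl_root' h₂'.nofix h₂'.inv, he₂] at this
    exact Sum.inr.inj this
  have b₁ : Function.Bijective e₁ := ⟨hinj, hsurj⟩
  have b₂ : Function.Bijective e₂ := ⟨hinj₂, Finite.surjective_of_injective hinj₂⟩
  refine ⟨⟨Equiv.ofBijective e₁ b₁, ⟨fun x => ?_, fun x y => ?_⟩, hr₁⟩,
    ⟨Equiv.ofBijective e₂ b₂, ⟨fun x => ?_, fun x y => ?_⟩, hr₂⟩⟩
  · simp only [Equiv.ofBijective_apply]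
    by_cases hx : x = d₁
    · rw [hx, hc₁, hr₁]
    · by_cases hx' : x = α₁ d₁
      · rw [hx', h₁.inv, hr₁, hc₁, h₁'.inv]
      · have hy1 : e₁ x ≠ d₁' := fun e => hx (hinj (e.trans hr₁.symm))
        have hy2 : e₁ x ≠ α₁' d₁' := fun e => hx' (hinj (e.trans hc₁.symm))
        have := hfα (Sum.inl x)
        rw [sumEdge_inl hx hx', he₁, he₁, sumEdge_inl hy1 hy2] at this
        exact Sum.inl.inj this
  · simp only [Equiv.ofBijective_apply]
    have := hfσ (Sum.inl x) (Sum.inl y)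
    rw [he₁, he₁] at this
    exact (sameCycle_sum_inl _ _ _ _).symm.trans (this.trans (sameCycle_sum_inl _ _ _ _))
  · simp only [Equiv.ofBijective_apply]
    by_cases hx : x = d₂
    · rw [hx, hc₂, hr₂]
    · by_cases hx' : x = α₂ d₂
      · rw [hx', h₂.inv, hr₂, hc₂, h₂'.inv]
      · have hy1 : e₂ x ≠ d₂' := fun e => hx (hinj₂ (e.trans hr₂.symm))
        have hy2 : e₂ x ≠ α₂' d₂' := fun e => hx' (hinj₂ (e.trans hc₂.symm))
        have := hfα (Sum.inr x)
        rw [sumEdge_inr hx hx', he₂, he₂, sumEdge_inr hy1 hy2] at this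
        exact Sum.inr.inj this
  · simp only [Equiv.ofBijective_apply]
    have := hfσ (Sum.inr x) (Sum.inr y)
    rw [he₂, he₂] at this
    exact (sameCycle_sum_inr _ _ _ _).symm.trans (this.trans (sameCycle_sum_inr _ _ _ _))

end Sum

end Pool.Agent.Lib_helper40.SN
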