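import Pool.Agent.Lib_helper40.SN.Count

/-! Exponential upper bound for the number of rooted classes (spanning tree and two noncrossing
matchings). -/

namespace Pool.Agent.Lib_helper40.SN

open Equiv

set_option linter.unusedSectionVars false

section Restrict

variable {D : Type} [Fintype D] [DecidableEq D]

/-- `α` on the edges inside `B` -/
def rs (α : Perm D) (h : ∀ d, α (α d) = d) (B : Finset D) : Perm D :=
  Function.Involutive.toPerm (fun x => if x ∈ B ∧ α x ∈ B then α x else x) (by
    intro x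
    by_cases hx : x ∈ B ∧ α x ∈ B
    · have hx' : α x ∈ B ∧ α (α x) ∈ B := ⟨hx.2, by rw [h]; exact hx.1⟩
      simp only [if_pos hx]
      rw [if_pos hx', h]
    · simp only [if_neg hx])

variable {α : Perm D} {h : ∀ d, α (α d) = d} {B : Finset D}

theorem rs_apply (x : D) : rs α h B x = if x ∈ B ∧ α x ∈ B then α x else x := rfl

theorem rs_of_mem (hB : ∀ x ∈ B, α x ∈ B) {x : D} (hx : x ∈ B) : rs α h B x = α x := by
  rw [rs_apply, if_pos ⟨hx, hB x hx⟩]

theorem rs_of_not_mem {x : D} (hx : x ∉ B) : rs α h B x = x := by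
  rw [rs_apply, if_neg (fun k => hx k.1)]

theorem rs_rs (x : D) : rs α h B (rs α h B x) = x :=
  (Function.Involutive.toPerm_involutive _) x

theorem rs_mul_self : rs α h B * rs α h B = 1 := by
  ext x; rw [Perm.mul_apply, rs_rs]; rfl

theorem rs_empty : rs α h ∅ = 1 := by
  ext x; rw [rs_of_not_mem (by simp)]; rfl

theorem rs_mul_compl (hB : ∀ x ∈ B, α x ∈ B) : rs α h B * rs α h Bᶜ = α := by
  have hBc : ∀ x ∈ Bᶜ, α x ∈ Bᶜ := by
    intro x hx
    rw [Finset.mem_compl] at hx ⊢
    intro hx'
    have := hB _ hx'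
    rw [h] at this
    exact hx this
  ext x
  rw [Perm.mul_apply]
  by_cases hx : x ∈ B
  · rw [rs_of_not_mem (B := Bᶜ) (by simpa using hx), rs_of_mem hB hx]
  · have hx' : x ∈ Bᶜ := by simpa using hx
    have := hBc x hx'
    rw [rs_of_mem hBc hx', rs_of_not_mem (by simpa using this)]

theorem rs_insert (hB : ∀ x ∈ B, α x ∈ B) {d : D} (hd : d ∉ B) (hd' : α d ∉ B) :
    rs α h (insert d (insert (α d) B)) = rs α h B * swap d (α d) := by
  have hB' : ∀ x ∈ insert d (insert (α d) B), α x ∈ insert d (insert (α d) B) := by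
    intro x hx
    simp only [Finset.mem_insert] at hx ⊢
    rcases hx with rfl | rfl | hx
    · exact Or.inr (Or.inl rfl)
    · exact Or.inl (h d)
    · exact Or.inr (Or.inr (hB x hx))
  ext x
  rw [Perm.mul_apply]
  by_cases h1 : x = d
  · subst h1
    rw [swap_apply_left, rs_of_not_mem hd', rs_of_mem hB' (by simp)]
  · by_cases h2 : x = α d
    · subst h2
      rw [swap_apply_right, rs_of_not_mem hd, rs_of_mem hB' (by simp), h]
    · rw [swap_apply_of_ne_of_ne h1 h2]
      by_cases hx : x ∈ B
      · rw [rs_of_mem hB hx, rs_of_mem hB' (by simp [hx])]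
      · rw [rs_of_not_mem hx, rs_of_not_mem (by simp [h1, h2, hx])]

theorem rs_insert' (hB : ∀ x ∈ B, α x ∈ B) {d : D} (hd : d ∉ B) (hd' : α d ∉ B) :
    rs α h (insert d (insert (α d) B)) = swap d (α d) * rs α h B := by
  rw [rs_insert hB hd hd']
  ext x
  rw [Perm.mul_apply, Perm.mul_apply]
  by_cases h1 : x = d
  · subst h1
    rw [swap_apply_left, rs_of_not_mem hd', rs_of_not_mem hd, swap_apply_left]
  · by_cases h2 : x = α d
    · subst h2
      rw [swap_apply_right, rs_of_not_mem hd, rs_of_not_mem hd', swap_apply_right]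
    · rw [swap_apply_of_ne_of_ne h1 h2]
      by_cases hx : x ∈ B
      · have := hB x hx
        have n1 : α x ≠ d := fun e => hd (e ▸ this)
        have n2 : α x ≠ α d := fun e => hd' (e ▸ this)
        rw [rs_of_mem hB hx, swap_apply_of_ne_of_ne n1 n2]
      · rw [rs_of_not_mem hx, swap_apply_of_ne_of_ne h1 h2]

/-- removing an edge from a closed set -/
theorem erase_edge (hB : ∀ x ∈ B, α x ∈ B) (h : ∀ d, α (α d) = d) (hf : ∀ d, α d ≠ d) {d : D}
    (hd : d ∈ B) : ∃ B' : Finset D, (∀ x ∈ B', α x ∈ B') ∧ d ∉ B' ∧ α d ∉ B' ∧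
      B = insert d (insert (α d) B') ∧ B'.card + 2 = B.card ∧
      (∀ x ∈ B, x ≠ d → x ≠ α d → x ∈ B') := by
  have hd2 := hB d hd
  refine ⟨(B.erase (α d)).erase d, ?_, by simp, by simp, ?_, ?_, ?_⟩
  · intro x hx
    simp only [Finset.mem_erase] at hx ⊢
    refine ⟨?_, ?_, hB x hx.2.2⟩
    · rintro e
      exact hx.2.1 (by rw [← e, h])
    · intro e
      exact hx.1 (α.injective e)
  · ext x
    simp only [Finset.mem_insert, Finset.mem_erase]
    constructor
    · intro hx
      by_cases h1 : x = d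
      · exact Or.inl h1
      · by_cases h2 : x = α d
        · exact Or.inr (Or.inl h2)
        · exact Or.inr (Or.inr ⟨h1, h2, hx⟩)
    · rintro (rfl | rfl | hx)
      · exact hd
      · exact hd2
      · exact hx.2.2
  · have h1 : d ∈ B.erase (α d) := Finset.mem_erase.2 ⟨(hf d).symm, hd⟩
    rw [Finset.card_erase_of_mem h1, Finset.card_erase_of_mem hd2]
    have h2 : 0 < (B.erase (α d)).card := Finset.card_pos.2 ⟨d, h1⟩
    rw [Finset.card_erase_of_mem hd2] at h2
    omega
  · intro x hx h1 h2
    simp only [Finset.mem_erase]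
    exact ⟨h1, h2, hx⟩

/-- each edge adds at most one cycle -/
theorem cyc_mul_rs_le (hf : ∀ d, α d ≠ d) : ∀ (n : ℕ) (f : Perm D) (B : Finset D), B.card = n →
    (∀ x ∈ B, α x ∈ B) → 2 * cyc (f * rs α h B) ≤ 2 * cyc f + B.card := by
  intro n
  induction n using Nat.strong_induction_on with
  | _ n ih =>
    intro f B hn hB
    by_cases hne : B.Nonempty
    · obtain ⟨d, hd⟩ := hne
      obtain ⟨B', c1, c2, c3, c4, c5, -⟩ := erase_edge hB h hf hd
      rw [c4, rs_insert' c1 c2 c3, ← mul_assoc]
      have := ih B'.card (by omega) (f * swap d (α d)) B' rfl c1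
      have h2 := cyc_mul_swap_le f d (α d)
      rw [← c4]
      omega
    · rw [Finset.not_nonempty_iff_eq_empty] at hne
      subst hne
      rw [rs_empty, mul_one]
      simp

theorem cyc_rs_le (hf : ∀ d, α d ≠ d) (f : Perm D) (hB : ∀ x ∈ B, α x ∈ B) :
    2 * cyc (f * rs α h B) ≤ 2 * cyc f + B.card := cyc_mul_rs_le hf _ f B rfl hB

/-- In the extremal case two edges never cross. -/
theorem same_side (hf : ∀ d, α d ≠ d) {f : Perm D} (hcyc : cyc f = 1)
    (hB : ∀ x ∈ B, α x ∈ B) (hext : 2 * cyc (f * rs α h B) = B.card + 2) {a c : D}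
    (ha : a ∈ B) (hc : c ∈ B) (h1 : c ≠ a) (h2 : c ≠ α a) :
    (f * swap a (α a)).SameCycle c (α c) := by
  by_contra hn
  obtain ⟨B₁, c1, c2, c3, c4, c5, c6⟩ := erase_edge hB h hf ha
  obtain ⟨B₂, e1, e2, e3, e4, e5, e6⟩ := erase_edge c1 h hf (c6 c hc h1 h2)
  have k1 := cyc_merge hn
  have k2 := cyc_mul_swap_le f a (α a)
  have k3 := cyc_rs_le (h := h) hf (f * swap a (α a) * swap c (α c)) e1
  have k4 : f * rs α h B = f * swap a (α a) * swap c (α c) * rs α h B₂ := by
    rw [c4, rs_insert' c1 c2 c3, e4, rs_insert' e1 e2 e3]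
    simp only [mul_assoc]
  rw [k4] at hext
  omega

/-- A spanning tree: the contour of the tree visits all darts. -/
theorem exists_tree {V : ℕ} {σ : Perm D} (hs : IsSona V σ α) :
    ∃ A : Finset D, (∀ x ∈ A, α x ∈ A) ∧ ∀ x y, (σ * rs α h A).SameCycle x y := by
  classical
  let P : Finset D → Prop := fun A => (∀ x ∈ A, α x ∈ A) ∧
    (∀ x y, σ.SameCycle x y → (σ * rs α h A).SameCycle x y) ∧
    (∀ x ∈ A, (σ * rs α h A).SameCycle x (α x))
  have hP0 : P ∅ := ⟨by simp, by intro x y hxy; rw [rs_empty, mul_one]; exact hxy, by simp⟩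
  obtain ⟨A, hA, hmax⟩ := Finset.exists_max_image (Finset.univ.filter P) Finset.card
    ⟨∅, by simp [hP0]⟩
  simp only [Finset.mem_filter, Finset.mem_univ, true_and] at hA hmax
  obtain ⟨hA1, hA2, hA3⟩ := hA
  have hall : ∀ d, (σ * rs α h A).SameCycle d (α d) := by
    intro d
    by_contra hn
    have hd : d ∉ A := fun k => hn (hA3 d k)
    have hd' : α d ∉ A := by
      intro k
      have := hA1 _ k
      rw [h] at this
      exact hd this
    have hprod : σ * rs α h (insert d (insert (α d) A)) = σ * rs α h A * swap d (α d) := by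
      rw [rs_insert hA1 hd hd', mul_assoc]
    have hsame := merge_same hn
    have hP : P (insert d (insert (α d) A)) := by
      refine ⟨?_, ?_, ?_⟩
      · intro x hx
        simp only [Finset.mem_insert] at hx ⊢
        rcases hx with rfl | rfl | hx
        · exact Or.inr (Or.inl rfl)
        · exact Or.inl (h d)
        · exact Or.inr (Or.inr (hA1 x hx))
      · intro x y hxy
        rw [hprod]
        exact merge_mono hsame (hA2 x y hxy)
      · intro x hx
        rw [hprod]
        simp only [Finset.mem_insert] at hx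
        rcases hx with rfl | rfl | hx
        · exact hsame
        · rw [h]; exact hsame.symm
        · exact merge_mono hsame (hA3 x hx)
    have := hmax _ hP
    have h1 : A.card < (insert d (insert (α d) A)).card := by
      refine Finset.card_lt_card ?_
      rw [Finset.ssubset_iff]
      refine ⟨d, hd, ?_⟩
      intro x hx
      simp only [Finset.mem_insert] at hx ⊢
      tauto
    omega
  refine ⟨A, hA1, fun x y => ?_⟩
  have hσ : ∀ z, (σ * rs α h A).SameCycle z (σ z) := fun z => hA2 _ _ (sameCycle_apply σ z)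
  have := hs.conn {z | (σ * rs α h A).SameCycle x z} ⟨x, Perm.SameCycle.refl _ _⟩
    (fun z hz => (hz.trans (hσ z)).trans (hσ _)) (fun z hz => hz.trans (hall z))
  have hb : y ∈ {z | (σ * rs α h A).SameCycle x z} := this ▸ Set.mem_univ y
  exact hb

end Restrict

end Pool.Agent.Lib_helper40.SN
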