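import Pool.Agent.Lib_helper40.SN.Upper

/-! Exponential upper bound for the number of rooted classes: the encoding. -/

namespace Pool.Agent.Lib_helper40.SN

open Equiv

set_option linter.unusedSectionVars false

theorem card_le_four_cyc {D : Type} [Finite D] {V : ℕ} {σ α : Perm D} (h : IsSona V σ α) :
    Nat.card D ≤ 4 * cyc σ := by
  unfold cyc
  have : Finite (Quotient (Perm.SameCycle.setoid σ)) := inferInstance
  have hsurj : Function.Surjective (fun p : Fin 4 × Quotient (Perm.SameCycle.setoid σ) =>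
      (σ ^ (p.1 : ℕ)) p.2.out) := by
    intro x
    have h1 := Quotient.mk_out (s := Perm.SameCycle.setoid σ) x
    have h2 : σ.SameCycle (Quotient.mk (Perm.SameCycle.setoid σ) x).out x := h1
    obtain ⟨n, -, hn⟩ := h2.exists_pow_eq'
    have h4 : σ ^ 4 = 1 := by
      ext d
      have := h.rot4 d
      simpa [pow_succ] using this
    refine ⟨(⟨n % 4, Nat.mod_lt _ (by norm_num)⟩, Quotient.mk _ x), ?_⟩
    simp only
    rw [← pow_eq_pow_mod n h4, hn]
  have := Nat.card_le_card_of_surjective _ hsurj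
  rw [Nat.card_prod, Nat.card_eq_fintype_card (α := Fin 4), Fintype.card_fin] at this
  exact this

theorem cyc_eq_one {D : Type} [Finite D] [Nonempty D] {f : Perm D} (h : ∀ x y, f.SameCycle x y) :
    cyc f = 1 := by
  unfold cyc
  rw [Nat.card_eq_one_iff_unique]
  refine ⟨⟨fun q q' => ?_⟩, ⟨Quotient.mk _ (Classical.arbitrary D)⟩⟩
  induction q using Quotient.inductionOn with
  | h a =>
    induction q' using Quotient.inductionOn with
    | h b => exact Quotient.sound (s := Perm.SameCycle.setoid f) (h a b)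

theorem val_finRotate {N : ℕ} (i : Fin N) (hi : (i : ℕ) + 1 < N) :
    ((finRotate N i : Fin N) : ℕ) = i + 1 := by
  obtain ⟨n, rfl⟩ : ∃ n, N = n + 1 := ⟨N - 1, by omega⟩
  refine coe_finRotate_of_ne_last ?_
  intro e
  rw [e] at hi
  simp at hi

theorem val_finRotate_last {N : ℕ} (i : Fin N) (hi : (i : ℕ) + 1 = N) :
    ((finRotate N i : Fin N) : ℕ) = 0 := by
  obtain ⟨n, rfl⟩ : ∃ n, N = n + 1 := ⟨N - 1, by omega⟩
  have : i = Fin.last n := Fin.ext (by simpa using hi)
  rw [this, finRotate_last]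
  rfl

theorem finRotate_full {N : ℕ} (x y : Fin N) : (finRotate N).SameCycle x y := by
  have hN : 0 < N := lt_of_le_of_lt (Nat.zero_le _) x.2
  have key : ∀ k : ℕ, ∀ hk : k < N, (finRotate N).SameCycle ⟨0, hN⟩ ⟨k, hk⟩ := by
    intro k
    induction k with
    | zero => intro hk; exact Perm.SameCycle.refl _ _
    | succ k ih =>
      intro hk
      have h1 := ih (by omega)
      have h2 := sameCycle_apply (finRotate N) ⟨k, by omega⟩
      have h3 : finRotate N ⟨k, by omega⟩ = ⟨k + 1, hk⟩ :=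
        Fin.ext (val_finRotate ⟨k, by omega⟩ hk)
      rw [h3] at h2
      exact h1.trans h2
  exact (key x x.2).symm.trans (key y y.2)

/-- noncrossing partial matching -/
def NC {N : ℕ} (α : Perm (Fin N)) (A : Finset (Fin N)) : Prop :=
  ∀ a ∈ A, ∀ c ∈ A, a < α a → a < c → c < α a → a < α c ∧ α c < α a

theorem nc_of_cyc {N : ℕ} {α : Perm (Fin N)} (h : ∀ d, α (α d) = d) (hf : ∀ d, α d ≠ d)
    {A : Finset (Fin N)} (hA : ∀ x ∈ A, α x ∈ A)
    (hext : 2 * cyc (finRotate N * rs α h A) = A.card + 2) : NC α A := by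
  intro a ha c hc h1 h2 h3
  have hcyc : cyc (finRotate N) = 1 := by
    have : Nonempty (Fin N) := ⟨a⟩
    exact cyc_eq_one finRotate_full
  have hs := same_side hf hcyc hA hext ha hc (ne_of_gt h2) (ne_of_lt h3)
  have hmem : α c ∈ {x : Fin N | a < x ∧ x ≤ α a} := by
    refine mem_of_sameCycle (g := finRotate N * swap a (α a)) ?_ hs ⟨h2, le_of_lt h3⟩
    rintro z ⟨hz1, hz2⟩
    rw [Set.mem_ofPred_eq]
    by_cases hz : z = α a
    · subst hz
      rw [mul_swap_right]
      have h4 : (a : ℕ) < (α a : ℕ) := h1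
      have h5 : ((α a : Fin N) : ℕ) < N := (α a).2
      have h6 := val_finRotate a (by omega)
      constructor
      · rw [Fin.lt_def, h6]; omega
      · rw [Fin.le_def, h6]; omega
    · rw [mul_swap_of_ne _ (ne_of_gt hz1) hz]
      have h4 : (z : ℕ) < (α a : ℕ) := lt_of_le_of_ne hz2 (fun e => hz (Fin.ext e))
      have h5 : ((α a : Fin N) : ℕ) < N := (α a).2
      have h6 := val_finRotate z (by omega)
      have h7 : (a : ℕ) < (z : ℕ) := hz1
      constructor
      · rw [Fin.lt_def, h6]; omega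
      · rw [Fin.le_def, h6]; omega
  refine ⟨hmem.1, lt_of_le_of_ne hmem.2 ?_⟩
  intro e
  exact (ne_of_gt h2) (α.injective e)

/-- A noncrossing matching is determined by its left endpoints: openers. -/
theorem opener_eq {N : ℕ} {α β : Perm (Fin N)} (hα : ∀ d, α (α d) = d) (hβ : ∀ d, β (β d) = d)
    (fα : ∀ d, α d ≠ d) (fβ : ∀ d, β d ≠ d) {A : Finset (Fin N)} (cα : ∀ x ∈ A, α x ∈ A)
    (cβ : ∀ x ∈ A, β x ∈ A) (nα : NC α A) (nβ : NC β A)
    (hw : ∀ x ∈ A, (x < α x ↔ x < β x)) {x : Fin N} (hx : x ∈ A) (ho : x < α x) :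
    ¬ α x < β x := by
  classical
  intro hlt
  set J := A.filter (fun z => x < z ∧ z ≤ α x) with hJ
  set O := J.filter (fun z => z < α z) with hO
  set C := J.filter (fun z => α z < z) with hC
  have ho' : x < β x := (hw x hx).1 ho
  have h1 : C.card ≤ O.card := by
    refine Finset.card_le_card_of_injOn β ?_ (fun a _ b _ e => β.injective e)
    intro z hz
    simp only [hC, hO, hJ, Finset.coe_filter, Finset.mem_filter, Set.mem_ofPred_eq] at hz ⊢
    obtain ⟨⟨hz1, hz2, hz3⟩, hz4⟩ := hz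
    have hz5 : β z < z := by
      refine lt_of_le_of_ne (not_lt.1 (fun k => ?_)) (fβ z)
      exact absurd ((hw z hz1).2 k) (not_lt.2 (le_of_lt hz4))
    have hz6 := nβ x hx z hz1 ho' hz2 (lt_of_le_of_lt hz3 hlt)
    refine ⟨⟨cβ z hz1, hz6.1, le_trans (le_of_lt hz5) hz3⟩, ?_⟩
    rw [hw _ (cβ z hz1), hβ]
    exact hz5
  have hαx : α x ∈ C := by
    simp only [hC, hJ, Finset.mem_filter]
    refine ⟨⟨cα x hx, ho, le_refl _⟩, ?_⟩
    rw [hα]
    exact ho
  have h2 : O.card ≤ (C.erase (α x)).card := by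
    refine Finset.card_le_card_of_injOn α ?_ (fun a _ b _ e => α.injective e)
    intro z hz
    simp only [hC, hO, hJ, Finset.coe_erase, Finset.coe_filter, Finset.mem_filter,
      Set.mem_ofPred_eq, Set.mem_sdiff, Set.mem_singleton_iff] at hz ⊢
    obtain ⟨⟨hz1, hz2, hz3⟩, hz4⟩ := hz
    have hz5 : z < α x := by
      refine lt_of_le_of_ne hz3 (fun e => ?_)
      rw [e, hα] at hz4
      exact absurd hz4 (not_lt.2 (le_of_lt ho))
    have hz6 := nα x hx z hz1 ho hz2 hz5
    refine ⟨⟨⟨cα z hz1, hz6.1, le_of_lt hz6.2⟩, ?_⟩, ?_⟩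
    · rw [hα]; exact hz4
    · intro e
      exact absurd (α.injective e) (ne_of_gt hz2)
  rw [Finset.card_erase_of_mem hαx] at h2
  have h3 : 0 < C.card := Finset.card_pos.2 ⟨_, hαx⟩
  omega

theorem matching_eq {N : ℕ} {α β : Perm (Fin N)} (hα : ∀ d, α (α d) = d) (hβ : ∀ d, β (β d) = d)
    (fα : ∀ d, α d ≠ d) (fβ : ∀ d, β d ≠ d) {A : Finset (Fin N)} (cα : ∀ x ∈ A, α x ∈ A)
    (cβ : ∀ x ∈ A, β x ∈ A) (nα : NC α A) (nβ : NC β A)
    (hw : ∀ x ∈ A, (x < α x ↔ x < β x)) {x : Fin N} (hx : x ∈ A) : α x = β x := by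
  have key : ∀ x ∈ A, x < α x → α x = β x := by
    intro x hx ho
    have h1 := opener_eq hα hβ fα fβ cα cβ nα nβ hw hx ho
    have h2 := opener_eq hβ hα fβ fα cβ cα nβ nα (fun x hx => (hw x hx).symm) hx ((hw x hx).1 ho)
    exact le_antisymm (not_lt.1 h2) (not_lt.1 h1)
  rcases lt_trichotomy x (α x) with h1 | h1 | h1
  · exact key x hx h1
  · exact absurd h1.symm (fα x)
  · have := key (α x) (cα x hx) (by rw [hα]; exact h1)
    rw [hα] at this
    have h2 := congrArg β this
    rw [hβ] at h2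
    exact h2.symm

/-- Labelling the darts along a full cycle. -/
theorem exists_labelling {D : Type} [Fintype D] [DecidableEq D] {N : ℕ} (hN : Fintype.card D = N)
    {f : Perm D} (hf : ∀ x y, f.SameCycle x y) (d : D) :
    ∃ E : D ≃ Fin N, (∀ x, E (f x) = finRotate N (E x)) ∧ ((E d : Fin N) : ℕ) = 0 := by
  have hcy : f.IsCycleOn (Finset.univ : Finset D) := by
    refine ⟨?_, fun x _ y _ => hf x y⟩
    simp only [Finset.coe_univ]
    exact Set.bijOn_univ.2 f.bijective
  have hNpos : 0 < N := by rw [← hN]; exact Fintype.card_pos_iff.2 ⟨d⟩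
  have hsurj : Function.Surjective (fun k : Fin N => (f ^ (k : ℕ)) d) := by
    intro x
    obtain ⟨n, hn, hx⟩ := hcy.exists_pow_eq (Finset.mem_univ d) (Finset.mem_univ x)
    rw [Finset.card_univ, hN] at hn
    exact ⟨⟨n, hn⟩, hx⟩
  have hbij : Function.Bijective (fun k : Fin N => (f ^ (k : ℕ)) d) :=
    (Fintype.bijective_iff_surjective_and_card _).2 ⟨hsurj, by rw [Fintype.card_fin, hN]⟩
  have hpow : (f ^ N) d = d := by
    have := hcy.pow_card_apply (Finset.mem_univ d)
    rwa [Finset.card_univ, hN] at this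
  set F := Equiv.ofBijective _ hbij with hF
  refine ⟨F.symm, fun x => ?_, ?_⟩
  · obtain ⟨k, rfl⟩ := F.surjective x
    rw [Equiv.symm_apply_apply, Equiv.symm_apply_eq]
    have h1 : f (F k) = (f ^ ((k : ℕ) + 1)) d := by
      rw [pow_succ']
      rfl
    rw [h1]
    have h2 : F (finRotate N k) = (f ^ ((finRotate N k : Fin N) : ℕ)) d := rfl
    rw [h2]
    by_cases hk : (k : ℕ) + 1 < N
    · rw [val_finRotate k hk]
    · have hk' : (k : ℕ) + 1 = N := by have := k.2; omega
      rw [val_finRotate_last k hk', hk', hpow, pow_zero]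
      rfl
  · have : F.symm d = ⟨0, hNpos⟩ := by
      rw [Equiv.symm_apply_eq]
      rfl
    rw [this]

end Pool.Agent.Lib_helper40.SN
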