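import Pool.Agent.Lib_helper40.SN.AutB

/-! Boolean functions on few points -/

namespace Pool.Agent.Lib_helper40.SN

open Equiv

set_option linter.unusedSectionVars false
set_option maxRecDepth 100000

/-- a function on 3 points -/
def vec3 (a0 a1 a2 : Bool) : Fin 3 → Bool
  | 0 => a0
  | 1 => a1
  | 2 => a2

theorem vec3_eq (w : Fin 3 → Bool) : w = vec3 (w 0) (w 1) (w 2) := by
  funext i; fin_cases i <;> rfl

theorem bool3 (w : Fin 3 → Bool) (h1 : ∃ i, w i = true) (h2 : ∃ i, w i = false) :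
    (w 0 || w 1 || w 2) = true ∧ (w 0 && w 1 && w 2) = false := by
  obtain ⟨i, hi⟩ := h1
  obtain ⟨j, hj⟩ := h2
  constructor
  · fin_cases i <;> simp_all
  · fin_cases j <;> simp_all

/-- a function on 4 points -/
def vec4 (a0 a1 a2 a3 : Bool) : Fin 4 → Bool
  | 0 => a0
  | 1 => a1
  | 2 => a2
  | 3 => a3

theorem vec4_eq (w : Fin 4 → Bool) : w = vec4 (w 0) (w 1) (w 2) (w 3) := by
  funext i; fin_cases i <;> rfl

theorem bool4 (w : Fin 4 → Bool) (h1 : ∃ i, w i = true) (h2 : ∃ i, w i = false) :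
    (w 0 || w 1 || w 2 || w 3) = true ∧ (w 0 && w 1 && w 2 && w 3) = false := by
  obtain ⟨i, hi⟩ := h1
  obtain ⟨j, hj⟩ := h2
  constructor
  · fin_cases i <;> simp_all
  · fin_cases j <;> simp_all

/-- a function on 5 points -/
def vec5 (a0 a1 a2 a3 a4 : Bool) : Fin 5 → Bool
  | 0 => a0
  | 1 => a1
  | 2 => a2
  | 3 => a3
  | 4 => a4

theorem vec5_eq (w : Fin 5 → Bool) : w = vec5 (w 0) (w 1) (w 2) (w 3) (w 4) := by
  funext i; fin_cases i <;> rfl

theorem bool5 (w : Fin 5 → Bool) (h1 : ∃ i, w i = true) (h2 : ∃ i, w i = false) :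
    (w 0 || w 1 || w 2 || w 3 || w 4) = true ∧ (w 0 && w 1 && w 2 && w 3 && w 4) = false := by
  obtain ⟨i, hi⟩ := h1
  obtain ⟨j, hj⟩ := h2
  constructor
  · fin_cases i <;> simp_all
  · fin_cases j <;> simp_all

/-- a function on 6 points -/
def vec6 (a0 a1 a2 a3 a4 a5 : Bool) : Fin 6 → Bool
  | 0 => a0
  | 1 => a1
  | 2 => a2
  | 3 => a3
  | 4 => a4
  | 5 => a5

theorem vec6_eq (w : Fin 6 → Bool) : w = vec6 (w 0) (w 1) (w 2) (w 3) (w 4) (w 5) := by
  funext i; fin_cases i <;> rfl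

theorem bool6 (w : Fin 6 → Bool) (h1 : ∃ i, w i = true) (h2 : ∃ i, w i = false) :
    (w 0 || w 1 || w 2 || w 3 || w 4 || w 5) = true ∧ (w 0 && w 1 && w 2 && w 3 && w 4 && w 5) = false := by
  obtain ⟨i, hi⟩ := h1
  obtain ⟨j, hj⟩ := h2
  constructor
  · fin_cases i <;> simp_all
  · fin_cases j <;> simp_all

/-- a function on 7 points -/
def vec7 (a0 a1 a2 a3 a4 a5 a6 : Bool) : Fin 7 → Bool
  | 0 => a0
  | 1 => a1
  | 2 => a2
  | 3 => a3
  | 4 => a4
  | 5 => a5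
  | 6 => a6

theorem vec7_eq (w : Fin 7 → Bool) : w = vec7 (w 0) (w 1) (w 2) (w 3) (w 4) (w 5) (w 6) := by
  funext i; fin_cases i <;> rfl

theorem bool7 (w : Fin 7 → Bool) (h1 : ∃ i, w i = true) (h2 : ∃ i, w i = false) :
    (w 0 || w 1 || w 2 || w 3 || w 4 || w 5 || w 6) = true ∧ (w 0 && w 1 && w 2 && w 3 && w 4 && w 5 && w 6) = false := by
  obtain ⟨i, hi⟩ := h1
  obtain ⟨j, hj⟩ := h2
  constructor
  · fin_cases i <;> simp_all
  · fin_cases j <;> simp_all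

end Pool.Agent.Lib_helper40.SN
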